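import Pool.Agent.MP_3251d9_pr.H70.Explore

/-! Rooted forests and spanning trees. -/

set_option autoImplicit false

namespace Pool.Agent.MP_3251d9_pr.H70

open Finset Function

variable {V : Type*} {D : Finset V} {F : V → V}

/-- the graph of a forest -/
def gr (F : V → V) : SimpleGraph V := SimpleGraph.fromRel fun v w => F v = w

lemma gr_adj {v w : V} : (gr F).Adj v w ↔ v ≠ w ∧ (F v = w ∨ F w = v) := by
  simp [gr, SimpleGraph.fromRel_adj]

lemma gr_reach (hF : IsForest D F) (v : V) : (gr F).Reachable v (root F v) := by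
  refine hF.induction (P := fun v => (gr F).Reachable v (root F v)) ?_ ?_ v
  · intro v hv; rw [hF.root_of_not_mem hv]
  · intro v hv ih
    rw [hF.root_step] at ih
    exact (SimpleGraph.Adj.reachable (gr_adj.2 ⟨(hF.ne hv).symm, Or.inl rfl⟩)).trans ih

lemma root_eq_of_reach (hF : IsForest D F) {u w : V} (h : (gr F).Reachable u w) :
    root F u = root F w := by
  obtain ⟨p⟩ := h
  induction p with
  | nil => rfl
  | cons h _ ih =>
    rw [← ih]
    rcases (gr_adj.1 h).2 with e | e <;> rw [← e, hF.root_step]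

lemma gr_inj {F' : V → V} (hF : IsForest D F) (hF' : IsForest D F') (h : gr F = gr F') : F = F' := by
  funext v
  refine hF.induction (P := fun v => F v = F' v) ?_ ?_ v
  · intro v hv; rw [hF.1 v hv, hF'.1 v hv]
  · intro v hv ih
    have h1 : (gr F').Adj v (F v) := h ▸ gr_adj.2 ⟨(hF.ne hv).symm, Or.inl rfl⟩
    rcases (gr_adj.1 h1).2 with e | e
    · exact e.symm
    · exfalso
      rw [e] at ih
      have key : ∀ w, w = v ∨ w = F v → False := by
        intro w
        refine hF.induction (P := fun w => w = v ∨ w = F v → False) ?_ ?_ w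
        · rintro w hw (rfl | rfl)
          · exact hw hv
          · rw [hF.1 _ hw] at ih; exact hw (ih.symm ▸ hv)
        · rintro w _ h2 (rfl | rfl)
          · exact h2 (Or.inr rfl)
          · exact h2 (Or.inl ih)
      exact key v (Or.inl rfl)

variable [Fintype V] [DecidableEq V]

lemma gr_connected {ρ : V} (hF : IsForest (univ.erase ρ) F) : (gr F).Connected := by
  have : ∀ v, (gr F).Reachable v ρ := by
    intro v
    have h1 := gr_reach hF v
    have h2 := hF.root_not_mem v
    simp only [mem_erase, mem_univ, and_true, ne_eq, not_not] at h2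
    rwa [h2] at h1
  have hne : Nonempty V := ⟨ρ⟩
  exact ⟨fun u v => (this u).trans (this v).symm⟩

lemma gr_isTree {ρ : V} (hF : IsForest (univ.erase ρ) F) : (gr F).IsTree := by
  rw [SimpleGraph.isTree_iff_connected_and_card]
  refine ⟨gr_connected hF, le_antisymm ?_ (gr_connected hF).card_vert_le_card_edgeSet_add_one⟩
  have h1 : (gr F).edgeSet ⊆ ((univ.erase ρ).image fun v => s(v, F v) : Finset (Sym2 V)) := by
    intro e he
    induction e with
    | _ v w =>
    obtain ⟨h1, h2 | h2⟩ := gr_adj.1 he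
    · refine mem_coe.2 (mem_image.2 ⟨v, ?_, by rw [h2]⟩)
      by_contra h; exact h1 ((hF.1 v h).symm.trans h2)
    · refine mem_coe.2 (mem_image.2 ⟨w, ?_, by rw [h2, Sym2.eq_swap]⟩)
      by_contra h; exact h1 ((hF.1 w h).symm.trans h2).symm
  have h2 := Set.ncard_le_ncard h1 (Finset.finite_toSet _)
  rw [Set.ncard_coe_finset] at h2
  have h3 := card_image_le (s := univ.erase ρ) (f := fun v => s(v, F v))
  rw [card_erase_of_mem (mem_univ _), card_univ] at h3
  have h4 : 0 < Fintype.card V := Fintype.card_pos_iff.2 ⟨ρ⟩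
  rw [Nat.card_coe_set_eq, Nat.card_eq_fintype_card]
  omega

lemma exists_forest_of_tree {T : SimpleGraph V} (hT : T.IsTree) (ρ : V) :
    ∃ F, IsForest (univ.erase ρ) F ∧ gr F = T := by
  have h : ∀ v, v ≠ ρ → ∃ w, T.Adj v w ∧ T.dist w ρ < T.dist v ρ := by
    intro v hv
    obtain ⟨p, hp⟩ := hT.connected.exists_walk_length_eq_dist v ρ
    cases p with
    | nil => exact absurd rfl hv
    | cons h p => exact ⟨_, h, by have := SimpleGraph.dist_le p; simp at hp; omega⟩
  choose! f hf using h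
  have hF : IsForest (univ.erase ρ) (fun v => if v = ρ then v else f v) := by
    refine ⟨fun v hv => if_pos (by simpa using hv), fun v => ?_⟩
    induction hr : T.dist v ρ using Nat.strong_induction_on generalizing v with
    | _ n ih =>
      by_cases hv : v = ρ
      · exact ⟨0, by simp [hv]⟩
      · obtain ⟨k, hk⟩ := ih _ (hr ▸ (hf v hv).2) (f v) rfl
        exact ⟨k + 1, by rw [Function.iterate_succ_apply]; simpa [hv] using hk⟩
  refine ⟨_, hF, ((SimpleGraph.isTree_iff_minimal_connected.1 hT).eq_of_le (gr_connected hF) ?_)⟩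
  intro v w hvw
  obtain ⟨h1, h2 | h2⟩ := gr_adj.1 hvw
  · split_ifs at h2 with h3
    · exact absurd h2 h1
    · exact h2 ▸ (hf v h3).1
  · split_ifs at h2 with h3
    · exact absurd h2.symm h1
    · exact (h2 ▸ (hf w h3).1).symm

omit [Fintype V] in
lemma gr_delete (hF : IsForest D F) {a ρ : V} (ha : a ∉ D) (hρ : ρ ∉ D) (haρ : a ≠ ρ) :
    (gr (update F a ρ)).deleteEdges {s(ρ, a)} = gr F := by
  have e1 := hF.1 a ha
  have e2 := hF.1 ρ hρ
  ext v w
  simp only [SimpleGraph.deleteEdges_adj, gr_adj, Set.mem_singleton_iff, Sym2.eq_iff, update_apply]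
  grind

open Classical in
lemma S_eq_count {G : SimpleGraph V} {c : V → V → ℝ} {ω : ℝ}
    (hc : ∀ v w, v ≠ w → c v w = if G.Adj v w then ω else 0) (P : (V → V) → Prop) :
    S c D (fun F => ind (P F)) = ω ^ D.card *
      (Set.ncard {F | (IsForest D F ∧ ∀ v ∈ D, G.Adj v (F v)) ∧ P F} : ℝ) := by
  unfold S
  rw [← Finset.coe_filter_univ, Set.ncard_coe_finset, card_filter]
  push_cast
  rw [mul_sum]
  refine sum_congr rfl fun F _ => ?_
  by_cases hF : IsForest D F
  · rw [if_pos hF]
    by_cases hP : P F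
    · rw [ind_of hP, mul_one]
      by_cases hG : ∀ v ∈ D, G.Adj v (F v)
      · rw [if_pos ⟨⟨hF, hG⟩, hP⟩, mul_one, ← prod_const]
        exact prod_congr rfl fun v hv => by rw [hc _ _ (hF.ne hv).symm, if_pos (hG v hv)]
      · rw [if_neg (by tauto), mul_zero]
        push Not at hG
        obtain ⟨v, hv, h⟩ := hG
        exact prod_eq_zero hv (by rw [hc _ _ (hF.ne hv).symm, if_neg h])
    · rw [ind_of_not hP, if_neg (by tauto)]; simp
  · rw [if_neg hF, if_neg (by tauto)]; simp

omit [Fintype V] [DecidableEq V] in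
lemma gr_le {G : SimpleGraph V} (hF : IsForest D F) (h : ∀ v ∈ D, G.Adj v (F v)) : gr F ≤ G := by
  intro v w hvw
  obtain ⟨h1, h2 | h2⟩ := gr_adj.1 hvw
  · exact h2 ▸ h v (by by_contra h; exact h1 ((hF.1 v h).symm.trans h2))
  · exact (h2 ▸ h w (by by_contra h; exact h1 ((hF.1 w h).symm.trans h2).symm)).symm

open Classical in
lemma trees_le {G : SimpleGraph V} {c : V → V → ℝ} {ω : ℝ} (hω : 0 ≤ ω)
    (hc : ∀ v w, v ≠ w → c v w = if G.Adj v w then ω else 0) (ρ : V) :
    ω ^ (univ.erase ρ).card * (Set.ncard {T : SimpleGraph V | T ≤ G ∧ T.IsTree} : ℝ) ≤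
      Z c (univ.erase ρ) := by
  have e : Z c (univ.erase ρ) = S c (univ.erase ρ) (fun _ => ind True) := by
    rw [ind_of trivial]; rfl
  rw [e, S_eq_count hc (fun _ => True)]
  refine mul_le_mul_of_nonneg_left (Nat.cast_le.2 ?_) (by positivity)
  refine le_trans (Set.ncard_le_ncard ?_ (Set.toFinite _))
    (Set.ncard_image_le (f := gr) (Set.toFinite _))
  rintro T ⟨h1, h2⟩
  obtain ⟨F, hF, rfl⟩ := exists_forest_of_tree h2 ρ
  exact ⟨F, ⟨⟨hF, fun v hv => h1 (gr_adj.2 ⟨(hF.ne hv).symm, Or.inl rfl⟩)⟩, trivial⟩, rfl⟩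

open Classical in
lemma le_balanced {G : SimpleGraph V} {c : V → V → ℝ} {ω : ℝ} (hω : 0 ≤ ω)
    (hc : ∀ v w, v ≠ w → c v w = if G.Adj v w then ω else 0) {ρ a : V} (hG : G.Adj a ρ) (M : ℕ) :
    S c ((univ.erase ρ).erase a) (fun F => ind (2 * (lab {ρ} (root F)).card = M)) ≤
      ω ^ ((univ.erase ρ).erase a).card * (Set.ncard {T : SimpleGraph V | T ≤ G ∧ T.IsTree ∧
        ∃ u v, T.Adj u v ∧ 2 * Set.ncard {w | (T.deleteEdges {s(u, v)}).Reachable u w} = M} : ℝ) := by
  rw [S_eq_count hc]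
  refine mul_le_mul_of_nonneg_left (Nat.cast_le.2 ?_) (by positivity)
  have ha : a ∉ (univ.erase ρ).erase a := notMem_erase _ _
  have hρ : ρ ∉ (univ.erase ρ).erase a := fun h => notMem_erase ρ univ (mem_of_mem_erase h)
  have hup : ∀ F, IsForest ((univ.erase ρ).erase a) F → IsForest (univ.erase ρ) (update F a ρ) := by
    intro F hF
    have := (isForest_update_iff (y := ρ) ha (hF.1 a ha)).2
      ⟨hF, by rw [hF.root_of_not_mem hρ]; exact hG.ne'⟩
    rwa [insert_erase (mem_erase.2 ⟨hG.ne, mem_univ _⟩)] at this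
  refine Set.ncard_le_ncard_of_injOn (fun F => gr (update F a ρ)) ?_ ?_ (Set.toFinite _)
  · intro F hF
    obtain ⟨⟨hF, h1⟩, h2⟩ := hF
    refine ⟨gr_le (hup F hF) fun v hv => ?_, gr_isTree (hup F hF), ρ, a,
      gr_adj.2 ⟨hG.ne', Or.inr (update_self _ _ _)⟩, ?_⟩
    · by_cases h : v = a
      · rw [h, update_self]; exact hG
      · rw [update_of_ne h]; exact h1 v (mem_erase.2 ⟨h, hv⟩)
    · rw [gr_delete hF ha hρ hG.ne, ← h2, ← Set.ncard_coe_finset]
      congr 2
      ext w
      simp only [Set.mem_ofPred_eq, mem_coe, mem_lab, mem_singleton]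
      constructor
      · intro h; rw [← root_eq_of_reach hF h, hF.root_of_not_mem hρ]
      · intro h; exact h ▸ (gr_reach hF w).symm
  · intro F hF F' hF' h
    obtain ⟨⟨hF, _⟩, _⟩ := hF
    obtain ⟨⟨hF', _⟩, _⟩ := hF'
    have := gr_inj (hup F hF) (hup F' hF') h
    funext v
    by_cases hv : v = a
    · rw [hv, hF.1 a ha, hF'.1 a ha]
    · simpa [hv] using congrFun this v

end Pool.Agent.MP_3251d9_pr.H70
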