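import Pool.Agent.MP_3251d9_pr.H70.Half
import Pool.Agent.MP_3251d9_pr.H70.Trees

/-! Gluing two half cubes. -/

set_option autoImplicit false

namespace Pool.Agent.MP_3251d9_pr.H70

open Finset Function

variable {n h : ℕ}

/-- the upper half -/
def up (hn : n = h + h) : Bx n n h ↪ Bx n n n :=
  ⟨fun v => (v.1, v.2.1, ⟨h + v.2.2.val, by have := v.2.2.isLt; omega⟩), fun v w e => by
    simp only [Prod.mk.injEq, Fin.mk.injEq] at e
    exact Prod.ext e.1 (Prod.ext e.2.1 (Fin.ext (by omega)))⟩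

/-- the lower half -/
def dn (hn : n = h + h) : Bx n n h ↪ Bx n n n :=
  ⟨fun v => (v.1, v.2.1, ⟨h - 1 - v.2.2.val, by have := v.2.2.isLt; omega⟩), fun v w e => by
    simp only [Prod.mk.injEq, Fin.mk.injEq] at e
    have := v.2.2.isLt
    have := w.2.2.isLt
    exact Prod.ext e.1 (Prod.ext e.2.1 (Fin.ext (by omega)))⟩

lemma c_up (hn : n = h + h) (v : Bx n n h) :
    cX (up hn v) = cX v ∧ cY (up hn v) = cY v ∧ cZ (up hn v) = h + cZ v :=
  ⟨rfl, rfl, by show ((h + v.2.2.val : ℕ) : ℤ) = h + (v.2.2.val : ℤ); omega⟩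

lemma c_dn (hn : n = h + h) (v : Bx n n h) :
    cX (dn hn v) = cX v ∧ cY (dn hn v) = cY v ∧ cZ (dn hn v) = h - 1 - cZ v :=
  ⟨rfl, rfl, by
    have := v.2.2.isLt
    show ((h - 1 - v.2.2.val : ℕ) : ℤ) = h - 1 - (v.2.2.val : ℤ)
    omega⟩

lemma exists_up (hn : n = h + h) {u : Bx n n n} (hu : ¬ cZ u < h) : ∃ v, up hn v = u := by
  have := bnd u
  obtain ⟨v, e1, e2, e3⟩ := exists_pt (n1 := n) (n2 := n) (n3 := h) (x := cX u) (y := cY u)
    (z := cZ u - h) (by omega) (by omega) (by omega)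
  have := c_up hn v
  exact ⟨v, bx_ext (by omega) (by omega) (by omega)⟩

lemma exists_dn (hn : n = h + h) {u : Bx n n n} (hu : cZ u < h) : ∃ v, dn hn v = u := by
  have := bnd u
  obtain ⟨v, e1, e2, e3⟩ := exists_pt (n1 := n) (n2 := n) (n3 := h) (x := cX u) (y := cY u)
    (z := h - 1 - cZ u) (by omega) (by omega) (by omega)
  have := c_dn hn v
  exact ⟨v, bx_ext (by omega) (by omega) (by omega)⟩

lemma up_ne_dn (hn : n = h + h) (v w : Bx n n h) : up hn v ≠ dn hn w := by
  intro e
  have := (c_up hn v).2.2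
  have := (c_dn hn w).2.2
  have := bnd v
  have := bnd w
  have := congrArg cZ e
  omega

lemma cases_half (hn : n = h + h) (u : Bx n n n) : (∃ v, up hn v = u) ∨ ∃ v, dn hn v = u := by
  by_cases hu : cZ u < h
  exacts [Or.inr (exists_dn hn hu), Or.inl (exists_up hn hu)]

/-- union of a subset of the lower half and a subset of the upper half -/
def two (hn : n = h + h) (A B : Finset (Bx n n h)) : Finset (Bx n n n) :=
  B.map (dn hn) ∪ A.map (up hn)

lemma up_mem_two (hn : n = h + h) {A B : Finset (Bx n n h)} {v : Bx n n h} :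
    up hn v ∈ two hn A B ↔ v ∈ A := by
  simp [two, (up_ne_dn hn v _).symm]

lemma dn_mem_two (hn : n = h + h) {A B : Finset (Bx n n h)} {v : Bx n n h} :
    dn hn v ∈ two hn A B ↔ v ∈ B := by
  simp [two, up_ne_dn hn _ v]

lemma card_two (hn : n = h + h) (A B : Finset (Bx n n h)) : (two hn A B).card = A.card + B.card := by
  rw [two, card_union_of_disjoint, card_map, card_map, add_comm]
  rw [disjoint_left]
  intro u h1 h2
  obtain ⟨v, _, rfl⟩ := mem_map.1 h1
  obtain ⟨w, _, e⟩ := mem_map.1 h2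
  exact up_ne_dn hn _ _ e

/-- the weights without the edges between the two halves -/
noncomputable def c0 (n h : ℕ) (x y : Bx n n n) : ℝ :=
  if (cZ x < h ↔ cZ y < h) then pk x y else 0

lemma c0_nonneg (x y : Bx n n n) : 0 ≤ c0 n h x y := by
  unfold c0; split_ifs; exacts [pk_nonneg _ _, le_rfl]

lemma c0_symm (x y : Bx n n n) : c0 n h x y = c0 n h y x := by
  unfold c0; rw [pk_symm]; simp only [iff_comm (a := cZ x < h)]

lemma c0_up (hn : n = h + h) {x y : Bx n n h} (hxy : y ≠ x) :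
    c0 n h (up hn x) (up hn y) = pk x y := by
  have e1 := c_up hn x
  have e2 := c_up hn y
  have b1 := bnd x
  have b2 := bnd y
  rw [c0, if_pos (by omega), pk_of_ne ((up hn).injective.ne hxy.symm), pk_of_ne hxy.symm]
  exact if_congr (by unfold Nbr; omega) rfl rfl

lemma c0_dn (hn : n = h + h) {x y : Bx n n h} (hxy : y ≠ x) :
    c0 n h (dn hn x) (dn hn y) = pk x y := by
  have e1 := c_dn hn x
  have e2 := c_dn hn y
  have b1 := bnd x
  have b2 := bnd y
  rw [c0, if_pos (by omega), pk_of_ne ((dn hn).injective.ne hxy.symm), pk_of_ne hxy.symm]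
  exact if_congr (by unfold Nbr; omega) rfl rfl

lemma c0_up_dn (hn : n = h + h) (x y : Bx n n h) : c0 n h (up hn x) (dn hn y) = 0 := by
  have e1 := c_up hn x
  have e2 := c_dn hn y
  have b1 := bnd x
  have b2 := bnd y
  rw [c0, if_neg (by omega)]

lemma Z_two (hn : n = h + h) {c : Bx n n n → Bx n n n → ℝ} {c1 c2 : Bx n n h → Bx n n h → ℝ}
    (hc : ∀ v w, 0 ≤ c v w) (hc1 : ∀ v w, 0 ≤ c1 v w) (hc2 : ∀ v w, 0 ≤ c2 v w)
    (h1 : ∀ x y, y ≠ x → c (up hn x) (up hn y) = c1 x y)
    (h2 : ∀ x y, y ≠ x → c (dn hn x) (dn hn y) = c2 x y)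
    (h3 : ∀ x y, c (up hn x) (dn hn y) = 0) (h4 : ∀ x y, c (dn hn x) (up hn y) = 0)
    (E1 E2 : Finset (Bx n n h)) : Z c (two hn E1 E2) = Z c1 E1 * Z c2 E2 := by
  have a1 := Z_transport hc hc1 (up hn) (E2.map (dn hn))
    (fun w hw => by obtain ⟨v, _, e⟩ := mem_map.1 hw; exact up_ne_dn hn _ _ e.symm) E1
    (fun x _ => h1 x) (fun x _ u hu => by
      rcases cases_half hn u with ⟨v, rfl⟩ | ⟨v, rfl⟩
      exacts [absurd rfl (hu v), h3 _ _])
  have a2 := Z_transport hc hc2 (dn hn) ∅ (by simp) E2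
    (fun x _ => h2 x) (fun x _ u hu => by
      rcases cases_half hn u with ⟨v, rfl⟩ | ⟨v, rfl⟩
      exacts [h4 _ _, absurd rfl (hu v)])
  rw [empty_union, Z_empty, one_mul] at a2
  rw [two, a1, a2, mul_comm]

lemma pk_split (hn : n = h + h) (x y : Bx n n n) : pk x y = c0 n h x y +
    ∑ v ∈ univ.filter (fun v => cZ v = 0), edge (up hn v) (dn hn v) (1 / 6) x y := by
  have key : ∀ x y : Bx n n h, pk (up hn x) (dn hn y) =
      ∑ v ∈ univ.filter (fun v => cZ v = 0), edge (up hn v) (dn hn v) (1 / 6) (up hn x) (dn hn y) := by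
    intro x y
    have e1 := c_up hn x
    have e2 := c_dn hn y
    have b1 := bnd x
    have b2 := bnd y
    simp only [edge, EmbeddingLike.apply_eq_iff_eq, up_ne_dn, false_and, or_false]
    rw [pk_of_ne (up_ne_dn hn _ _)]
    split_ifs with h1
    · have : y = x := by unfold Nbr at h1; exact bx_ext (by omega) (by omega) (by omega)
      subst this
      simp only [and_self, sum_ite_eq, mem_filter, mem_univ, true_and]
      rw [if_pos (by unfold Nbr at h1; omega)]
    · symm
      refine sum_eq_zero fun v hv => if_neg ?_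
      rintro ⟨rfl, rfl⟩
      have := (mem_filter.1 hv).2
      exact h1 (by unfold Nbr; omega)
  rcases cases_half hn x with ⟨x, rfl⟩ | ⟨x, rfl⟩ <;> rcases cases_half hn y with ⟨y, rfl⟩ | ⟨y, rfl⟩
  · have e1 := c_up hn x
    have e2 := c_up hn y
    have b1 := bnd x
    have b2 := bnd y
    rw [c0, if_pos (by omega)]
    simp [edge, up_ne_dn]
  · rw [c0_up_dn, zero_add, key]
  · rw [c0_symm, c0_up_dn, zero_add, pk_symm, key]
    exact sum_congr rfl fun v _ => edge_symm _ _ _ _ _
  · have e1 := c_dn hn x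
    have e2 := c_dn hn y
    have b1 := bnd x
    have b2 := bnd y
    rw [c0, if_pos (by omega)]
    simp [edge, (up_ne_dn hn _ _).symm]

lemma glue_pair (hn : n = h + h) {r a : Bx n n h} (hr : cX r = 1 ∧ cY r = 0 ∧ cZ r = 0)
    (ha : cX a = 0 ∧ cY a = 0 ∧ cZ a = 0) {A B : Finset (Bx n n h)}
    (hA : a ∉ A ∧ ∀ v, cZ v = 0 → v ≠ a → v ∈ A) (hB : a ∉ B ∧ ∀ v, cZ v = 0 → v ≠ a → v ∈ B) :
    Z (cl pk A) ((univ.erase r).erase a) * Z (cl pk B) ((univ.erase r).erase a) *
      Z pk (univ.erase (up hn r)) ≤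
    108 * Z (cl pk (two hn A B)) ((univ.erase (up hn r)).erase (up hn a)) *
      Z pk (univ.erase r) ^ 2 := by
  have ra : r ≠ a := by rintro rfl; omega
  have nar : Nbr a r := by unfold Nbr; omega
  set E := (univ.erase r).erase a with hE
  set K := ((univ.filter fun v : Bx n n h => cZ v = 0).erase r).erase a with hK
  set e : Bx n n h → Bx n n n → Bx n n n → ℝ := fun v => edge (up hn v) (dn hn v) (1 / 6) with he
  have en : ∀ v x y, 0 ≤ e v x y := fun v x y => edge_nonneg _ _ (by norm_num) _ _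
  have split : ∀ x y, pk x y = c0 n h x y + ∑ v ∈ K, e v x y + e a x y + e r x y := by
    intro x y
    rw [pk_split hn, add_assoc, add_assoc, hK, ← add_assoc (∑ v ∈ _, _), sum_erase_add _ _
      (mem_erase.2 ⟨ra.symm, mem_filter.2 ⟨mem_univ _, ha.2.2⟩⟩), sum_erase_add _ _
      (show r ∈ univ.filter fun v : Bx n n h => cZ v = 0 from mem_filter.2 ⟨mem_univ _, hr.2.2⟩)]
  have mK : ∀ v ∈ K, v ≠ r ∧ v ∈ A ∧ v ∈ B := by
    intro v hv
    simp only [hK, mem_erase, mem_filter, mem_univ, true_and] at hv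
    exact ⟨hv.2.1, hA.2 v hv.2.2 hv.1, hB.2 v hv.2.2 hv.1⟩
  have rA := hA.2 r hr.2.2 ra
  have rB := hB.2 r hr.2.2 ra
  have cn := cl_nonneg (c := pk) pk_nonneg (two hn A B)
  have nbr : ∀ v : Bx n n h, cZ v = 0 → pk (dn hn v) (up hn v) = 1 / 6 := by
    intro v hv
    have := c_up hn v
    have := c_dn hn v
    exact pk_of_nbr (by unfold Nbr; omega)
  -- from four roots to two roots
  have s2 : 1 / 36 * Z (cl pk (two hn A B)) (two hn E E) ≤
      Z (cl pk (two hn A B)) ((univ.erase (up hn r)).erase (up hn a)) := by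
    have t1 := Z_insert_ge cn (D := two hn E E) (x := dn hn r) (y := up hn r)
      (by simp [dn_mem_two, hE]) (by simp [up_mem_two, hE]) (up_ne_dn hn _ _)
    have t2 := Z_insert_ge cn (D := insert (dn hn r) (two hn E E)) (x := dn hn a) (y := up hn a)
      (by simp [dn_mem_two, hE, ra.symm]) (by simp [up_mem_two, hE, up_ne_dn]) (up_ne_dn hn _ _)
    rw [cl, if_pos (by simp [dn_mem_two, up_mem_two, rA, rB]), nbr r hr.2.2] at t1
    rw [cl, if_pos (by simp [dn_mem_two, up_mem_two, hA.1, hB.1]), nbr a ha.2.2] at t2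
    have e1 : insert (dn hn a) (insert (dn hn r) (two hn E E)) =
        (univ.erase (up hn r)).erase (up hn a) := by
      ext u
      rcases cases_half hn u with ⟨v, rfl⟩ | ⟨v, rfl⟩
      · simp [up_mem_two, hE, up_ne_dn]
      · simp only [mem_insert, dn_mem_two, hE, mem_erase, mem_univ, EmbeddingLike.apply_eq_iff_eq,
          ne_eq, (up_ne_dn hn _ _).symm]
        tauto
    rw [e1] at t2
    linarith
  have s3 : Z (fun x y => cl (c0 n h) (two hn A B) x y + ∑ v ∈ K, e v x y) (two hn E E) ≤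
      Z (cl pk (two hn A B)) (two hn E E) := by
    refine Z_mono_wt (fun x y => add_nonneg (cl_nonneg c0_nonneg _ _ _)
      (sum_nonneg fun v _ => en v x y)) fun x _ y => ?_
    unfold cl
    split_ifs with h1
    · rw [split]; linarith [en a x y, en r x y]
    · rw [zero_add]
      refine le_of_eq (sum_eq_zero fun v hv => if_neg ?_)
      obtain ⟨_, k1, k2⟩ := mK v hv
      rintro (⟨rfl, rfl⟩ | ⟨rfl, rfl⟩) <;> exact h1 (by simp [dn_mem_two, up_mem_two, k1, k2])
  have s5 : Z (c0 n h) (two hn (univ.erase r) (univ.erase r)) = Z pk (univ.erase r) ^ 2 := by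
    rw [sq]
    exact Z_two hn c0_nonneg pk_nonneg pk_nonneg (fun _ _ => c0_up hn) (fun _ _ => c0_dn hn)
      (c0_up_dn hn) (fun x y => by rw [c0_symm, c0_up_dn]) _ _
  have s5' : Z (cl (c0 n h) (two hn A B)) (two hn E E) = Z (cl pk A) E * Z (cl pk B) E :=
    Z_two hn (cl_nonneg c0_nonneg _) (cl_nonneg pk_nonneg _) (cl_nonneg pk_nonneg _)
      (fun x y hxy => by simp only [cl, up_mem_two, c0_up hn hxy])
      (fun x y hxy => by simp only [cl, dn_mem_two, c0_dn hn hxy])
      (fun x y => by simp [cl, c0_up_dn]) (fun x y => by simp [cl, c0_symm (dn hn x), c0_up_dn]) _ _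
  have z0 : 0 < Z (c0 n h) (two hn (univ.erase r) (univ.erase r)) := by
    rw [s5]; exact pow_pos (Z_erase_pos r) 2
  have s4 := ratio_mono (D' := two hn E E) (A := two hn A B) c0_nonneg c0_symm z0
    (cl_nonneg c0_nonneg (two hn A B)) (cl_symm c0_symm _)
    (fun x y => by unfold cl; split_ifs; exacts [le_rfl, c0_nonneg _ _])
    (fun x hx y hy => if_neg (by simp [hx, hy]))
    (fun x hx hx' => by
      rcases cases_half hn x with ⟨v, rfl⟩ | ⟨v, rfl⟩
      · rw [up_mem_two] at *
        exact mem_erase.2 ⟨by rintro rfl; exact hA.1 hx, hx'⟩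
      · rw [dn_mem_two] at *
        exact mem_erase.2 ⟨by rintro rfl; exact hB.1 hx, hx'⟩)
    (ω := 1 / 6) (by norm_num) (up hn) (dn hn) K (fun v hv => by
      obtain ⟨k0, k1, k2⟩ := mK v hv
      simp [up_ne_dn, up_mem_two, dn_mem_two, k0, k1, k2])
  rw [s5, s5'] at s4
  have s6 : Z pk (univ.erase (up hn r)) ≤
      3 * Z (fun x y => c0 n h x y + ∑ v ∈ K, e v x y) (two hn (univ.erase r) (univ.erase r)) := by
    have t1 := Z_insert_le (c := pk) (D := two hn (univ.erase r) (univ.erase r)) pk_nonneg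
      (x := dn hn r) (by simp [dn_mem_two])
    have e1 : insert (dn hn r) (two hn (univ.erase r) (univ.erase r)) = univ.erase (up hn r) := by
      ext u
      rcases cases_half hn u with ⟨v, rfl⟩ | ⟨v, rfl⟩
      · simp [up_mem_two, up_ne_dn]
      · simp only [mem_insert, dn_mem_two, mem_erase, mem_univ, EmbeddingLike.apply_eq_iff_eq,
          ne_eq, (up_ne_dn hn _ _).symm]
        tauto
    rw [e1, pk_stoch, one_mul] at t1
    have n1 : ∀ x y, 0 ≤ c0 n h x y + ∑ v ∈ K, e v x y := fun x y =>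
      add_nonneg (c0_nonneg _ _) (sum_nonneg fun v _ => en v x y)
    have z1 : 0 < Z (fun x y => c0 n h x y + ∑ v ∈ K, e v x y)
        (two hn (univ.erase r) (univ.erase r)) :=
      z0.trans_le (Z_mono_wt c0_nonneg fun x _ y =>
        le_add_of_nonneg_right (sum_nonneg fun v _ => en v x y))
    have m1 : up hn a ∈ two hn (univ.erase r) (univ.erase r) := by simp [up_mem_two, ra.symm]
    have m2 : dn hn a ∈ two hn (univ.erase r) (univ.erase r) := by simp [dn_mem_two, ra.symm]
    have t2 := Z_add_edge z1 m1 m2 (up_ne_dn hn _ _) (1 / 6)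
    have t3 : Z pk (two hn (univ.erase r) (univ.erase r)) =
        Z (fun x y => (c0 n h x y + ∑ v ∈ K, e v x y) + edge (up hn a) (dn hn a) (1 / 6) x y)
          (two hn (univ.erase r) (univ.erase r)) := by
      refine S_congr_wt (fun x hx y => ?_) _
      rw [split]
      have : e r x y = 0 := if_neg (by
        rintro (⟨rfl, _⟩ | ⟨rfl, _⟩)
        · simp [up_mem_two] at hx
        · simp [dn_mem_two] at hx)
      rw [this, add_zero]
    have g1 := green_self_le n1 z1 m1 (r := up hn r) (by simp [up_mem_two])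
    have g2 := green_self_le n1 z1 m2 (r := dn hn r) (by simp [dn_mem_two])
    rw [c0_up hn ra, pk_of_nbr nar] at g1
    rw [c0_dn hn ra, pk_of_nbr nar] at g2
    have gn := fun u v => green_nonneg (D := two hn (univ.erase r) (univ.erase r)) n1 u v
    have g3 := mul_nonneg (sum_nonneg fun v (_ : v ∈ K) => en v (up hn a) (up hn r))
      (gn (up hn a) (up hn a))
    have g4 := mul_nonneg (sum_nonneg fun v (_ : v ∈ K) => en v (dn hn a) (dn hn r))
      (gn (dn hn a) (dn hn a))
    have g5 : 1 + 1 / 6 * res (fun x y => c0 n h x y + ∑ v ∈ K, e v x y)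
        (two hn (univ.erase r) (univ.erase r)) (up hn a) (dn hn a) ≤ 3 := by
      unfold res
      linarith [gn (up hn a) (dn hn a), gn (dn hn a) (up hn a)]
    rw [t3, t2] at t1
    nlinarith
  have p1 := mul_nonneg (Z_nonneg (cl_nonneg pk_nonneg A) E) (Z_nonneg (cl_nonneg pk_nonneg B) E)
  have p2 := sq_nonneg (Z pk (univ.erase r))
  have u1 := mul_le_mul_of_nonneg_left s6 p1
  have u2 := mul_le_mul_of_nonneg_right s3 p2
  have u3 := mul_le_mul_of_nonneg_right s2 p2
  simp only [he] at u1 u2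
  linarith

end Pool.Agent.MP_3251d9_pr.H70
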