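import Pool.Agent.MP_3251d9_pr.H70.Deep

/-! Escape probabilities next to a solid piece of the bottom face. -/

set_option autoImplicit false

namespace Pool.Agent.MP_3251d9_pr.H70

open Finset Function

variable {n1 n2 n3 : ℕ}

/-- the part of the bottom face within distance `s` of the corner, without the corner -/
def solid (n1 n2 n3 : ℕ) (s : ℤ) : Finset (Bx n1 n2 n3) :=
  univ.filter fun v => cZ v = 0 ∧ cX v ≤ s ∧ cY v ≤ s ∧ ¬ (cX v = 0 ∧ cY v = 0)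

lemma mem_solid {s : ℤ} {v : Bx n1 n2 n3} : v ∈ solid n1 n2 n3 s ↔
    cZ v = 0 ∧ cX v ≤ s ∧ cY v ≤ s ∧ ¬ (cX v = 0 ∧ cY v = 0) := by simp [solid]

lemma slab_bd {ρ a b z : ℤ} (h0 : 0 ≤ z) (h1 : z ≤ 16 * ρ)
    (h : a = 16 * ρ ∨ a = -(16 * ρ) ∨ b = 16 * ρ ∨ b = -(16 * ρ) ∨ z = 16 * ρ) :
    256 * ρ ^ 2 - 48 * ρ * z - (a ^ 2 + b ^ 2 - 2 * z ^ 2) ≤ 0 := by
  have z0 : 0 ≤ z * (24 * ρ - z) := mul_nonneg (by omega) (by omega)
  have x0 := sq_nonneg a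
  have y0 := sq_nonneg b
  rcases h with h | h | h | h | h <;> subst h <;> linarith

lemma slab_in {ρ a b z : ℤ} (h0 : 0 ≤ ρ) (ha : -ρ ≤ a ∧ a ≤ ρ) (hb : -ρ ≤ b ∧ b ≤ ρ)
    (hz : z ≤ 2 * ρ) : 128 * ρ ^ 2 ≤ 256 * ρ ^ 2 - 48 * ρ * z - (a ^ 2 + b ^ 2 - 2 * z ^ 2) := by
  nlinarith [ha.1, ha.2, hb.1, hb.2, sq_nonneg z]

lemma slab {Ω Γ : Finset (Bx n1 n2 n3)} (hZ : 0 < Z pk Ω) {c0 c1 : Bx n1 n2 n3} {ρ s : ℤ}
    (hρ : 2 ≤ ρ) (hs1 : s ≤ n1 - 1) (hs2 : s ≤ n2 - 1) (h3 : 16 * ρ ≤ n3 - 1)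
    (hc : c1 ∈ cube c0 (32 * ρ)) (hx : 16 * ρ ≤ cX c1 ∧ cX c1 + 16 * ρ ≤ s)
    (hy : 16 * ρ ≤ cY c1 ∧ cY c1 + 16 * ρ ≤ s) (hxy : 16 * ρ < cX c1 ∨ 16 * ρ < cY c1)
    (hz : cZ c1 = ρ) (hΩ : cube c0 (368 * ρ) ⊆ Ω) (hΓ : solid n1 n2 n3 s ⊆ Γ) {M : ℝ}
    (hM0 : 0 ≤ M) (hM : ∀ v ∈ cube c0 (368 * ρ), surv pk Ω Γ v ≤ M) :
    ∀ v ∈ cube c1 ρ, M / 2 ≤ M - surv pk Ω Γ v := by
  set D1 : Finset (Bx n1 n2 n3) := univ.filter fun v =>
    (cX c1 - 16 * ρ < cX v ∧ cX v < cX c1 + 16 * ρ) ∧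
    (cY c1 - 16 * ρ < cY v ∧ cY v < cY c1 + 16 * ρ) ∧ (1 ≤ cZ v ∧ cZ v < 16 * ρ) with hD1
  have mD : ∀ v, v ∈ D1 ↔ (cX c1 - 16 * ρ < cX v ∧ cX v < cX c1 + 16 * ρ) ∧
    (cY c1 - 16 * ρ < cY v ∧ cY v < cY c1 + 16 * ρ) ∧ (1 ≤ cZ v ∧ cZ v < 16 * ρ) := by
    intro v; simp [hD1]
  rw [mem_cube] at hc
  have sub : D1 ⊆ Ω := fun v hv => hΩ (by rw [mD] at hv; rw [mem_cube]; omega)
  set b : ℤ → ℤ → ℤ → ℤ := fun x y z =>
    256 * ρ ^ 2 - 48 * ρ * z - ((x - cX c1) ^ 2 + (y - cY c1) ^ 2 - 2 * z ^ 2) with hb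
  have r0 : (0 : ℝ) < 256 * ρ ^ 2 := by
    have : (0 : ℝ) < ρ := by exact_mod_cast (show 0 < ρ by omega)
    positivity
  have key := compare_nbr pk_nonneg (Z_pos_of_subset pk_nonneg hZ sub)
    (f := fun v => M / (256 * ρ ^ 2) * (b (cX v) (cY v) (cZ v) : ℝ))
    (g := fun v => M - surv pk Ω Γ v) (fun x hx => by
      rw [lap_mul, lap_sub, lap_const]
      have l1 := lap_surv_nonpos (Γ := Γ) pk_nonneg (sub hx)
      rw [mD] at hx
      have l2 := lap_le x (fun x y z => (b x y z : ℝ)) (fun h => by omega) (fun h => by omega)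
        (fun h => by omega) (fun h => by omega) (fun h => by omega) (fun h => by omega)
      have l3 : (b (cX x) (cY x) (cZ x) : ℝ) -
          six (fun x y z => (b x y z : ℝ)) (cX x) (cY x) (cZ x) / 6 = 0 := by
        simp only [six, hb]; push_cast; ring
      rw [l3] at l2
      have := mul_nonpos_of_nonneg_of_nonpos (div_nonneg hM0 r0.le) l2
      linarith) (fun x hx y hy hxy' => by
      have nr := near_of_pk_pos hxy'
      rw [mD] at hx hy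
      have by0 := bnd y
      by_cases h0 : cZ y = 0
      · rw [surv_of_mem (hΓ (by rw [mem_solid]; omega)), sub_zero, div_mul_eq_mul_div,
          div_le_iff₀ r0]
        refine mul_le_mul_of_nonneg_left ?_ hM0
        have : b (cX y) (cY y) (cZ y) ≤ 256 * ρ ^ 2 := by
          simp only [hb, h0]
          linarith only [sq_nonneg (cX y - cX c1), sq_nonneg (cY y - cY c1)]
        exact_mod_cast this
      · have g0 := hM y (by rw [mem_cube]; omega)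
        have : b (cX y) (cY y) (cZ y) ≤ 0 := slab_bd (by omega) (by omega) (by omega)
        have : (b (cX y) (cY y) (cZ y) : ℝ) ≤ 0 := by exact_mod_cast this
        have := mul_nonpos_of_nonneg_of_nonpos (div_nonneg hM0 r0.le) this
        linarith)
  intro v hv
  rw [mem_cube] at hv
  by_cases h0 : cZ v = 0
  · rw [surv_of_mem (hΓ (by rw [mem_solid]; omega))]; linarith
  · have bv := bnd v
    refine le_trans ?_ (key v (by rw [mD]; omega))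
    have : 128 * ρ ^ 2 ≤ b (cX v) (cY v) (cZ v) :=
      slab_in (by omega) (by omega) (by omega) (by omega)
    have : (128 * ρ ^ 2 : ℝ) ≤ b (cX v) (cY v) (cZ v) := by exact_mod_cast this
    refine le_trans (le_of_eq ?_) (mul_le_mul_of_nonneg_left this (div_nonneg hM0 r0.le))
    field_simp
    ring

lemma danger_one {Ω Γ : Finset (Bx n1 n2 n3)} (hZ : 0 < Z pk Ω) (κ : Walls n1 n2 n3)
    (hκ : ∀ v ∈ Ω, κ.Adm v) {c0 : Bx n1 n2 n3} {ρ s : ℤ}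
    (hρ : 2 ≤ ρ) (hs : 96 * ρ ≤ s) (hs1 : s ≤ n1 - 1) (hs2 : s ≤ n2 - 1) (h3 : 16 * ρ ≤ n3 - 1)
    (hz : cZ c0 = 0) (hx : cX c0 ≤ s + 16 * ρ) (hy : cY c0 ≤ s + 16 * ρ)
    (hxy : s < cX c0 ∨ s < cY c0) (hΩ : cube c0 (368 * ρ) ⊆ Ω) (hΓ : solid n1 n2 n3 s ⊆ Γ) {M : ℝ}
    (hM0 : 0 ≤ M) (hM : ∀ v ∈ cube c0 (368 * ρ), surv pk Ω Γ v ≤ M) :
    ∀ v ∈ cube c0 (16 * ρ), surv pk Ω Γ v ≤ (1 - 1 / 221184) * M := by
  have b0 := bnd c0
  obtain ⟨c1, e1, e2, e3⟩ := exists_pt (n1 := n1) (n2 := n2) (n3 := n3)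
    (x := if 48 * ρ ≤ cX c0 then cX c0 - 32 * ρ else cX c0 + 32 * ρ)
    (y := if 48 * ρ ≤ cY c0 then cY c0 - 32 * ρ else cY c0 + 32 * ρ) (z := ρ)
    (by split_ifs <;> omega) (by split_ifs <;> omega) (by omega)
  have hc : c1 ∈ cube c0 (32 * ρ) := by rw [mem_cube]; split_ifs at e1 e2 <;> omega
  have hsl := slab hZ hρ hs1 hs2 h3 hc (by split_ifs at e1 <;> omega)
    (by split_ifs at e2 <;> omega) (by split_ifs at e1 e2 <;> omega) e3 hΩ hΓ hM0 hM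
  clear e1 e2
  have r2 : (2 : ℝ) ≤ ρ := by exact_mod_cast hρ
  have sub : cube c1 (333 * ρ) \ cube c1 ρ ⊆ Ω :=
    sdiff_subset.trans ((cube_subset hc (by omega)).trans hΩ)
  have k0 : 0 ≤ M * ρ ^ 2 / 16 := by positivity
  have key := compare_nbr pk_nonneg (Z_pos_of_subset pk_nonneg hZ sub)
    (f := fun v => M * ρ ^ 2 / 16 * (img inv1 κ c1 v - 8 * (1 / (333 * ρ) ^ 2)))
    (g := fun v => M - surv pk Ω Γ v) (fun x hx => by
      rw [lap_mul, lap_sub, lap_sub, lap_const, lap_const]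
      have l1 := lap_surv_nonpos (Γ := Γ) pk_nonneg (sub hx)
      have l2 := lap_img_inv1 κ c1 (hκ x (sub hx)) (by
        have := le_sqd_of_not_mem (by omega) (mem_sdiff.1 hx).2
        nlinarith)
      have := mul_nonpos_of_nonneg_of_nonpos k0 l2
      linarith) (fun x hx y hy hxy' => by
      have nr := near_of_pk_pos hxy'
      obtain ⟨hx1, hx2⟩ := mem_sdiff.1 hx
      by_cases h1 : y ∈ cube c1 ρ
      · refine le_trans ?_ (hsl y h1)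
        have q1 := le_sqd_of_not_mem (c := c1) (v := y) (ρ := ρ - 1) (by omega) (by
          rw [mem_cube] at hx2 ⊢; omega)
        rw [sub_add_cancel] at q1
        have q2 := img_le κ c1 y (φ := inv1) (a := inv1 (ρ ^ 2)) fun s hs =>
          inv1_anti (by positivity) (q1.trans hs)
        have q3 : M * ρ ^ 2 / 16 * (8 * inv1 (ρ ^ 2)) = M / 2 := by
          unfold inv1; push_cast; field_simp; ring
        rw [← q3]
        refine mul_le_mul_of_nonneg_left ?_ k0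
        have : (0 : ℝ) ≤ 8 * (1 / (333 * ρ) ^ 2) := by positivity
        linarith
      · have h2 : y ∉ cube c1 (333 * ρ) := fun h => hy (mem_sdiff.2 ⟨h, h1⟩)
        have q1 := le_sqd_of_not_mem (by omega) h2
        have q2 := img_le κ c1 y (φ := inv1) (a := inv1 ((333 * ρ) ^ 2)) fun s hs =>
          inv1_anti (by positivity) (le_trans (by nlinarith) (q1.trans hs))
        have q3 : inv1 ((333 * ρ) ^ 2) = 1 / (333 * ρ) ^ 2 := by unfold inv1; push_cast; rfl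
        rw [q3] at q2
        have q4 := hM y (by rw [mem_cube] at hx1 hc ⊢; omega)
        have := mul_nonpos_of_nonneg_of_nonpos k0 (sub_nonpos.2 q2)
        linarith)
  intro v hv
  by_cases h1 : v ∈ cube c1 ρ
  · linarith [hsl v h1]
  have h2 : v ∈ cube c1 (48 * ρ) := by rw [mem_cube] at hv hc ⊢; omega
  have q0 := key v (mem_sdiff.2 ⟨cube_mono c1 (by omega) h2, h1⟩)
  have q1 := le_img κ c1 v (φ := inv1) fun s hs => inv1_nonneg hs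
  have q2 := inv1_anti (lt_of_lt_of_le (by positivity) (le_sqd_of_not_mem (by omega) h1))
    (sqd_le_of_mem h2)
  have q3 : M * ρ ^ 2 / 16 * (inv1 (3 * (48 * ρ) ^ 2) - 8 * (1 / (333 * ρ) ^ 2)) =
      M * ((1 / 6912 - 8 / 110889) / 16) := by
    unfold inv1; push_cast; field_simp; ring
  have q4 := mul_le_mul_of_nonneg_left (sub_le_sub_right (q2.trans q1) (8 * (1 / (333 * ρ) ^ 2))) k0
  rw [q3] at q4
  have q5 : M * (1 / 221184) ≤ M * ((1 / 6912 - 8 / 110889) / 16) :=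
    mul_le_mul_of_nonneg_left (by norm_num) hM0
  linarith

lemma danger {Ω Γ : Finset (Bx n1 n2 n3)} (hZ : 0 < Z pk Ω) (κ : Walls n1 n2 n3)
    (hκ : ∀ v ∈ Ω, κ.Adm v) {c0 : Bx n1 n2 n3} {s : ℤ} (hs1 : s ≤ n1 - 1) (hs2 : s ≤ n2 - 1)
    (hz : cZ c0 = 0) (hxy : s < cX c0 ∨ s < cY c0) (hΓ : solid n1 n2 n3 s ⊆ Γ) (J : ℕ) :
    ∀ ρ : ℤ, 2 ≤ ρ → 96 * (23 ^ J * ρ) ≤ s → 16 * (23 ^ J * ρ) ≤ n3 - 1 →
      cX c0 ≤ s + 16 * ρ → cY c0 ≤ s + 16 * ρ → cube c0 (16 * (23 ^ J * ρ)) ⊆ Ω →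
      ∀ v ∈ cube c0 (16 * ρ), surv pk Ω Γ v ≤ (1 - 1 / 221184) ^ J := by
  induction J with
  | zero => intro ρ _ _ _ _ _ _ v _; simpa using surv_le_one pk_nonneg hZ v
  | succ J ih =>
    intro ρ hρ h1 h2 h3 h4 h5
    have e : (23 : ℤ) ^ (J + 1) * ρ = 23 ^ J * (23 * ρ) := by ring
    rw [e] at h1 h2 h5
    have p1 : (1 : ℤ) ≤ 23 ^ J := one_le_pow₀ (by norm_num)
    have p2 : 23 * ρ ≤ 23 ^ J * (23 * ρ) := le_mul_of_one_le_left (by omega) p1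
    have := ih (23 * ρ) (by omega) h1 h2 (by omega) (by omega) h5
    rw [pow_succ']
    exact danger_one hZ κ hκ hρ (by omega) hs1 hs2 (by omega) hz h3 h4 hxy
      ((cube_mono c0 (by omega)).trans h5) hΓ (by positivity)
      (fun v hv => this v (cube_mono c0 (by omega) hv))

theorem cell : ∃ C0 : ℤ, 1 ≤ C0 ∧ ∀ (n1 n2 n3 : ℕ) (c0 : Bx n1 n2 n3) (s t : ℤ)
    (Γ : Finset (Bx n1 n2 n3)), 1 ≤ t → 16 * (C0 * t) ≤ s → s ≤ n1 - 1 → s ≤ n2 - 1 →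
    s ≤ 2 * n3 - 1 → cZ c0 = 0 → cX c0 ≤ s + t → cY c0 ≤ s + t → (s < cX c0 ∨ s < cY c0) →
    solid n1 n2 n3 s ⊆ Γ → 0 < Z pk (cube c0 (C0 * t)) →
    1 / 2 ≤ q pk (cube c0 (C0 * t)) Γ (fc c0 t) := by
  obtain ⟨A, A0, hA⟩ := deep
  obtain ⟨J, hJ⟩ := exists_pow_lt_of_lt_one (show 0 < 1 / (2 * A) by positivity)
    (show (1 - 1 / 221184 : ℝ) < 1 by norm_num)
  have p1 : (1 : ℤ) ≤ 23 ^ J := one_le_pow₀ (by norm_num)
  refine ⟨144 * 23 ^ J, by omega, ?_⟩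
  intro n1 n2 n3 c0 s t Γ ht h1 hs1 hs2 hs3 hz hx hy hxy hΓ hZ
  have e : (144 * 23 ^ J : ℤ) * t = 16 * (23 ^ J * (9 * t)) := by ring
  rw [e] at h1 hZ ⊢
  have p2 : 9 * t ≤ 23 ^ J * (9 * t) := le_mul_of_one_le_left (by omega) p1
  obtain ⟨κ, hκ⟩ := exists_walls c0 (ρ := 16 * (23 ^ J * (9 * t))) (by omega) (by omega) (by omega)
  have hd := danger hZ κ hκ hs1 hs2 hz hxy hΓ J (9 * t) (by omega) (by omega) (by omega)
    (by omega) (by omega) Subset.rfl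
  obtain ⟨t, rfl⟩ := Int.eq_ofNat_of_zero_le (show 0 ≤ t by omega)
  have := hA n1 n2 n3 _ κ hZ hκ t c0 Γ _ hz (cube_mono c0 (by omega))
    (fun v hv => hd v (cube_mono c0 (by omega) hv))
  have h2 := mul_le_mul_of_nonneg_left hJ.le A0.le
  have h3 : A * (1 / (2 * A)) = 1 / 2 := by field_simp
  linarith

end Pool.Agent.MP_3251d9_pr.H70
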