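import Pool.Agent.MP_3251d9_pr.H70.Local

/-! The multiscale estimate: a piece of the bottom face fails to connect with probability at most
a constant times the escape probability. -/

set_option autoImplicit false

namespace Pool.Agent.MP_3251d9_pr.H70

open Finset Function

variable {n1 n2 n3 : ℕ}

/-- a square of the bottom face -/
def fc (c : Bx n1 n2 n3) (t : ℤ) : Finset (Bx n1 n2 n3) := (cube c t).filter fun v => cZ v = 0

lemma mem_fc {c v : Bx n1 n2 n3} {t : ℤ} : v ∈ fc c t ↔ v ∈ cube c t ∧ cZ v = 0 := mem_filter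

lemma close_of_ediv_eq {a b t : ℤ} (ht : 0 < t) (h : a / t = b / t) : a - b < t ∧ b - a < t := by
  have a1 := Int.emod_add_mul_ediv a t
  have a2 := Int.emod_add_mul_ediv b t
  have a3 := Int.emod_nonneg a ht.ne'
  have a4 := Int.emod_nonneg b ht.ne'
  have a5 := Int.emod_lt_of_pos a ht
  have a6 := Int.emod_lt_of_pos b ht
  rw [h] at a1
  constructor <;> linarith

theorem deep : ∃ A : ℝ, 0 < A ∧ ∀ (n1 n2 n3 : ℕ) (Ω : Finset (Bx n1 n2 n3)) (κ : Walls n1 n2 n3),
    0 < Z pk Ω → (∀ v ∈ Ω, κ.Adm v) → ∀ (t : ℕ) (c : Bx n1 n2 n3) (Γ : Finset (Bx n1 n2 n3))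
    (β : ℝ), cZ c = 0 → cube c (129 * t) ⊆ Ω → (∀ v ∈ cube c (129 * t), surv pk Ω Γ v ≤ β) →
    1 - q pk Ω Γ (fc c t) ≤ A * β := by
  obtain ⟨δ, hδ, hlps⟩ := lps_geo (ε := 1 / (2 * 516 ^ 2)) (by positivity)
  set A : ℝ := 1458 / δ + 257 ^ 3 with hA
  have A0 : 0 < A := by positivity
  refine ⟨A, A0, fun n1 n2 n3 Ω κ hZ hκ t => ?_⟩
  induction t using Nat.strong_induction_on with
  | _ t ih =>
  intro c Γ β hc hΩ hβ
  have β0 : 0 ≤ β := (surv_nonneg pk_nonneg c).trans (hβ c (by rw [mem_cube]; omega))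
  by_cases ht : t < 129
  · refine (fail_union pk_nonneg hZ (fc c t) (fc c t) (fun v => {v})
      (fun v hv => ⟨v, hv, mem_singleton_self v⟩)).trans ?_
    refine (sum_le_card_nsmul _ _ β fun v hv => ?_).trans ?_
    · rw [q_singleton pk_nonneg hZ]
      linarith [hβ v (cube_mono c (by omega) (mem_fc.1 hv).1)]
    · rw [nsmul_eq_mul]
      refine mul_le_mul_of_nonneg_right ?_ β0
      have d1 : ((fc c t).card : ℝ) ≤ (cube c t).card := by
        exact_mod_cast card_le_card (filter_subset _ _)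
      have d2 := card_cube_le c (ρ := t) (by omega)
      have d3 : ((t : ℤ) : ℝ) ≤ 128 := by exact_mod_cast (show (t : ℤ) ≤ 128 by omega)
      have d4 : (2 * ((t : ℤ) : ℝ) + 1) ^ 3 ≤ 257 ^ 3 := by gcongr; linarith
      have : 0 < 1458 / δ := by positivity
      linarith
  have t1 : (1 : ℝ) ≤ ((t : ℤ) : ℝ) := by exact_mod_cast (show (1 : ℤ) ≤ t by omega)
  set Bin := cube c (4 * t) with hBin
  set Bout := cube c (128 * t) with hBout
  have hBo : Bout ⊆ Ω := (cube_mono c (by omega)).trans hΩ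
  have hZo := Z_pos_of_subset pk_nonneg hZ hBo
  have key : ∀ Γ', Γ ⊆ Γ' → 1 - q pk Ω Γ' (fc c t) ≤
      β / (δ * ((t : ℤ) : ℝ) ^ 3) * ∑ y ∈ Bin, surv pk Bout Γ' y + A / 2 * β := by
    intro Γ' hΓ
    induction hn : (Ω \ Γ').card using Nat.strong_induction_on generalizing Γ' with
    | _ m ihm =>
    have hβ' : ∀ v ∈ cube c (129 * t), surv pk Ω Γ' v ≤ β := fun v hv =>
      (surv_anti pk_nonneg hZ hΓ v).trans (hβ v hv)
    have Φ0 : ∀ Γ'', 0 ≤ β / (δ * ((t : ℤ) : ℝ) ^ 3) * ∑ y ∈ Bin, surv pk Bout Γ'' y := fun Γ'' =>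
      mul_nonneg (by positivity) (sum_nonneg fun y _ => surv_nonneg pk_nonneg y)
    by_cases hε : ∃ v ∈ cube c (2 * t), 1 / (2 * 516 ^ 2) ≤ surv pk Bout Γ' v
    · obtain ⟨x, hx, hx'⟩ := hlps n1 n2 n3 Ω Γ' κ c t hZ hκ hc (by omega) hBo hε
      have hxΩ : x ∈ Ω \ Γ' :=
        sdiff_subset_sdiff ((cube_mono c (by omega)).trans hΩ) Subset.rfl hx
      have hZ' := Z_pos_of_subset pk_nonneg hZ (sdiff_subset (t := Γ'))
      refine (fail_step pk_nonneg hZ _ x).trans ?_
      have s1 := hβ' x (cube_mono c (by omega) (mem_sdiff.1 hx).1)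
      have s2 : Ex pk (Ω \ Γ') x (fun L e => if e ∈ Γ' then 1 - q pk Ω (Γ' ∪ L) (fc c t) else 0) ≤
          Ex pk (Ω \ Γ') x (fun L _ => (β / (δ * ((t : ℤ) : ℝ) ^ 3) * ∑ y ∈ Bin, surv pk Bout Γ' y
            + A / 2 * β) - β / (δ * ((t : ℤ) : ℝ) ^ 3) *
            ∑ y ∈ Bin, (surv pk Bout Γ' y - surv pk Bout (Γ' ∪ L) y)) := by
        refine Ex_mono pk_nonneg fun L e hL _ hxL => ?_
        rw [sum_sub_distrib, mul_sub]
        split_ifs
        · have := ihm _ (by
            rw [← hn]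
            refine card_lt_card ⟨sdiff_subset_sdiff Subset.rfl subset_union_left, fun h => ?_⟩
            have := h hxΩ
            simp [hxL hxΩ] at this) (Γ' ∪ L) (hΓ.trans subset_union_left) rfl
          linarith
        · have := Φ0 (Γ' ∪ L)
          have : 0 ≤ A / 2 * β := by positivity
          linarith
      rw [Ex_sub, Ex_const hZ', Ex_mul] at s2
      have s3 := mul_le_mul_of_nonneg_left hx' (show 0 ≤ β / (δ * ((t : ℤ) : ℝ) ^ 3) by positivity)
      rw [div_mul_cancel₀ _ (by positivity)] at s3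
      linarith
    · push Not at hε
      have hs : ∀ v ∈ cube c (2 * t), surv pk Ω Γ' v ≤ β * (1 / (2 * 516 ^ 2)) := by
        intro v hv
        refine (surv_le_mul pk_nonneg hZ hBo (β := β) (fun x hx y _ hxy => hβ' y ?_)
          (cube_mono c (by omega) hv)).trans (mul_le_mul_of_nonneg_left (hε v hv).le β0)
        have := near_of_pk_pos hxy
        rw [mem_cube] at hx ⊢
        omega
      set t' : ℕ := t / 129 with ht'
      have t'0 : (0 : ℤ) < t' := by omega
      refine le_trans ?_ (le_add_of_nonneg_left (Φ0 Γ'))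
      refine (fail_union pk_nonneg hZ (Ico (0 : ℤ) 516 ×ˢ Ico (0 : ℤ) 516) (fc c t)
        (fun i => (fc c t).filter fun v => ((cX v - cX c + t) / t', (cY v - cY c + t) / t') = i)
        (fun v hv => ⟨_, ?_, mem_filter.2 ⟨hv, rfl⟩⟩)).trans ?_
      · have := (mem_fc.1 hv).1
        rw [mem_cube] at this
        simp only [mem_product, mem_Ico]
        exact ⟨⟨Int.ediv_nonneg (by omega) t'0.le, Int.ediv_lt_of_lt_mul t'0 (by omega)⟩,
          ⟨Int.ediv_nonneg (by omega) t'0.le, Int.ediv_lt_of_lt_mul t'0 (by omega)⟩⟩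
      refine (sum_le_card_nsmul _ _ (A * (β * (1 / (2 * 516 ^ 2)))) fun i _ => ?_).trans
        (le_of_eq ?_)
      · rcases eq_empty_or_nonempty ((fc c t).filter fun v =>
          ((cX v - cX c + t) / t', (cY v - cY c + t) / t') = i) with h | ⟨c', hc'⟩
        · rw [h, q_of_subset pk_nonneg hZ (empty_subset _), sub_self]; positivity
        · obtain ⟨hc1, hc2⟩ := mem_filter.1 hc'
          obtain ⟨hc3, hc4⟩ := mem_fc.1 hc1
          have sub1 : cube c' (129 * t') ⊆ cube c (2 * t) := cube_subset hc3 (by omega)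
          refine le_trans ?_ (ih t' (by omega) c' Γ' _ hc4
            (sub1.trans ((cube_mono c (by omega)).trans hΩ)) fun v hv => hs v (sub1 hv))
          refine sub_le_sub_left (q_anti pk_nonneg fun v hv => ?_) _
          obtain ⟨hv1, hv2⟩ := mem_filter.1 hv
          rw [← hc2, Prod.mk.injEq] at hv2
          have e1 := close_of_ediv_eq t'0 hv2.1
          have e2 := close_of_ediv_eq t'0 hv2.2
          have e3 := (mem_fc.1 hv1).2
          rw [mem_fc, mem_cube]
          omega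
      · simp only [card_product, Int.card_Ico, nsmul_eq_mul]
        rw [show ((516 : ℤ) - 0).toNat = 516 from rfl]
        push_cast
        ring
  refine (key Γ Subset.rfl).trans ?_
  have c1 : ∑ y ∈ Bin, surv pk Bout Γ y ≤ 729 * ((t : ℤ) : ℝ) ^ 3 := by
    refine (sum_le_card_nsmul _ _ 1 fun y _ => surv_le_one pk_nonneg hZo y).trans ?_
    have d2 := card_cube_le c (ρ := 4 * t) (by omega)
    rw [Int.cast_mul] at d2
    have d3 : (2 * (((4 : ℤ) : ℝ) * ((t : ℤ) : ℝ)) + 1) ^ 3 ≤ (9 * ((t : ℤ) : ℝ)) ^ 3 := by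
      gcongr; push_cast at *; linarith
    rw [nsmul_eq_mul, mul_one]
    nlinarith
  have c2 := mul_le_mul_of_nonneg_left c1 (show 0 ≤ β / (δ * ((t : ℤ) : ℝ) ^ 3) by positivity)
  have c3 : β / (δ * ((t : ℤ) : ℝ) ^ 3) * (729 * ((t : ℤ) : ℝ) ^ 3) = 729 / δ * β := by
    field_simp
  have c4 : 729 / δ ≤ A / 2 := by
    rw [hA, add_div, show 1458 / δ / 2 = 729 / δ by ring]
    exact le_add_of_nonneg_right (by positivity)
  nlinarith [mul_le_mul_of_nonneg_right c4 β0]

end Pool.Agent.MP_3251d9_pr.H70
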