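import Pool.Agent.MP_3251d9_pr.H70.Harm

/-! Exploration of a random forest one branch at a time. -/

set_option autoImplicit false

namespace Pool.Agent.MP_3251d9_pr.H70

open Finset Function

variable {V : Type*} [Fintype V] [DecidableEq V] {c : V → V → ℝ} {D : Finset V}

/-- expectation of a function of the root map -/
noncomputable def Pr (c : V → V → ℝ) (D : Finset V) (Φ : (V → V) → ℝ) : ℝ :=
  S c D (fun F => Φ (root F)) / Z c D

/-- expectation of a function of the branch of `x` -/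
noncomputable def Ex (c : V → V → ℝ) (D : Finset V) (x : V) (Θ : Finset V → V → ℝ) : ℝ :=
  S c D (fun F => Θ (pathSet F x) (root F x)) / Z c D

lemma Ex_of_not_mem (hZ : 0 < Z c D) {x : V} (hx : x ∉ D) (Θ : Finset V → V → ℝ) :
    Ex c D x Θ = Θ ∅ x := by
  rw [Ex, S_congr (Ψ := fun _ => Θ ∅ x), S_const, mul_div_cancel_right₀ _ hZ.ne']
  intro F hF
  rw [hF.pathSet_of_not_mem hx, hF.root_of_not_mem hx]

lemma Ex_rec (hc : ∀ v w, 0 ≤ c v w) (hZ : 0 < Z c D) {x : V} (hx : x ∈ D)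
    (Θ : Finset V → V → ℝ) :
    Ex c D x Θ = green c D x x *
      ∑ y, c x y * Ex c (D.erase x) y (fun L e => if e = x then 0 else Θ (insert x L) e) := by
  have hZ' := Z_pos_of_subset hc hZ (erase_subset x D)
  rw [green_self hx, Ex]
  conv_lhs => rw [← insert_erase hx, S_insert (notMem_erase _ _), insert_erase hx]
  rw [sum_div, mul_sum]
  refine sum_congr rfl fun y _ => ?_
  rw [Ex, S_congr (Ψ := fun F => if root F y = x then 0 else Θ (insert x (pathSet F y)) (root F y))]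
  · field_simp
  · intro F hF
    split_ifs with h
    · rfl
    · rw [pathSet_update (notMem_erase _ _) hF h, root_update (notMem_erase _ _) hF h,
        hF.root_of_not_mem (notMem_erase _ _), if_pos rfl]

lemma Ex_mono (hc : ∀ v w, 0 ≤ c v w) {x : V} {Θ Θ' : Finset V → V → ℝ}
    (h : ∀ L e, L ⊆ D → e ∉ D → (x ∈ D → x ∈ L) → Θ L e ≤ Θ' L e) :
    Ex c D x Θ ≤ Ex c D x Θ' :=
  div_le_div_of_nonneg_right (S_mono hc fun _ hF =>
    h _ _ (hF.pathSet_subset x) (hF.root_not_mem x) hF.mem_pathSet) (Z_nonneg hc D)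

lemma Ex_add (x : V) (Θ Θ' : Finset V → V → ℝ) :
    Ex c D x (fun L e => Θ L e + Θ' L e) = Ex c D x Θ + Ex c D x Θ' := by
  simp only [Ex, S_add, add_div]

lemma Ex_sub (x : V) (Θ Θ' : Finset V → V → ℝ) :
    Ex c D x (fun L e => Θ L e - Θ' L e) = Ex c D x Θ - Ex c D x Θ' := by
  simp only [Ex, S_sub, sub_div]

lemma Ex_mul (x : V) (a : ℝ) (Θ : Finset V → V → ℝ) :
    Ex c D x (fun L e => a * Θ L e) = a * Ex c D x Θ := by
  simp only [Ex, S_mul, mul_div_assoc]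

lemma Ex_const (hZ : 0 < Z c D) (x : V) (a : ℝ) : Ex c D x (fun _ _ => a) = a := by
  simp only [Ex, S_const, mul_div_cancel_right₀ _ hZ.ne']

lemma Ex_nonneg (hc : ∀ v w, 0 ≤ c v w) {x : V} {Θ : Finset V → V → ℝ}
    (h : ∀ L e, 0 ≤ Θ L e) : 0 ≤ Ex c D x Θ :=
  div_nonneg (S_nonneg hc fun _ _ => h _ _) (Z_nonneg hc D)

lemma Pr_mono (hc : ∀ v w, 0 ≤ c v w) {Φ Φ' : (V → V) → ℝ}
    (h : ∀ ρ : V → V, (∀ v, v ∉ D → ρ v = v) → (∀ v, ρ v ∉ D) → Φ ρ ≤ Φ' ρ) :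
    Pr c D Φ ≤ Pr c D Φ' :=
  div_le_div_of_nonneg_right (S_mono hc fun _ hF =>
    h _ (fun _ hv => hF.root_of_not_mem hv) hF.root_not_mem) (Z_nonneg hc D)

lemma Pr_congr {Φ Φ' : (V → V) → ℝ}
    (h : ∀ ρ : V → V, (∀ v, v ∉ D → ρ v = v) → (∀ v, ρ v ∉ D) → Φ ρ = Φ' ρ) :
    Pr c D Φ = Pr c D Φ' := by
  unfold Pr
  rw [S_congr fun _ hF => h _ (fun _ hv => hF.root_of_not_mem hv) hF.root_not_mem]

lemma Pr_const (hZ : 0 < Z c D) (a : ℝ) : Pr c D (fun _ => a) = a := by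
  simp only [Pr, S_const, mul_div_cancel_right₀ _ hZ.ne']

lemma Pr_sub (Φ Φ' : (V → V) → ℝ) : Pr c D (fun ρ => Φ ρ - Φ' ρ) = Pr c D Φ - Pr c D Φ' := by
  simp only [Pr, S_sub, sub_div]

lemma Pr_sum {ι : Type*} (s : Finset ι) (Φ : ι → (V → V) → ℝ) :
    Pr c D (fun ρ => ∑ i ∈ s, Φ i ρ) = ∑ i ∈ s, Pr c D (Φ i) := by
  simp only [Pr]
  rw [S_sum s (fun i F => Φ i (root F)), sum_div]

/-- conditionally on the branch of `x`, the rest is a forest on the complement -/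
lemma cond_branch (hc : ∀ v w, 0 ≤ c v w) (hZ : 0 < Z c D) (x : V)
    (Ψ : Finset V → V → (V → V) → ℝ) :
    S c D (fun F => Ψ (pathSet F x) (root F x) (root F)) =
      S c D (fun F => Pr c (D \ pathSet F x) (fun ρ => Ψ (pathSet F x) (root F x)
        (fun v => if ρ v ∈ pathSet F x then root F x else ρ v))) := by
  induction hn : D.card using Nat.strong_induction_on generalizing D x Ψ with
  | _ n ih =>
  by_cases hx : x ∈ D
  · obtain ⟨D0, hx0, rfl⟩ : ∃ D0, x ∉ D0 ∧ D = insert x D0 :=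
      ⟨D.erase x, notMem_erase _ _, (insert_erase hx).symm⟩
    have hZ0 := Z_pos_of_subset hc hZ (subset_insert x D0)
    rw [S_insert hx0, S_insert hx0]
    refine sum_congr rfl fun y _ => ?_
    congr 1
    have := ih D0.card (by rw [← hn, card_insert_of_notMem hx0]; omega) hZ0 y
      (fun L e ρ => if e = x then 0 else Ψ (insert x L) e (fun v => if ρ v = x then e else ρ v)) rfl
    refine Eq.trans (S_congr fun F hF => ?_) (this.trans (S_congr fun F hF => ?_))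
    · split_ifs with h
      · rfl
      · rw [pathSet_update hx0 hF h, root_update hx0 hF h, hF.root_of_not_mem hx0, if_pos rfl]
        congr 1
        funext v; exact root_update hx0 hF h v
    · split_ifs with h
      · simp [Pr, S_zero]
      · rw [pathSet_update hx0 hF h, root_update hx0 hF h, hF.root_of_not_mem hx0, if_pos rfl]
        have e : insert x D0 \ insert x (pathSet F y) = D0 \ pathSet F y := by
          ext v
          simp only [mem_sdiff, mem_insert]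
          constructor
          · rintro ⟨h1 | h1, h2⟩
            · exact absurd (Or.inl h1) h2
            · exact ⟨h1, fun h3 => h2 (Or.inr h3)⟩
          · rintro ⟨h1, h2⟩
            refine ⟨Or.inr h1, ?_⟩
            rintro (rfl | h3)
            · exact hx0 h1
            · exact h2 h3
        rw [e]
        congr 1
        funext ρ
        congr 1
        funext v
        by_cases h1 : ρ v ∈ pathSet F y
        · simp [h1, h]
        · by_cases h2 : ρ v = x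
          · have h3 : x ∉ pathSet F y := h2 ▸ h1
            simp [h2, h3]
          · simp [h1, h2]
  · rw [S_congr (Ψ := fun F => Ψ ∅ x (root F)), S_congr (Φ := fun F => Pr _ _ _)
      (Ψ := fun F => Pr c D (fun ρ => Ψ ∅ x ρ)), S_const, Pr, div_mul_cancel₀ _ hZ.ne']
    · intro F hF
      simp [hF.pathSet_of_not_mem hx, hF.root_of_not_mem hx]
    · intro F hF
      rw [hF.pathSet_of_not_mem hx, hF.root_of_not_mem hx]

/-- monotonicity of the branch law in the domain -/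
lemma Ex_dom_mono (hc : ∀ v w, 0 ≤ c v w) (hZ : 0 < Z c D) {D' : Finset V} (h : D' ⊆ D) (x : V)
    {Θ : Finset V → V → ℝ} (hΘ : ∀ L e, 0 ≤ Θ L e) :
    Ex c D' x (fun L e => if e ∈ D then 0 else Θ L e) ≤ Ex c D x Θ := by
  induction hn : D'.card using Nat.strong_induction_on generalizing D D' x Θ with
  | _ n ih =>
  have hZ' := Z_pos_of_subset hc hZ h
  by_cases hx : x ∈ D'
  · rw [Ex_rec hc hZ' hx, Ex_rec hc hZ (h hx)]
    refine mul_le_mul (green_mono hc hZ h _ _) (sum_le_sum fun y _ =>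
      mul_le_mul_of_nonneg_left ?_ (hc _ _)) (sum_nonneg fun y _ => mul_nonneg (hc _ _)
        (Ex_nonneg hc fun L e => by split_ifs <;> simp [hΘ])) (green_nonneg hc _ _)
    refine le_trans (le_of_eq ?_) (ih (D'.erase x).card (by rw [← hn]; exact card_erase_lt_of_mem hx)
      (Z_pos_of_subset hc hZ (erase_subset x D)) (erase_subset_erase x h) y
      (fun L e => by split_ifs <;> simp [hΘ]) rfl)
    congr 1
    funext L e
    by_cases h1 : e = x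
    · simp [h1]
    · simp [h1]
  · rw [Ex_of_not_mem hZ' hx]
    split_ifs with h1
    · exact Ex_nonneg hc hΘ
    · rw [Ex_of_not_mem hZ h1]

/-- the set of vertices rooted in `Γ` -/
def lab (Γ : Finset V) (ρ : V → V) : Finset V := univ.filter fun v => ρ v ∈ Γ

omit [DecidableEq V] in
lemma mem_lab [DecidableEq V] {Γ : Finset V} {ρ : V → V} {v : V} : v ∈ lab Γ ρ ↔ ρ v ∈ Γ := by
  simp [lab]

/-- expectation of a function of the set of vertices rooted in `Γ` -/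
noncomputable def Psi (c : V → V → ℝ) (Ω Γ : Finset V) (Φ : Finset V → ℝ) : ℝ :=
  Pr c (Ω \ Γ) fun ρ => Φ (lab Γ ρ)

/-- probability that all of `P` is joined to `Γ` inside `Ω` -/
noncomputable def q (c : V → V → ℝ) (Ω Γ P : Finset V) : ℝ := Psi c Ω Γ fun A => ind (P ⊆ A)

/-- probability of leaving `Ω` before meeting `Γ` -/
noncomputable def surv (c : V → V → ℝ) (Ω Γ : Finset V) (v : V) : ℝ :=
  Pr c (Ω \ Γ) fun ρ => ind (ρ v ∉ Γ)

variable {Ω Γ : Finset V}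

lemma Psi_nonneg (hc : ∀ v w, 0 ≤ c v w) {Φ : Finset V → ℝ} (hΦ : ∀ A, 0 ≤ Φ A) :
    0 ≤ Psi c Ω Γ Φ :=
  div_nonneg (S_nonneg hc fun _ _ => hΦ _) (Z_nonneg hc _)

lemma K1eq (hc : ∀ v w, 0 ≤ c v w) (hZ : 0 < Z c Ω) (x : V) (Φ : Finset V → ℝ) :
    Pr c (Ω \ Γ) (fun ρ => if ρ x ∈ Γ then Φ (lab Γ ρ) else 0) =
      Ex c (Ω \ Γ) x (fun L e => if e ∈ Γ then Psi c Ω (Γ ∪ L) Φ else 0) := by
  have hZ' := Z_pos_of_subset hc hZ (sdiff_subset (t := Γ))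
  rw [Pr, Ex, cond_branch hc hZ' x (fun _ e ρ => if e ∈ Γ then Φ (lab Γ ρ) else 0)]
  congr 1
  refine S_congr fun F hF => ?_
  split_ifs with h
  · rw [Psi, sdiff_sdiff_left]
    congr 1
    funext ρ
    congr 1
    ext v
    simp only [mem_lab, mem_union]
    split_ifs with h1
    · simp [h, h1]
    · simp [h1]
  · simp [Pr, S_zero]

lemma K1 (hc : ∀ v w, 0 ≤ c v w) (hZ : 0 < Z c Ω) (x : V) {Φ : Finset V → ℝ}
    (hΦ : ∀ A, 0 ≤ Φ A) :
    Ex c (Ω \ Γ) x (fun L e => if e ∈ Γ then Psi c Ω (Γ ∪ L) Φ else 0) ≤ Psi c Ω Γ Φ := by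
  rw [← K1eq hc hZ]
  refine Pr_mono hc fun ρ _ _ => ?_
  split_ifs
  · exact le_rfl
  · exact hΦ _

lemma q_nonneg (hc : ∀ v w, 0 ≤ c v w) (P : Finset V) : 0 ≤ q c Ω Γ P :=
  Psi_nonneg hc fun _ => ind_nonneg _

lemma q_le_one (hc : ∀ v w, 0 ≤ c v w) (hZ : 0 < Z c Ω) (P : Finset V) : q c Ω Γ P ≤ 1 := by
  rw [← Pr_const (Z_pos_of_subset hc hZ (sdiff_subset (t := Γ))) 1, q, Psi]
  exact Pr_mono hc fun ρ _ _ => ind_le_one _

lemma q_eq_of (P P' : Finset V) (h : ∀ A, Γ ⊆ A → (P ⊆ A ↔ P' ⊆ A)) :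
    q c Ω Γ P = q c Ω Γ P' := by
  refine Pr_congr fun ρ h0 _ => ind_congr (h _ fun v hv => ?_)
  rw [mem_lab, h0 v (by simp [hv])]; exact hv

lemma q_of_subset (hc : ∀ v w, 0 ≤ c v w) (hZ : 0 < Z c Ω) {P : Finset V} (h : P ⊆ Γ) :
    q c Ω Γ P = 1 := by
  rw [q_eq_of P ∅ (fun A hA => by simp [h.trans hA]),
    ← Pr_const (Z_pos_of_subset hc hZ (sdiff_subset (t := Γ))) 1]
  exact Pr_congr fun ρ _ _ => ind_of (empty_subset _)

lemma q_anti (hc : ∀ v w, 0 ≤ c v w) {P P' : Finset V} (h : P ⊆ P') : q c Ω Γ P' ≤ q c Ω Γ P :=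
  Pr_mono hc fun _ _ _ => ind_mono fun h' => h.trans h'

lemma q_rec (hc : ∀ v w, 0 ≤ c v w) (hZ : 0 < Z c Ω) {P : Finset V} {x : V} (hx : x ∈ P) :
    q c Ω Γ P = Ex c (Ω \ Γ) x (fun L e => if e ∈ Γ then q c Ω (Γ ∪ L) P else 0) := by
  unfold q
  rw [← K1eq hc hZ]
  refine Pr_congr fun ρ _ _ => ?_
  split_ifs with h
  · rfl
  · exact ind_of_not fun h' => h (mem_lab.1 (h' hx))

lemma K2 (hc : ∀ v w, 0 ≤ c v w) (hZ : 0 < Z c Ω) {Ω' Γ0 P : Finset V} (hΩ : Ω' ⊆ Ω)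
    {Φ : Finset V → ℝ} (hΦ : ∀ A, 0 ≤ Φ A) {m : ℝ}
    (hm : ∀ Γ, Γ0 ⊆ Γ → P ⊆ Γ → Γ ⊆ Γ0 ∪ Ω' → m ≤ Psi c Ω Γ Φ) :
    m * q c Ω' Γ0 P ≤ Psi c Ω Γ0 Φ := by
  have hZ' := Z_pos_of_subset hc hZ hΩ
  suffices H : ∀ Γ, Γ0 ⊆ Γ → Γ ⊆ Γ0 ∪ Ω' → m * q c Ω' Γ P ≤ Psi c Ω Γ Φ from
    H Γ0 Subset.rfl subset_union_left
  intro Γ h1 h2
  induction hn : (Ω' \ Γ).card using Nat.strong_induction_on generalizing Γ with
  | _ n ih =>
  by_cases hP : P ⊆ Γ
  · rw [q_of_subset hc hZ' hP, mul_one]; exact hm Γ h1 hP h2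
  obtain ⟨x, hxP, hxΓ⟩ := not_subset.1 hP
  rw [q_rec hc hZ' hxP, ← Ex_mul]
  refine le_trans ?_ (K1 hc hZ x hΦ)
  refine le_trans ?_ (Ex_dom_mono hc (Z_pos_of_subset hc hZ (sdiff_subset (t := Γ)))
    (sdiff_subset_sdiff hΩ Subset.rfl) x (fun L e => ?_))
  swap
  · split_ifs
    · exact Psi_nonneg hc hΦ
    · exact le_rfl
  by_cases hx : x ∈ Ω' \ Γ
  · refine Ex_mono hc fun L e hL _ hxL => ?_
    by_cases he : e ∈ Γ
    · rw [if_pos he, if_neg (by simp [he]), if_pos he]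
      refine ih _ ?_ (Γ ∪ L) (h1.trans subset_union_left) ?_ rfl
      · rw [← hn]
        refine card_lt_card ⟨sdiff_subset_sdiff Subset.rfl subset_union_left, fun h => ?_⟩
        have := h hx
        simp [hxL hx] at this
      · exact union_subset h2 ((hL.trans sdiff_subset).trans subset_union_right)
    · simp [he]
  · have hZ2 := Z_pos_of_subset hc hZ' (sdiff_subset (t := Γ))
    rw [Ex_of_not_mem hZ2 hx, Ex_of_not_mem hZ2 hx]
    simp [hxΓ]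

lemma q_dom_mono (hc : ∀ v w, 0 ≤ c v w) (hZ : 0 < Z c Ω) {Ω' : Finset V} (hΩ : Ω' ⊆ Ω)
    (P : Finset V) : q c Ω' Γ P ≤ q c Ω Γ P := by
  have := K2 hc hZ hΩ (Γ0 := Γ) (P := P) (Φ := fun A => ind (P ⊆ A)) (fun _ => ind_nonneg _)
    (m := 1) (fun Γ' _ h _ => (q_of_subset hc hZ h).ge)
  rwa [one_mul] at this

lemma K3 (hc : ∀ v w, 0 ≤ c v w) (hZ : 0 < Z c Ω) {P P' : Finset V} {m : ℝ}
    (hm : ∀ Γ', Γ ⊆ Γ' → P ⊆ Γ' → m ≤ q c Ω Γ' P') : m * q c Ω Γ P ≤ q c Ω Γ (P ∪ P') := by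
  refine K2 hc hZ Subset.rfl (fun _ => ind_nonneg _) fun Γ' h1 h2 _ => ?_
  refine (hm Γ' h1 h2).trans (le_of_eq (q_eq_of _ _ fun A hA => ?_))
  simp [union_subset_iff, h2.trans hA]

lemma q_prod (hc : ∀ v w, 0 ≤ c v w) (hZ : 0 < Z c Ω) {ι : Type*} [DecidableEq ι] (J : Finset ι)
    (P : ι → Finset V) {m : ℝ} (hm0 : 0 ≤ m)
    (hm : ∀ Γ', Γ ⊆ Γ' → ∀ i ∈ J, m ≤ q c Ω Γ' (P i)) : m ^ J.card ≤ q c Ω Γ (J.biUnion P) := by
  induction J using Finset.induction_on with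
  | empty => simp [q_of_subset hc hZ (empty_subset _)]
  | insert i J hi ih =>
    rw [card_insert_of_notMem hi, biUnion_insert, union_comm, pow_succ, mul_comm]
    refine le_trans (mul_le_mul_of_nonneg_left
      (ih fun Γ' h j hj => hm Γ' h j (mem_insert_of_mem hj)) hm0) ?_
    exact K3 hc hZ fun Γ' h _ => hm Γ' h i (mem_insert_self _ _)

lemma q_singleton (hc : ∀ v w, 0 ≤ c v w) (hZ : 0 < Z c Ω) (v : V) :
    q c Ω Γ {v} = 1 - surv c Ω Γ v := by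
  rw [← Pr_const (Z_pos_of_subset hc hZ (sdiff_subset (t := Γ))) 1, surv, ← Pr_sub, q, Psi]
  refine Pr_congr fun ρ _ _ => ?_
  rw [ind_not]
  simp [mem_lab]

lemma fail_step (hc : ∀ v w, 0 ≤ c v w) (hZ : 0 < Z c Ω) (P : Finset V) (x : V) :
    1 - q c Ω Γ P ≤ surv c Ω Γ x +
      Ex c (Ω \ Γ) x (fun L e => if e ∈ Γ then 1 - q c Ω (Γ ∪ L) P else 0) := by
  have hZ' := Z_pos_of_subset hc hZ (sdiff_subset (t := Γ))
  have h1 := K1 (Γ := Γ) hc hZ x (Φ := fun A => ind (P ⊆ A)) (fun _ => ind_nonneg _)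
  have h2 : surv c Ω Γ x = Ex c (Ω \ Γ) x (fun _ e => ind (e ∉ Γ)) := rfl
  have h3 := Ex_const hZ' x 1
  have h4 : Ex c (Ω \ Γ) x (fun _ _ => 1) = Ex c (Ω \ Γ) x (fun _ e => ind (e ∉ Γ)) +
      Ex c (Ω \ Γ) x (fun L e => if e ∈ Γ then 1 - q c Ω (Γ ∪ L) P else 0) +
      Ex c (Ω \ Γ) x (fun L e => if e ∈ Γ then q c Ω (Γ ∪ L) P else 0) := by
    rw [← Ex_add, ← Ex_add]
    congr 1
    funext L e
    split_ifs with h
    · rw [ind_of_not (not_not.2 h)]; ring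
    · rw [ind_of h]; ring
  change _ ≤ q c Ω Γ P at h1
  change Ex c (Ω \ Γ) x (fun L e => if e ∈ Γ then q c Ω (Γ ∪ L) P else 0) ≤ _ at h1
  linarith

lemma fail_union (hc : ∀ v w, 0 ≤ c v w) (hZ : 0 < Z c Ω) {ι : Type*} (J : Finset ι)
    (P : Finset V) (Q : ι → Finset V) (h : ∀ v ∈ P, ∃ i ∈ J, v ∈ Q i) :
    1 - q c Ω Γ P ≤ ∑ i ∈ J, (1 - q c Ω Γ (Q i)) := by
  have hZ' := Z_pos_of_subset hc hZ (sdiff_subset (t := Γ))
  have e : ∀ P, 1 - q c Ω Γ P = Pr c (Ω \ Γ) (fun ρ => 1 - ind (P ⊆ lab Γ ρ)) := by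
    intro P; rw [Pr_sub, Pr_const hZ']; rfl
  simp only [e]
  rw [← Pr_sum]
  refine Pr_mono hc fun ρ _ _ => ?_
  have hnn : ∀ i ∈ J, 0 ≤ 1 - ind (Q i ⊆ lab Γ ρ) := fun i _ => by linarith [ind_le_one (Q i ⊆ lab Γ ρ)]
  by_cases hP : P ⊆ lab Γ ρ
  · rw [ind_of hP, sub_self]; exact sum_nonneg hnn
  · obtain ⟨v, hv, hv'⟩ := not_subset.1 hP
    obtain ⟨i, hi, hvi⟩ := h v hv
    refine le_trans (le_of_eq ?_) (single_le_sum hnn hi)
    rw [ind_of_not hP, ind_of_not fun h' => hv' (h' hvi)]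

lemma surv_nonneg (hc : ∀ v w, 0 ≤ c v w) (v : V) : 0 ≤ surv c Ω Γ v :=
  div_nonneg (S_nonneg hc fun _ _ => ind_nonneg _) (Z_nonneg hc _)

lemma surv_le_one (hc : ∀ v w, 0 ≤ c v w) (hZ : 0 < Z c Ω) (v : V) : surv c Ω Γ v ≤ 1 := by
  rw [← Pr_const (Z_pos_of_subset hc hZ (sdiff_subset (t := Γ))) 1]
  exact Pr_mono hc fun ρ _ _ => ind_le_one _

lemma surv_of_mem {v : V} (hv : v ∈ Γ) : surv c Ω Γ v = 0 := by
  rw [surv, Pr, S_eq_zero, zero_div]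
  intro F hF
  rw [hF.root_of_not_mem (by simp [hv]), ind_of_not (not_not.2 hv)]

lemma surv_of_not_mem (hc : ∀ v w, 0 ≤ c v w) (hZ : 0 < Z c Ω) {v : V} (hv : v ∉ Ω)
    (hv' : v ∉ Γ) : surv c Ω Γ v = 1 := by
  rw [← Pr_const (Z_pos_of_subset hc hZ (sdiff_subset (t := Γ))) 1]
  refine Pr_congr fun ρ h0 _ => ?_
  rw [h0 v (by simp [hv]), ind_of hv']

lemma lap_surv {v : V} (hv : v ∈ Ω \ Γ) : lap c (surv c Ω Γ) v = 0 := by
  have := lap_S_root (c := c) hv (fun r => ind (r ∉ Γ))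
  have e := lap_div (c := c) (Z c (Ω \ Γ)) (fun v => S c (Ω \ Γ) (fun F => ind (root F v ∉ Γ))) v
  rw [this, zero_div] at e
  exact e

lemma lap_surv_nonpos (hc : ∀ v w, 0 ≤ c v w) {v : V} (hv : v ∈ Ω) :
    lap c (surv c Ω Γ) v ≤ 0 := by
  by_cases h : v ∈ Γ
  · refine sum_nonpos fun y _ => mul_nonpos_of_nonneg_of_nonpos (hc _ _) ?_
    rw [surv_of_mem h]; linarith [surv_nonneg (Ω := Ω) (Γ := Γ) hc y]
  · exact (lap_surv (mem_sdiff.2 ⟨hv, h⟩)).le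

lemma surv_anti (hc : ∀ v w, 0 ≤ c v w) (hZ : 0 < Z c Ω) {Γ' : Finset V} (h : Γ ⊆ Γ') (v : V) :
    surv c Ω Γ' v ≤ surv c Ω Γ v := by
  refine compare_all hc (Z_pos_of_subset hc hZ (sdiff_subset (t := Γ'))) ?_ ?_ v
  · intro x hx
    rw [lap_surv hx, lap_surv (sdiff_subset_sdiff Subset.rfl h hx)]
  · intro y hy
    by_cases h1 : y ∈ Γ'
    · rw [surv_of_mem h1]; exact surv_nonneg hc _
    · have h2 : y ∉ Ω := fun h2 => hy (mem_sdiff.2 ⟨h2, h1⟩)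
      rw [surv_of_not_mem hc hZ h2 h1, surv_of_not_mem hc hZ h2 fun h3 => h1 (h h3)]

lemma surv_le_mul (hc : ∀ v w, 0 ≤ c v w) (hZ : 0 < Z c Ω) {B : Finset V} (hB : B ⊆ Ω) {β : ℝ}
    (hβ : ∀ x ∈ B, ∀ y, y ∉ B → 0 < c x y → surv c Ω Γ y ≤ β) {v : V} (hv : v ∈ B) :
    surv c Ω Γ v ≤ β * surv c B Γ v := by
  have hZB := Z_pos_of_subset hc hZ hB
  by_cases hvΓ : v ∈ Γ
  · rw [surv_of_mem hvΓ, surv_of_mem hvΓ, mul_zero]
  refine compare_nbr hc (Z_pos_of_subset hc hZB (sdiff_subset (t := Γ)))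
    (g := fun v => β * surv c B Γ v) ?_ ?_ v (mem_sdiff.2 ⟨hv, hvΓ⟩)
  · intro x hx
    rw [lap_mul, lap_surv hx, lap_surv (sdiff_subset_sdiff hB Subset.rfl hx), mul_zero]
  · intro x hx y hy hxy
    by_cases h1 : y ∈ Γ
    · rw [surv_of_mem h1, surv_of_mem h1, mul_zero]
    · have h2 : y ∉ B := fun h2 => hy (mem_sdiff.2 ⟨h2, h1⟩)
      rw [surv_of_not_mem hc hZB h2 h1, mul_one]
      exact hβ x (mem_sdiff.1 hx).1 y h2 hxy

end Pool.Agent.MP_3251d9_pr.H70
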