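import Pool.Agent.MP_3251d9_pr.H70.Cube

/-! The lower bound for the probability of a balanced edge. -/

set_option autoImplicit false

namespace Pool.Agent.MP_3251d9_pr.H70

open Finset Function

/-- the cube grid -/
abbrev grid (n : ℕ) : SimpleGraph (Fin n × Fin n × Fin n) :=
  SimpleGraph.boxProd (SimpleGraph.pathGraph n)
    (SimpleGraph.boxProd (SimpleGraph.pathGraph n) (SimpleGraph.pathGraph n))

lemma grid_adj {n : ℕ} (v w : Bx n n n) : (grid n).Adj v w ↔ Nbr v w := by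
  obtain ⟨a, b, c⟩ := v
  obtain ⟨a', b', c'⟩ := w
  simp only [grid, SimpleGraph.boxProd_adj, SimpleGraph.pathGraph_adj, Prod.ext_iff, Fin.ext_iff,
    Nbr, cX, cY, cZ]
  omega

open Classical in
lemma pk_grid {n : ℕ} (v w : Bx n n n) (h : v ≠ w) :
    pk v w = if (grid n).Adj v w then 1 / 6 else 0 := by
  rw [pk_of_ne h]
  exact if_congr (grid_adj v w).symm rfl rfl

/-- number of spanning trees -/
noncomputable def nT (n : ℕ) : ℝ :=
  Set.ncard {T : SimpleGraph (Fin n × Fin n × Fin n) | T ≤ grid n ∧ T.IsTree}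

/-- number of spanning trees with a balanced edge -/
noncomputable def nB (n : ℕ) : ℝ :=
  Set.ncard {T : SimpleGraph (Fin n × Fin n × Fin n) | T ≤ grid n ∧ T.IsTree ∧
    ∃ u v, T.Adj u v ∧ 2 * Set.ncard {w | (T.deleteEdges {s(u, v)}).Reachable u w} = n ^ 3}

lemma nT_pos {n : ℕ} (ρ : Bx n n n) : 0 < nT n := by
  obtain ⟨F, hF, h⟩ := exists_forest_of_Z_pos pk_nonneg (Z_erase_pos ρ)
  refine Nat.cast_pos.2 ((Set.ncard_pos (Set.toFinite _)).2 ⟨gr F, gr_le hF fun v hv => ?_,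
    gr_isTree hF⟩)
  have := h v hv
  rw [pk_grid _ _ (hF.ne hv).symm] at this
  by_contra h'
  rw [if_neg h'] at this
  exact lt_irrefl _ this

theorem large : ∃ c : ℝ, 0 < c ∧ ∃ E : ℕ, ∀ n h : ℕ, n = h + h → 2 ≤ h →
    c / (n : ℝ) ^ E ≤ nB n / nT n := by
  obtain ⟨c, c0, E, hE⟩ := half_bound
  refine ⟨c / 648, by positivity, E, fun n h hn h2 => ?_⟩
  obtain ⟨r, hr⟩ := exists_pt (n1 := n) (n2 := n) (n3 := h) (x := 1) (y := 0) (z := 0)
    (by omega) (by omega) (by omega)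
  obtain ⟨a, ha⟩ := exists_pt (n1 := n) (n2 := n) (n3 := h) (x := 0) (y := 0) (z := 0)
    (by omega) (by omega) (by omega)
  obtain ⟨J, hJ, hb⟩ := hE n h hn h2 r a hr ha
  have ra : r ≠ a := by rintro rfl; omega
  have e1 := c_up hn r
  have e2 := c_up hn a
  have hadj : (grid n).Adj (up hn a) (up hn r) := (grid_adj _ _).2 (by unfold Nbr; omega)
  have t1 := trees_le (G := grid n) (by norm_num) pk_grid (up hn r)
  have t2 := le_balanced (G := grid n) (by norm_num) pk_grid hadj (n ^ 3)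
  have t3 := sum_Z_cl (D := (univ.erase (up hn r)).erase (up hn a)) (Γ := {up hn r}) pk_nonneg
    ((J ×ˢ J).filter (fun p => p.1.card + p.2.card = n * (n * h))) (fun p => two hn p.1 p.2)
    (fun p _ p' _ e => by
      change two hn p.1 p.2 = two hn p'.1 p'.2 at e
      refine Prod.ext ?_ ?_ <;> ext v
      · rw [← up_mem_two hn (B := p.2), ← up_mem_two hn (B := p'.2), e]
      · rw [← dn_mem_two hn (A := p.1), ← dn_mem_two hn (A := p'.1), e])
    (fun p hp v hv => by
      have h1 := hJ _ (mem_product.1 (mem_filter.1 hp).1).1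
      simp only [mem_erase, mem_univ, and_true, ne_eq, not_and, not_not] at hv
      by_cases h : v = up hn a
      · simp [h, up_mem_two, h1.1, ra.symm]
      · simp [hv h, up_mem_two, h1.2 r hr.2.2 ra])
    (P := fun A => 2 * A.card = n ^ 3)
    (fun p hp => by
      rw [card_two, (mem_filter.1 hp).2, hn]; ring)
  have t4 := sum_le_sum fun p (hp : p ∈ (J ×ˢ J).filter
      (fun p => p.1.card + p.2.card = n * (n * h))) =>
    glue_pair hn hr ha (hJ _ (mem_product.1 (mem_filter.1 hp).1).1)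
      (hJ _ (mem_product.1 (mem_filter.1 hp).1).2)
  rw [← sum_mul, ← sum_mul, ← mul_sum] at t4
  have z0 := Z_erase_pos r
  have z1 := Z_erase_pos (up hn r)
  have t5 : c / (n : ℝ) ^ E * Z pk (univ.erase (up hn r)) ≤
      108 * ((1 / 6) ^ ((univ.erase (up hn r)).erase (up hn a)).card * nB n) := by
    refine le_of_mul_le_mul_right ?_ (pow_pos z0 2)
    refine le_trans ?_ (t4.trans (mul_le_mul_of_nonneg_right (mul_le_mul_of_nonneg_left
      (t3.trans t2) (by norm_num)) (sq_nonneg _)))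
    rw [mul_right_comm]
    exact mul_le_mul_of_nonneg_right hb z1.le
  rw [← card_erase_add_one (mem_erase.2 ⟨hadj.ne, mem_univ _⟩), pow_succ] at t1
  have n0 : (0 : ℝ) < n := by exact_mod_cast (show 0 < n by omega)
  have p0 : 0 < c / (n : ℝ) ^ E := by positivity
  have w0 : (0 : ℝ) < (1 / 6) ^ ((univ.erase (up hn r)).erase (up hn a)).card := by positivity
  have t6 := (mul_le_mul_of_nonneg_left t1 p0.le).trans t5
  rw [le_div_iff₀ (nT_pos (up hn r))]
  refine le_of_mul_le_mul_left ?_ w0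
  change c / (n : ℝ) ^ E * (_ * nT n) ≤ _ at t6
  have : c / 648 / (n : ℝ) ^ E = c / (n : ℝ) ^ E / 648 := by ring
  rw [this]
  linarith

theorem small : 0 < nB 2 / nT 2 := by
  refine div_pos ?_ (nT_pos (0, 0, 0))
  have hadj : (grid 2).Adj (0, 0, 0) (1, 0, 0) := (grid_adj _ _).2 (by decide)
  have t2 := le_balanced (G := grid 2) (by norm_num) pk_grid hadj (2 ^ 3)
  have t3 := sum_Z_cl (c := pk (n1 := 2) (n2 := 2) (n3 := 2))
    (D := (univ.erase (1, 0, 0)).erase (0, 0, 0)) (Γ := {(1, 0, 0)}) pk_nonneg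
    {()} (fun _ => univ.filter fun v => v.1 = 1) (fun _ _ _ _ _ => rfl) (fun _ _ => by decide)
    (P := fun A => 2 * A.card = 2 ^ 3) (fun _ _ => by decide)
  rw [sum_singleton] at t3
  have t4 : 0 < Z (cl (pk (n1 := 2) (n2 := 2) (n3 := 2)) (univ.filter fun v => v.1 = 1))
      ((univ.erase (1, 0, 0)).erase (0, 0, 0)) := by
    refine Z_pos_of_rank (cl_nonneg pk_nonneg _) (fun v => v.2.1.val + v.2.2.val) fun v hv => ?_
    have : ∃ y : Bx 2 2 2, (Nbr v y ∧ v.1 = y.1) ∧
        y.2.1.val + y.2.2.val < v.2.1.val + v.2.2.val := by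
      revert v; decide
    obtain ⟨y, h1, h2⟩ := this
    refine ⟨y, ?_, h2⟩
    rw [cl, if_pos (by simp [h1.2]), pk_of_nbr h1.1]
    norm_num
  have t5 := t4.trans_le (t3.trans t2)
  exact (mul_pos_iff_of_pos_left (by positivity)).1 t5

theorem main : ∃ c : ℝ, 0 < c ∧ ∃ k : ℕ, ∀ n : ℕ, 2 ≤ n → Even n →
    c / (n : ℝ) ^ k ≤ nB n / nT n := by
  obtain ⟨c, c0, E, hE⟩ := large
  refine ⟨min c (nB 2 / nT 2), lt_min c0 small, E, fun n h2 ⟨h, hn⟩ => ?_⟩
  have n1 : (1 : ℝ) ≤ n := by exact_mod_cast (show 1 ≤ n by omega)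
  by_cases h3 : 2 ≤ h
  · exact le_trans (div_le_div_of_nonneg_right (min_le_left _ _) (by positivity)) (hE n h hn h3)
  · obtain rfl : n = 2 := by omega
    exact (div_le_self (lt_min c0 small).le (one_le_pow₀ n1)).trans (min_le_right _ _)

end Pool.Agent.MP_3251d9_pr.H70
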