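import Mathlib

/-! Weighted rooted forests on a finite vertex set. -/

set_option autoImplicit false

namespace Pool.Agent.MP_3251d9_pr.H70

open Finset Function

/-- indicator of a proposition -/
noncomputable def ind (p : Prop) : ℝ := by classical exact if p then 1 else 0

lemma ind_of {p : Prop} (h : p) : ind p = 1 := by simp [ind, h]
lemma ind_of_not {p : Prop} (h : ¬ p) : ind p = 0 := by simp [ind, h]
lemma ind_nonneg (p : Prop) : 0 ≤ ind p := by
  by_cases h : p
  · rw [ind_of h]; norm_num
  · rw [ind_of_not h]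
lemma ind_le_one (p : Prop) : ind p ≤ 1 := by
  by_cases h : p
  · rw [ind_of h]
  · rw [ind_of_not h]; norm_num
lemma ind_mono {p q : Prop} (h : p → q) : ind p ≤ ind q := by
  by_cases hp : p
  · rw [ind_of hp, ind_of (h hp)]
  · rw [ind_of_not hp]; exact ind_nonneg _
lemma ind_congr {p q : Prop} (h : p ↔ q) : ind p = ind q := by rw [propext h]
lemma ind_not (p : Prop) : ind (¬ p) = 1 - ind p := by
  by_cases hp : p
  · rw [ind_of hp, ind_of_not (not_not.2 hp)]; norm_num
  · rw [ind_of hp, ind_of_not hp]; norm_num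
lemma ind_and (p q : Prop) : ind (p ∧ q) = ind p * ind q := by
  by_cases hp : p <;> by_cases hq : q <;> simp [ind, hp, hq]

variable {V : Type*}

/-- `F` is a forest on `D`, rooted outside `D`. -/
def IsForest (D : Finset V) (F : V → V) : Prop :=
  (∀ v, v ∉ D → F v = v) ∧ ∀ v, ∃ k, F^[k] v ∉ D

lemma IsForest.induction {D : Finset V} {F : V → V} (hF : IsForest D F) {P : V → Prop}
    (h0 : ∀ v, v ∉ D → P v) (h1 : ∀ v, v ∈ D → P (F v) → P v) (v : V) : P v := by
  obtain ⟨k, hk⟩ := hF.2 v
  induction k generalizing v with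
  | zero => exact h0 v hk
  | succ k ih =>
    by_cases hv : v ∈ D
    · exact h1 v hv (ih (F v) (by simpa [Function.iterate_succ_apply] using hk))
    · exact h0 v hv

lemma IsForest.ne {D : Finset V} {F : V → V} (hF : IsForest D F) {v : V} (hv : v ∈ D) :
    F v ≠ v := by
  intro h
  obtain ⟨k, hk⟩ := hF.2 v
  rw [Function.iterate_fixed h] at hk
  exact hk hv

open Classical in
/-- the eventual fixed point of the orbit of `v` -/
noncomputable def root (F : V → V) (v : V) : V :=
  if h : ∃ k, F (F^[k] v) = F^[k] v then F^[h.choose] v else v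

lemma root_eq_of_fixed {F : V → V} {v : V} {k : ℕ} (hk : F (F^[k] v) = F^[k] v) :
    root F v = F^[k] v := by
  have h : ∃ k, F (F^[k] v) = F^[k] v := ⟨k, hk⟩
  have h2 := h.choose_spec
  rw [root, dif_pos h]
  have e1 : F^[k + h.choose] v = F^[h.choose] v := by
    rw [Function.iterate_add_apply, Function.iterate_fixed h2]
  have e2 : F^[h.choose + k] v = F^[k] v := by
    rw [Function.iterate_add_apply, Function.iterate_fixed hk]
  rw [← e1, add_comm, e2]

lemma IsForest.root_of_not_mem {D : Finset V} {F : V → V} (hF : IsForest D F) {v : V}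
    (hv : v ∉ D) : root F v = v :=
  root_eq_of_fixed (k := 0) (hF.1 v hv)

lemma IsForest.root_step {D : Finset V} {F : V → V} (hF : IsForest D F) (v : V) :
    root F (F v) = root F v := by
  obtain ⟨k, hk⟩ := hF.2 (F v)
  have h1 := hF.1 _ hk
  rw [root_eq_of_fixed h1, root_eq_of_fixed (v := v) (k := k + 1)
    (by simpa [Function.iterate_succ_apply] using h1), Function.iterate_succ_apply]

lemma IsForest.root_not_mem {D : Finset V} {F : V → V} (hF : IsForest D F) (v : V) :
    root F v ∉ D := by
  refine hF.induction (P := fun v => root F v ∉ D) ?_ ?_ v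
  · intro v hv; rw [hF.root_of_not_mem hv]; exact hv
  · intro v _ h; rwa [hF.root_step] at h

lemma IsForest.root_unique {D : Finset V} {F : V → V} (hF : IsForest D F) {ρ : V → V}
    (h0 : ∀ v, v ∉ D → ρ v = v) (h1 : ∀ v, v ∈ D → ρ (F v) = ρ v) (v : V) : root F v = ρ v := by
  refine hF.induction (P := fun v => root F v = ρ v) ?_ ?_ v
  · intro v hv; rw [hF.root_of_not_mem hv, h0 v hv]
  · intro v hv h; rw [← hF.root_step, h, h1 v hv]

variable [Fintype V] [DecidableEq V]

open Classical in
/-- the non-root vertices on the path from `v` to its root -/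
noncomputable def pathSet (F : V → V) (v : V) : Finset V :=
  univ.filter fun w => F w ≠ w ∧ ∃ k, F^[k] v = w

lemma IsForest.pathSet_of_not_mem {D : Finset V} {F : V → V} (hF : IsForest D F) {v : V}
    (hv : v ∉ D) : pathSet F v = ∅ := by
  ext w
  simp only [pathSet, mem_filter, mem_univ, true_and, notMem_empty, iff_false, not_and, not_exists]
  intro h k hk
  rw [Function.iterate_fixed (hF.1 v hv)] at hk
  subst hk
  exact h (hF.1 v hv)

lemma IsForest.pathSet_step {D : Finset V} {F : V → V} (hF : IsForest D F) {v : V}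
    (hv : v ∈ D) : pathSet F v = insert v (pathSet F (F v)) := by
  ext w
  simp only [pathSet, mem_filter, mem_univ, true_and, mem_insert]
  constructor
  · rintro ⟨h, k, hk⟩
    cases k with
    | zero => left; exact hk.symm
    | succ k => right; exact ⟨h, k, by simpa [Function.iterate_succ_apply] using hk⟩
  · rintro (rfl | ⟨h, k, hk⟩)
    · exact ⟨hF.ne hv, 0, rfl⟩
    · exact ⟨h, k + 1, by simpa [Function.iterate_succ_apply] using hk⟩

lemma IsForest.pathSet_subset {D : Finset V} {F : V → V} (hF : IsForest D F) (v : V) :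
    pathSet F v ⊆ D := by
  intro w hw
  simp only [pathSet, mem_filter, mem_univ, true_and] at hw
  by_contra h
  exact hw.1 (hF.1 w h)

lemma IsForest.mem_pathSet {D : Finset V} {F : V → V} (hF : IsForest D F) {v : V}
    (hv : v ∈ D) : v ∈ pathSet F v := by
  rw [hF.pathSet_step hv]; exact mem_insert_self _ _

section update
variable {D : Finset V} {F : V → V} {x y : V}

omit [Fintype V] in
lemma isForest_update_iff (hx : x ∉ D) (hFx : F x = x) :
    IsForest (insert x D) (update F x y) ↔ IsForest D F ∧ root F y ≠ x := by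
  constructor
  · intro h
    have hF : IsForest D F := by
      refine ⟨fun v hv => ?_, fun v => ?_⟩
      · by_cases hvx : v = x
        · rw [hvx, hFx]
        · have := h.1 v (by simp [hv, hvx])
          rwa [update_of_ne hvx] at this
      · refine h.induction (P := fun v => ∃ k, F^[k] v ∉ D) ?_ ?_ v
        · intro v hv; exact ⟨0, fun h' => hv (mem_insert_of_mem h')⟩
        · intro v _ hk
          by_cases hvx : v = x
          · exact ⟨0, by simpa [hvx] using hx⟩
          · rw [update_of_ne hvx] at hk
            obtain ⟨k, hk⟩ := hk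
            exact ⟨k + 1, by simpa [Function.iterate_succ_apply] using hk⟩
    refine ⟨hF, fun hy => ?_⟩
    have : ∀ v, root F v ≠ x := by
      intro v
      refine h.induction (P := fun v => root F v ≠ x) ?_ ?_ v
      · intro v hv
        rw [hF.root_of_not_mem (fun h' => hv (mem_insert_of_mem h'))]
        rintro rfl; exact hv (mem_insert_self _ _)
      · intro v _ hk
        by_cases hvx : v = x
        · subst hvx; rw [update_self] at hk; exact absurd hy hk
        · rw [update_of_ne hvx, hF.root_step] at hk; exact hk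
    exact this y hy
  · rintro ⟨hF, hy⟩
    have key : ∀ v, root F v ≠ x → ∃ k, (update F x y)^[k] v ∉ insert x D := by
      intro v
      refine hF.induction (P := fun v => root F v ≠ x → ∃ k, (update F x y)^[k] v ∉ insert x D)
        ?_ ?_ v
      · intro v hv h
        rw [hF.root_of_not_mem hv] at h
        exact ⟨0, by simp [h, hv]⟩
      · intro v hv ih h
        have hvx : v ≠ x := by rintro rfl; exact hx hv
        obtain ⟨k, hk⟩ := ih (by rwa [hF.root_step])
        exact ⟨k + 1, by rwa [Function.iterate_succ_apply, update_of_ne hvx]⟩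
    refine ⟨fun v hv => ?_, fun v => ?_⟩
    · have hvx : v ≠ x := by rintro rfl; exact hv (mem_insert_self _ _)
      rw [update_of_ne hvx]; exact hF.1 v (fun h' => hv (mem_insert_of_mem h'))
    · refine hF.induction (P := fun v => ∃ k, (update F x y)^[k] v ∉ insert x D) ?_ ?_ v
      · intro v hv
        by_cases hvx : v = x
        · obtain ⟨k, hk⟩ := key y hy
          exact ⟨k + 1, by rwa [Function.iterate_succ_apply, hvx, update_self]⟩
        · exact ⟨0, by simp [hvx, hv]⟩
      · intro v hv ih
        have hvx : v ≠ x := by rintro rfl; exact hx hv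
        obtain ⟨k, hk⟩ := ih
        exact ⟨k + 1, by rwa [Function.iterate_succ_apply, update_of_ne hvx]⟩

omit [Fintype V] in
lemma root_update (hx : x ∉ D) (hF : IsForest D F) (hy : root F y ≠ x) (v : V) :
    root (update F x y) v = if root F v = x then root F y else root F v := by
  have h' : IsForest (insert x D) (update F x y) :=
    (isForest_update_iff hx (hF.1 x hx)).2 ⟨hF, hy⟩
  refine h'.root_unique (ρ := fun v => if root F v = x then root F y else root F v) ?_ ?_ v
  · intro v hv
    have hvx : v ≠ x := by rintro rfl; exact hv (mem_insert_self _ _)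
    have : root F v = v := hF.root_of_not_mem (fun h' => hv (mem_insert_of_mem h'))
    simp [this, hvx]
  · intro v _
    by_cases hvx : v = x
    · subst hvx; simp [hy, hF.root_of_not_mem hx]
    · simp only [update_of_ne hvx, hF.root_step]

lemma pathSet_update (hx : x ∉ D) (hF : IsForest D F) (hy : root F y ≠ x) :
    pathSet (update F x y) x = insert x (pathSet F y) := by
  have h' : IsForest (insert x D) (update F x y) :=
    (isForest_update_iff hx (hF.1 x hx)).2 ⟨hF, hy⟩
  have key : ∀ v, root F v ≠ x → pathSet (update F x y) v = pathSet F v := by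
    intro v
    refine hF.induction (P := fun v => root F v ≠ x → pathSet (update F x y) v = pathSet F v)
      ?_ ?_ v
    · intro v hv h
      rw [hF.root_of_not_mem hv] at h
      rw [hF.pathSet_of_not_mem hv, h'.pathSet_of_not_mem (by simp [h, hv])]
    · intro v hv ih h
      have hvx : v ≠ x := by rintro rfl; exact hx hv
      rw [hF.pathSet_step hv, h'.pathSet_step (mem_insert_of_mem hv), update_of_ne hvx,
        ih (by rwa [hF.root_step])]
  rw [h'.pathSet_step (mem_insert_self _ _), update_self, key y hy]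

end update

/-- weight of a forest -/
def wt (c : V → V → ℝ) (D : Finset V) (F : V → V) : ℝ := ∏ v ∈ D, c v (F v)

open Classical in
/-- weighted sum over the forests on `D` -/
noncomputable def S (c : V → V → ℝ) (D : Finset V) (Φ : (V → V) → ℝ) : ℝ :=
  ∑ F : V → V, if IsForest D F then wt c D F * Φ F else 0

/-- partition function -/
noncomputable def Z (c : V → V → ℝ) (D : Finset V) : ℝ := S c D fun _ => 1

variable {c : V → V → ℝ} {D : Finset V}

omit [Fintype V] [DecidableEq V] in
lemma wt_nonneg (hc : ∀ v w, 0 ≤ c v w) (D : Finset V) (F : V → V) : 0 ≤ wt c D F :=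
  prod_nonneg fun _ _ => hc _ _

lemma S_congr {Φ Ψ : (V → V) → ℝ} (h : ∀ F, IsForest D F → Φ F = Ψ F) : S c D Φ = S c D Ψ := by
  unfold S
  refine sum_congr rfl fun F _ => ?_
  split_ifs with hF
  · rw [h F hF]
  · rfl

lemma S_mono' (hc : ∀ v w, 0 ≤ c v w) {Φ Ψ : (V → V) → ℝ}
    (h : ∀ F, IsForest D F → 0 < wt c D F → Φ F ≤ Ψ F) : S c D Φ ≤ S c D Ψ := by
  unfold S
  refine sum_le_sum fun F _ => ?_
  split_ifs with hF
  · rcases (wt_nonneg hc D F).eq_or_lt with h0 | h0
    · rw [← h0]; simp
    · exact mul_le_mul_of_nonneg_left (h F hF h0) h0.le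
  · exact le_rfl

lemma S_mono (hc : ∀ v w, 0 ≤ c v w) {Φ Ψ : (V → V) → ℝ}
    (h : ∀ F, IsForest D F → Φ F ≤ Ψ F) : S c D Φ ≤ S c D Ψ :=
  S_mono' hc fun F hF _ => h F hF

lemma S_add (Φ Ψ : (V → V) → ℝ) : S c D (fun F => Φ F + Ψ F) = S c D Φ + S c D Ψ := by
  unfold S
  rw [← sum_add_distrib]
  refine sum_congr rfl fun F _ => ?_
  split_ifs <;> ring

lemma S_sub (Φ Ψ : (V → V) → ℝ) : S c D (fun F => Φ F - Ψ F) = S c D Φ - S c D Ψ := by
  unfold S
  rw [← sum_sub_distrib]
  refine sum_congr rfl fun F _ => ?_
  split_ifs <;> ring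

lemma S_mul (a : ℝ) (Φ : (V → V) → ℝ) : S c D (fun F => a * Φ F) = a * S c D Φ := by
  unfold S
  rw [mul_sum]
  refine sum_congr rfl fun F _ => ?_
  split_ifs <;> ring

lemma S_const (a : ℝ) : S c D (fun _ => a) = a * Z c D := by
  rw [Z, ← S_mul]; simp

lemma S_zero : S c D (fun _ => 0) = 0 := by rw [S_const]; simp

lemma S_sum {ι : Type*} (s : Finset ι) (Φ : ι → (V → V) → ℝ) :
    S c D (fun F => ∑ i ∈ s, Φ i F) = ∑ i ∈ s, S c D (Φ i) := by
  classical
  induction s using Finset.induction_on with
  | empty => simp [S_zero]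
  | insert i s hi ih => simp only [sum_insert hi]; rw [S_add, ih]

lemma S_nonneg (hc : ∀ v w, 0 ≤ c v w) {Φ : (V → V) → ℝ}
    (h : ∀ F, IsForest D F → 0 ≤ Φ F) : 0 ≤ S c D Φ := by
  rw [← S_zero (c := c) (D := D)]; exact S_mono hc h

lemma Z_nonneg (hc : ∀ v w, 0 ≤ c v w) (D : Finset V) : 0 ≤ Z c D :=
  S_nonneg hc fun _ _ => zero_le_one

lemma S_empty (Φ : (V → V) → ℝ) : S c ∅ Φ = Φ id := by
  unfold S
  rw [sum_eq_single id]
  · have : IsForest (∅ : Finset V) id := ⟨fun _ _ => rfl, fun v => ⟨0, by simp⟩⟩
    simp [this, wt]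
  · intro F _ hF
    rw [if_neg]
    intro h
    exact hF (funext fun v => h.1 v (by simp))
  · simp

lemma Z_empty : Z c ∅ = 1 := by simp [Z, S_empty]

lemma sum_update (x : V) (a : (V → V) → ℝ) :
    ∑ F : V → V, a F = ∑ y : V, ∑ F : V → V, if F x = x then a (update F x y) else 0 := by
  rw [← sum_product']
  rw [← sum_filter]
  symm
  refine sum_bij' (fun p _ => update p.2 x p.1) (fun F _ => (F x, update F x x)) ?_ ?_ ?_ ?_ ?_
  · intro _ _; exact mem_univ _
  · intro F _; simp
  · rintro ⟨y, F⟩ h
    simp only [mem_filter] at h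
    simp [h.2]
  · intro F _; simp
  · intro _ _; rfl

/-- removal of a vertex -/
lemma S_insert {x : V} (hx : x ∉ D) (Φ : (V → V) → ℝ) :
    S c (insert x D) Φ =
      ∑ y, c x y * S c D (fun F => if root F y = x then 0 else Φ (update F x y)) := by
  classical
  unfold S
  rw [sum_update x]
  refine sum_congr rfl fun y _ => ?_
  rw [mul_sum]
  refine sum_congr rfl fun F _ => ?_
  have hw : wt c (insert x D) (update F x y) = c x y * wt c D F := by
    unfold wt
    rw [prod_insert hx, update_self]
    congr 1
    refine prod_congr rfl fun v hv => ?_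
    rw [update_of_ne (by rintro rfl; exact hx hv)]
  by_cases hFx : F x = x
  · rw [if_pos hFx, hw]
    by_cases hF : IsForest D F
    · by_cases hy : root F y = x
      · rw [if_neg (by rw [isForest_update_iff hx hFx]; tauto), if_pos hF]; simp [hy]
      · rw [if_pos ((isForest_update_iff hx hFx).2 ⟨hF, hy⟩), if_pos hF]; simp [hy]; ring
    · rw [if_neg (by rw [isForest_update_iff hx hFx]; tauto), if_neg hF]; simp
  · rw [if_neg hFx, if_neg (fun h => hFx (h.1 x hx))]; simp

end Pool.Agent.MP_3251d9_pr.H70
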