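import Pool.Agent.MP_3251d9_pr.H70.Explore

/-! Labelled forests, edge addition and Rayleigh monotonicity. -/

set_option autoImplicit false

namespace Pool.Agent.MP_3251d9_pr.H70

open Finset Function

variable {V : Type*} [Fintype V] [DecidableEq V] {c : V → V → ℝ} {D : Finset V}

/-- weights with the edges between `A` and its complement removed -/
def cl (c : V → V → ℝ) (A : Finset V) (x y : V) : ℝ := if (x ∈ A ↔ y ∈ A) then c x y else 0

omit [Fintype V] in
lemma cl_nonneg (hc : ∀ v w, 0 ≤ c v w) (A : Finset V) (v w : V) : 0 ≤ cl c A v w := by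
  unfold cl; split_ifs; exacts [hc _ _, le_rfl]

omit [Fintype V] in
lemma cl_symm (hs : ∀ v w, c v w = c w v) (A : Finset V) (v w : V) : cl c A v w = cl c A w v := by
  unfold cl; rw [hs v w]; simp only [iff_comm (a := v ∈ A)]

omit [Fintype V] [DecidableEq V] in
lemma label_root {F : V → V} (hF : IsForest D F) {A : Finset V}
    (h : ∀ v ∈ D, (v ∈ A ↔ F v ∈ A)) (v : V) : v ∈ A ↔ root F v ∈ A := by
  refine hF.induction (P := fun v => v ∈ A ↔ root F v ∈ A) ?_ ?_ v
  · intro v hv; rw [hF.root_of_not_mem hv]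
  · intro v hv ih; rw [h v hv, ih, hF.root_step]

lemma Z_cl {Γ A : Finset V} (h : ∀ v, v ∉ D → (v ∈ A ↔ v ∈ Γ)) :
    Z (cl c A) D = S c D (fun F => ind (lab Γ (root F) = A)) := by
  unfold Z S
  refine sum_congr rfl fun F _ => ?_
  split_ifs with hF
  swap
  · rfl
  beta_reduce
  by_cases hA : lab Γ (root F) = A
  · rw [ind_of hA]
    congr 1
    refine prod_congr rfl fun v _ => if_pos ?_
    rw [← hA, mem_lab, mem_lab, hF.root_step]
  · rw [ind_of_not hA, mul_zero, mul_one]
    by_contra h0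
    refine hA ?_
    ext v
    rw [mem_lab, ← h _ (hF.root_not_mem v), ← label_root hF]
    intro w hw
    by_contra h1
    exact h0 (prod_eq_zero hw (if_neg h1))

lemma sum_Z_cl {ι : Type*} (hc : ∀ v w, 0 ≤ c v w) {Γ : Finset V} (J : Finset ι) (A : ι → Finset V)
    (hinj : Set.InjOn A J) (h : ∀ i ∈ J, ∀ v, v ∉ D → (v ∈ A i ↔ v ∈ Γ)) {P : Finset V → Prop}
    (hP : ∀ i ∈ J, P (A i)) :
    ∑ i ∈ J, Z (cl c (A i)) D ≤ S c D (fun F => ind (P (lab Γ (root F)))) := by
  rw [sum_congr rfl fun i hi => Z_cl (h i hi), ← S_sum]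
  refine S_mono hc fun F _ => ?_
  by_cases hex : ∃ i ∈ J, lab Γ (root F) = A i
  · obtain ⟨i, hi, e⟩ := hex
    rw [sum_eq_single_of_mem i hi, ind_of e, ind_of (e ▸ hP i hi)]
    intro j hj hji
    exact ind_of_not fun e' => hji (hinj hj hi (e'.symm.trans e))
  · rw [sum_eq_zero fun i hi => ind_of_not fun e => hex ⟨i, hi, e⟩]
    exact ind_nonneg _

lemma S_le_sum_Z_cl (hc : ∀ v w, 0 ≤ c v w) {Γ : Finset V} (J : Finset (Finset V))
    (h : ∀ A ∈ J, ∀ v, v ∉ D → (v ∈ A ↔ v ∈ Γ)) :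
    S c D (fun F => ind (lab Γ (root F) ∈ J)) ≤ ∑ A ∈ J, Z (cl c A) D := by
  rw [sum_congr rfl fun i hi => Z_cl (h i hi), ← S_sum]
  refine S_mono hc fun F _ => ?_
  by_cases hex : lab Γ (root F) ∈ J
  · refine le_trans (le_of_eq ?_) (single_le_sum (f := fun A => ind (lab Γ (root F) = A))
      (fun _ _ => ind_nonneg _) hex)
    rw [ind_of hex, ind_of rfl]
  · rw [ind_of_not hex]; exact sum_nonneg fun _ _ => ind_nonneg _

lemma reroot (hc : ∀ v w, 0 ≤ c v w) (hs : ∀ v w, c v w = c w v) {A : Finset V} {r a b : V}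
    (hr : r ∈ A) (ha : a ∉ A) (hb : b ∉ A) :
    Z (cl c A) ((univ.erase r).erase a) = Z (cl c A) ((univ.erase r).erase b) := by
  have key : ∀ a b, a ∉ A → b ∉ A →
      adj (cl c A) (univ.erase r) b a = Z (cl c A) ((univ.erase r).erase a) := by
    intro a b _ hb
    refine le_antisymm (S_mono (cl_nonneg hc A) fun F _ => by split_ifs <;> norm_num)
      (S_mono' (cl_nonneg hc A) fun F hF hw => ?_)
    rw [if_pos]
    have h1 := label_root hF (A := A) (fun w hw' => by
      by_contra h1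
      exact hw.ne' (prod_eq_zero hw' (if_neg h1))) b
    have h2 := hF.root_not_mem b
    simp only [mem_erase, mem_univ, and_true, ne_eq, not_and, not_not] at h2
    by_contra h3
    exact hb (h1.2 (h2 h3 ▸ hr))
  have ma : ∀ a, a ∉ A → a ∈ univ.erase r := fun a ha =>
    mem_erase.2 ⟨by rintro rfl; exact ha hr, mem_univ _⟩
  rw [← key a b ha hb, ← key b a hb ha]
  exact adj_symm (cl_nonneg hc A) (cl_symm hs A) (ma a ha) (ma b hb)

lemma S_congr_wt {c' : V → V → ℝ} (h : ∀ x ∈ D, ∀ y, c x y = c' x y) (Φ : (V → V) → ℝ) :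
    S c D Φ = S c' D Φ := by
  unfold S wt
  refine sum_congr rfl fun F _ => ?_
  rw [prod_congr rfl fun v hv => h v hv (F v)]

lemma Z_mono_wt (hc : ∀ v w, 0 ≤ c v w) {c' : V → V → ℝ} (h : ∀ x ∈ D, ∀ y, c x y ≤ c' x y) :
    Z c D ≤ Z c' D := by
  unfold Z S wt
  refine sum_le_sum fun F _ => ?_
  split_ifs
  · simp only [mul_one]
    exact prod_le_prod (fun v _ => hc _ _) fun v hv => h v hv _
  · exact le_rfl

lemma S_add_arrow {u : V} (hu : u ∈ D) (v : V) (ω : ℝ) (Φ : (V → V) → ℝ) :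
    S (fun x y => c x y + if x = u ∧ y = v then ω else 0) D Φ = S c D Φ +
      ω * S c (D.erase u) (fun F => if root F v = u then 0 else Φ (update F u v)) := by
  conv_lhs => rw [← insert_erase hu, S_insert (notMem_erase _ _)]
  conv_rhs => rw [← insert_erase hu, S_insert (notMem_erase _ _), insert_erase hu]
  have : ∀ Ψ, S (fun x y => c x y + if x = u ∧ y = v then ω else 0) (D.erase u) Ψ =
      S c (D.erase u) Ψ := fun Ψ => S_congr_wt (fun x hx y => by simp [ne_of_mem_erase hx]) Ψ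
  simp only [this, add_mul, sum_add_distrib, true_and, ite_mul, zero_mul, sum_ite_eq', mem_univ,
    if_true]

/-- weight of one undirected edge -/
def edge (u v : V) (ω : ℝ) (x y : V) : ℝ := if (x = u ∧ y = v) ∨ (x = v ∧ y = u) then ω else 0

/-- effective resistance -/
noncomputable def res (c : V → V → ℝ) (D : Finset V) (u v : V) : ℝ :=
  green c D u u - green c D v u + (green c D v v - green c D u v)

lemma Z_add_edge (hZ : 0 < Z c D) {u v : V} (hu : u ∈ D) (hv : v ∈ D) (huv : u ≠ v) (ω : ℝ) :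
    Z (fun x y => c x y + edge u v ω x y) D = Z c D * (1 + ω * res c D u v) := by
  have e : (fun x y => c x y + edge u v ω x y) = fun x y =>
      (c x y + if x = u ∧ y = v then ω else 0) + if x = v ∧ y = u then ω else 0 := by
    funext x y
    unfold edge
    by_cases h1 : x = u ∧ y = v
    · rw [if_pos (Or.inl h1), if_pos h1, if_neg (fun h => huv (h1.1.symm.trans h.1)), add_zero]
    · by_cases h2 : x = v ∧ y = u
      · rw [if_pos (Or.inr h2), if_neg h1, if_pos h2, add_zero]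
      · simp [h1, h2]
  have a : ∀ {u : V} (v : V), S c (D.erase u) (fun F => if root F v = u then 0 else 1) =
      adj c D u u - adj c D v u := by
    intro u v
    rw [adj_self, adj, Z, ← S_sub]
    exact S_congr fun F _ => by split_ifs <;> norm_num
  rw [e, Z, S_add_arrow hv, S_add_arrow hu, S_add_arrow (mem_erase.2 ⟨huv, hu⟩), a, a,
    S_eq_zero (D := (D.erase v).erase u)]
  · simp only [res, green, hu, hv, if_true, ← Z.eq_1]
    field_simp
    ring
  · intro F hF
    have h1 : v ∉ (D.erase v).erase u := fun h => notMem_erase v D (mem_of_mem_erase h)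
    split_ifs with h2 h3
    · rfl
    · rfl
    · exact absurd (by rw [root_update (notMem_erase _ _) hF h2,
        hF.root_of_not_mem (notMem_erase _ _), if_pos rfl, hF.root_of_not_mem h1]) h3

/-- Dirichlet form -/
noncomputable def En (c : V → V → ℝ) (φ χ : V → ℝ) : ℝ :=
  (∑ x, ∑ y, c x y * ((φ x - φ y) * (χ x - χ y))) / 2

omit [DecidableEq V] in
lemma En_eq (hs : ∀ v w, c v w = c w v) (φ χ : V → ℝ) : En c φ χ = ∑ x, φ x * lap c χ x := by
  unfold En lap
  have : ∑ x, ∑ y, c x y * (φ y * (χ x - χ y)) = - ∑ x, ∑ y, c x y * (φ x * (χ x - χ y)) := by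
    rw [sum_comm]
    simp only [← sum_neg_distrib]
    exact sum_congr rfl fun x _ => sum_congr rfl fun y _ => by rw [hs]; ring
  simp only [sub_mul, mul_sub (c _ _) (φ _ * _), sum_sub_distrib, this, mul_sum,
    mul_left_comm (φ _)]
  ring

lemma En_green (hs : ∀ v w, c v w = c w v) (hZ : 0 < Z c D) {u v : V} (hu : u ∈ D) (hv : v ∈ D)
    {φ : V → ℝ} (hφ : ∀ x, x ∉ D → φ x = 0) :
    En c φ (fun x => green c D x u - green c D x v) = φ u - φ v := by
  rw [En_eq hs]
  have : ∀ x, φ x * lap c (fun x => green c D x u - green c D x v) x =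
      (if x = u then φ u else 0) - (if x = v then φ v else 0) := by
    intro x
    by_cases hx : x ∈ D
    · rw [lap_sub, lap_green hZ hx, lap_green hZ hx]
      split_ifs <;> simp_all
    · rw [hφ x hx, if_neg (by rintro rfl; exact hx hu), if_neg (by rintro rfl; exact hx hv)]; simp
  simp [this]

lemma le_res (hc : ∀ v w, 0 ≤ c v w) (hs : ∀ v w, c v w = c w v) (hZ : 0 < Z c D) {u v : V}
    (hu : u ∈ D) (hv : v ∈ D) {φ : V → ℝ} (hφ : ∀ x, x ∉ D → φ x = 0) :
    2 * (φ u - φ v) - En c φ φ ≤ res c D u v := by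
  set g : V → ℝ := fun x => green c D x u - green c D x v with hg
  have e1 := En_green hs hZ hu hv hφ
  have e2 := En_green hs hZ hu hv (φ := g) (fun x hx => by simp [hg, green_of_not_mem hx])
  have e3 : 0 ≤ En c φ φ - 2 * En c φ g + En c g g := by
    have : En c φ φ - 2 * En c φ g + En c g g =
        (∑ x, ∑ y, c x y * ((φ x - φ y) - (g x - g y)) ^ 2) / 2 := by
      unfold En
      simp only [mul_div_assoc', ← sub_div, ← add_div, mul_sum, ← sum_sub_distrib,
        ← sum_add_distrib]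
      congr 1
      exact sum_congr rfl fun x _ => sum_congr rfl fun y _ => by ring
    rw [this]
    exact div_nonneg (sum_nonneg fun x _ => sum_nonneg fun y _ =>
      mul_nonneg (hc _ _) (sq_nonneg _)) (by norm_num)
  rw [← hg] at e1 e2
  simp only [hg] at e2
  unfold res
  linarith

lemma res_nonneg (hc : ∀ v w, 0 ≤ c v w) (hs : ∀ v w, c v w = c w v) (hZ : 0 < Z c D) {u v : V}
    (hu : u ∈ D) (hv : v ∈ D) : 0 ≤ res c D u v := by
  simpa [En] using le_res hc hs hZ hu hv (φ := fun _ => 0) (fun _ _ => rfl)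

lemma res_mono {c' : V → V → ℝ} {D' A : Finset V} (hc : ∀ v w, 0 ≤ c v w)
    (hs : ∀ v w, c v w = c w v) (hZ : 0 < Z c D) (hc' : ∀ v w, 0 ≤ c' v w)
    (hs' : ∀ v w, c' v w = c' w v) (hZ' : 0 < Z c' D') (h1 : ∀ x y, c' x y ≤ c x y)
    (h2 : ∀ x ∈ A, ∀ y, y ∉ A → c' x y = 0) (h3 : ∀ x ∈ A, x ∈ D → x ∈ D') {u v : V}
    (hu : u ∈ D) (hv : v ∈ D) (huA : u ∈ A) (hvA : v ∈ A) : res c D u v ≤ res c' D' u v := by
  set g : V → ℝ := fun x => green c D x u - green c D x v with hg
  have g0 : ∀ x, x ∉ D → g x = 0 := fun x hx => by simp [hg, green_of_not_mem hx]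
  have e2 := En_green hs hZ hu hv g0
  rw [← hg] at e2
  have e3 := le_res hc' hs' hZ' (h3 u huA hu) (h3 v hvA hv)
    (φ := fun x => if x ∈ A then g x else 0) (fun x hx => by
      split_ifs with h
      · exact g0 x fun h' => hx (h3 x h h')
      · rfl)
  have e4 : En c' (fun x => if x ∈ A then g x else 0) (fun x => if x ∈ A then g x else 0) ≤
      En c g g := by
    refine div_le_div_of_nonneg_right (sum_le_sum fun x _ => sum_le_sum fun y _ => ?_) (by norm_num)
    have := mul_nonneg (hc x y) (mul_self_nonneg (g x - g y))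
    by_cases hx : x ∈ A <;> by_cases hy : y ∈ A
    · simp only [hx, hy, if_true]
      exact mul_le_mul_of_nonneg_right (h1 x y) (mul_self_nonneg _)
    · rw [h2 x hx y hy, zero_mul]; exact this
    · rw [hs', h2 y hy x hx, zero_mul]; exact this
    · simpa [hx, hy] using this
  simp only [huA, hvA, if_true] at e3
  have e5 : res c D u v = g u - g v := by simp only [res, hg]; ring
  linarith

omit [Fintype V] in
lemma edge_nonneg (u v : V) {ω : ℝ} (h : 0 ≤ ω) (x y : V) : 0 ≤ edge u v ω x y := by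
  unfold edge; split_ifs; exacts [h, le_rfl]

omit [Fintype V] in
lemma edge_symm (u v : V) (ω : ℝ) (x y : V) : edge u v ω x y = edge u v ω y x := by
  unfold edge; exact if_congr (by tauto) rfl rfl

/-- adding the same edges multiplies the partition function of the smaller network by more -/
lemma ratio_mono {ι : Type*} [DecidableEq ι] {c' : V → V → ℝ} {D' A : Finset V}
    (hc : ∀ v w, 0 ≤ c v w)
    (hs : ∀ v w, c v w = c w v) (hZ : 0 < Z c D) (hc' : ∀ v w, 0 ≤ c' v w)
    (hs' : ∀ v w, c' v w = c' w v) (h1 : ∀ x y, c' x y ≤ c x y)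
    (h2 : ∀ x ∈ A, ∀ y, y ∉ A → c' x y = 0) (h3 : ∀ x ∈ A, x ∈ D → x ∈ D') {ω : ℝ} (hω : 0 ≤ ω)
    (u v : ι → V) (K : Finset ι)
    (hK : ∀ i ∈ K, u i ≠ v i ∧ u i ∈ D ∧ v i ∈ D ∧ u i ∈ A ∧ v i ∈ A) :
    Z c' D' * Z (fun x y => c x y + ∑ i ∈ K, edge (u i) (v i) ω x y) D ≤
      Z (fun x y => c' x y + ∑ i ∈ K, edge (u i) (v i) ω x y) D' * Z c D := by
  have en : ∀ (K : Finset ι) x y, 0 ≤ ∑ i ∈ K, edge (u i) (v i) ω x y :=
    fun K x y => sum_nonneg fun i _ => edge_nonneg _ _ hω _ _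
  rcases (Z_nonneg hc' D').eq_or_lt with h0 | hZ'
  · rw [← h0, zero_mul]
    exact mul_nonneg (Z_nonneg (fun x y => add_nonneg (hc' _ _) (en K x y)) _) hZ.le
  induction K using Finset.induction_on with
  | empty => simp
  | insert i K hi ih =>
    have ih := ih fun j hj => hK j (mem_insert_of_mem hj)
    obtain ⟨k1, k2, k3, k4, k5⟩ := hK i (mem_insert_self _ _)
    simp only [sum_insert hi, add_comm (edge (u i) (v i) ω _ _), ← add_assoc]
    have z1 : 0 < Z (fun x y => c x y + ∑ i ∈ K, edge (u i) (v i) ω x y) D :=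
      hZ.trans_le (Z_mono_wt hc fun x _ y => le_add_of_nonneg_right (en K x y))
    have z2 : 0 < Z (fun x y => c' x y + ∑ i ∈ K, edge (u i) (v i) ω x y) D' :=
      hZ'.trans_le (Z_mono_wt hc' fun x _ y => le_add_of_nonneg_right (en K x y))
    have n1 := fun x y => add_nonneg (hc x y) (en K x y)
    have n2 := fun x y => add_nonneg (hc' x y) (en K x y)
    have s1 : ∀ x y, c x y + ∑ i ∈ K, edge (u i) (v i) ω x y =
        c y x + ∑ i ∈ K, edge (u i) (v i) ω y x := fun x y => by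
      rw [hs]; simp only [edge_symm _ _ _ x y]
    have s2 : ∀ x y, c' x y + ∑ i ∈ K, edge (u i) (v i) ω x y =
        c' y x + ∑ i ∈ K, edge (u i) (v i) ω y x := fun x y => by
      rw [hs']; simp only [edge_symm _ _ _ x y]
    rw [Z_add_edge z1 k2 k3 k1, Z_add_edge z2 (h3 _ k4 k2) (h3 _ k5 k3) k1]
    have r1 := res_mono n1 s1 z1 n2 s2 z2 (fun x y => add_le_add (h1 x y) le_rfl) (A := A)
      (fun x hx y hy => by
        rw [h2 x hx y hy, zero_add]
        refine sum_eq_zero fun j hj => if_neg ?_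
        obtain ⟨_, _, _, l4, l5⟩ := hK j (mem_insert_of_mem hj)
        rintro (⟨_, rfl⟩ | ⟨_, rfl⟩)
        exacts [hy l5, hy l4]) h3 k2 k3 k4 k5
    have r0 := res_nonneg n1 s1 z1 k2 k3
    rw [← mul_assoc, mul_right_comm _ _ (Z c D)]
    exact mul_le_mul ih (by nlinarith) (by positivity) (by positivity)

lemma green_self_le (hc : ∀ v w, 0 ≤ c v w) (hZ : 0 < Z c D) {u r : V} (hu : u ∈ D) (hr : r ∉ D) :
    c u r * green c D u u ≤ 1 := by
  rw [green_self hu, ← mul_div_assoc, div_le_one hZ]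
  have := Z_insert_ge hc (notMem_erase u D) (fun h => hr (mem_of_mem_erase h))
    (show r ≠ u by rintro rfl; exact hr hu)
  rwa [insert_erase hu] at this

omit [Fintype V] [DecidableEq V] in
lemma cs_sym (J : Finset (Finset V)) (z : Finset V → ℝ) (τ : Finset V → Finset V) (N : ℕ)
    (h1 : ∀ A ∈ J, τ A ∈ J) (h2 : ∀ A ∈ J, τ (τ A) = A) (h3 : ∀ A ∈ J, z (τ A) = z A)
    (h4 : ∀ A ∈ J, A.card + (τ A).card = N) :
    (∑ A ∈ J, z A) ^ 2 ≤ (N + 1) *
      ∑ p ∈ (J ×ˢ J).filter (fun p => p.1.card + p.2.card = N), z p.1 * z p.2 := by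
  have e1 : ∑ A ∈ J, z A = ∑ k ∈ range (N + 1), ∑ A ∈ J.filter (fun A => A.card = k), z A :=
    (sum_fiberwise_of_maps_to (fun A hA => mem_range.2 (by have := h4 A hA; omega)) z).symm
  have e2 : ∑ p ∈ (J ×ˢ J).filter (fun p => p.1.card + p.2.card = N), z p.1 * z p.2 =
      ∑ k ∈ range (N + 1), (∑ A ∈ J.filter (fun A => A.card = k), z A) ^ 2 := by
    rw [← sum_fiberwise_of_maps_to (t := range (N + 1)) (g := fun p => p.1.card)
      (fun p hp => mem_range.2 (by have := (mem_filter.1 hp).2; omega))]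
    refine sum_congr rfl fun k _ => ?_
    rw [sq, sum_mul_sum, ← sum_product']
    refine sum_bij' (fun p _ => (p.1, τ p.2)) (fun p _ => (p.1, τ p.2)) ?_ ?_ ?_ ?_ ?_
    · intro p hp
      simp only [mem_filter, mem_product] at hp ⊢
      have := h4 _ hp.1.1.2
      exact ⟨⟨hp.1.1.1, hp.2⟩, h1 _ hp.1.1.2, by omega⟩
    · intro p hp
      simp only [mem_filter, mem_product] at hp ⊢
      have := h4 _ hp.2.1
      exact ⟨⟨⟨hp.1.1, h1 _ hp.2.1⟩, by omega⟩, hp.1.2⟩
    · intro p hp
      simp only [mem_filter, mem_product] at hp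
      simp [h2 _ hp.1.1.2]
    · intro p hp
      simp only [mem_filter, mem_product] at hp
      simp [h2 _ hp.2.1]
    · intro p hp
      simp only [mem_filter, mem_product] at hp
      simp [h3 _ hp.1.1.2]
  rw [e1, e2]
  have := sq_sum_le_card_mul_sum_sq (s := range (N + 1))
    (f := fun k => ∑ A ∈ J.filter (fun A => A.card = k), z A)
  simpa using this

lemma q_perm (σ : Equiv.Perm V) (hσ : ∀ v w, c (σ v) (σ w) = c v w) (Ω Γ P : Finset V) :
    q c (Ω.map σ.toEmbedding) (Γ.map σ.toEmbedding) (P.map σ.toEmbedding) = q c Ω Γ P := by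
  unfold q Psi Pr Z
  rw [← Finset.map_sdiff, S_perm σ hσ (fun ρ => ind (P.map σ.toEmbedding ⊆ lab (Γ.map σ.toEmbedding) ρ)),
    S_perm σ hσ (fun _ => 1)]
  congr 2
  funext F
  refine ind_congr ?_
  simp only [subset_iff, mem_lab, mem_map_equiv, Equiv.symm_apply_apply]
  exact ⟨fun h x hx => by simpa using @h (σ x) (by simpa using hx), fun h x hx => h hx⟩

end Pool.Agent.MP_3251d9_pr.H70
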