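import Mathlib

/-! Two radial functions on the cubic lattice. -/

set_option autoImplicit false

namespace Pool.Agent.MP_3251d9_pr.H70

/-- sum of a radial function over the six neighbours -/
def nb (φ : ℤ → ℝ) (x y z : ℤ) : ℝ :=
  φ ((x + 1) ^ 2 + y ^ 2 + z ^ 2) + φ ((x - 1) ^ 2 + y ^ 2 + z ^ 2) +
  φ (x ^ 2 + (y + 1) ^ 2 + z ^ 2) + φ (x ^ 2 + (y - 1) ^ 2 + z ^ 2) +
  φ (x ^ 2 + y ^ 2 + (z + 1) ^ 2) + φ (x ^ 2 + y ^ 2 + (z - 1) ^ 2)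

/-- a superharmonic radial function -/
noncomputable def psi (s : ℤ) : ℝ := 1 / √((s : ℝ) + 15)

/-- a subharmonic radial function -/
noncomputable def inv1 (s : ℤ) : ℝ := 1 / (s : ℝ)

lemma inv_sqrt_le {τ : ℝ} (h1 : -1 / 4 ≤ τ) (h2 : τ ≤ 1 / 4) :
    1 / √(1 + τ) ≤ 1 - τ / 2 + 3 * τ ^ 2 / 8 - 5 * τ ^ 3 / 16 + τ ^ 4 / 2 := by
  set P := 1 - τ / 2 + 3 * τ ^ 2 / 8 - 5 * τ ^ 3 / 16 + τ ^ 4 / 2 with hP
  have hP0 : 0 < P := by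
    have : τ ^ 3 ≤ τ ^ 2 / 4 := by nlinarith [sq_nonneg τ]
    nlinarith [sq_nonneg τ, sq_nonneg (τ ^ 2)]
  have hs : 0 < √(1 + τ) := Real.sqrt_pos.2 (by linarith)
  rw [div_le_iff₀ hs, ← Real.sqrt_sq hP0.le, ← Real.sqrt_mul (sq_nonneg _)]
  refine Real.one_le_sqrt.2 ?_
  have e : P ^ 2 * (1 + τ) - 1 = τ ^ 4 * (29 / 64 + 23 / 32 * τ - 67 / 256 * τ ^ 2 +
      41 / 256 * τ ^ 3 - 1 / 16 * τ ^ 4 + 1 / 4 * τ ^ 5) := by rw [hP]; ring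
  have t2 : τ ^ 2 ≤ 1 / 16 := by nlinarith
  have t3 : -1 / 64 ≤ τ ^ 3 := by nlinarith [sq_nonneg τ]
  have t4 : τ ^ 4 ≤ 1 / 256 := by nlinarith [sq_nonneg τ]
  have t5 : -1 / 1024 ≤ τ ^ 5 := by nlinarith [sq_nonneg (τ ^ 2)]
  have : 0 ≤ τ ^ 4 * (29 / 64 + 23 / 32 * τ - 67 / 256 * τ ^ 2 +
      41 / 256 * τ ^ 3 - 1 / 16 * τ ^ 4 + 1 / 4 * τ ^ 5) :=
    mul_nonneg (by positivity) (by linarith)
  linarith

lemma pair_psi {u d : ℝ} (hu : 0 < u) (h : 16 * d ^ 2 ≤ u ^ 2) :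
    1 / √(u + d) + 1 / √(u - d) ≤ 1 / √u * (2 + 3 / 4 * (d / u) ^ 2 + ((d / u) ^ 2) ^ 2) := by
  have h0 : |4 * d| ≤ u := abs_le_of_sq_le_sq' (by nlinarith) hu.le |> abs_le.2
  rw [abs_le] at h0
  have a1 : -1 / 4 ≤ d / u := by rw [le_div_iff₀ hu]; linarith
  have a2 : d / u ≤ 1 / 4 := by rw [div_le_iff₀ hu]; linarith
  have e1 : √(u + d) = √u * √(1 + d / u) := by
    rw [← Real.sqrt_mul hu.le]; congr 1; field_simp
  have e2 : √(u - d) = √u * √(1 + -(d / u)) := by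
    rw [← Real.sqrt_mul hu.le]; congr 1; field_simp; ring
  rw [e1, e2, ← one_div_mul_one_div, ← one_div_mul_one_div, ← mul_add]
  refine mul_le_mul_of_nonneg_left ?_ (by positivity)
  have b1 := inv_sqrt_le a1 a2
  have b2 := inv_sqrt_le (τ := -(d / u)) (by linarith) (by linarith)
  nlinarith

lemma inv_sqrt_ge {u : ℝ} (hu : 1 < u) : 1 / √u * (1 + 1 / u / 2) ≤ 1 / √(u - 1) := by
  have hu0 : 0 < u := by linarith
  have e1 : √(u - 1) = √u * √(1 - 1 / u) := by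
    rw [← Real.sqrt_mul hu0.le]; congr 1; field_simp
  rw [e1, ← one_div_mul_one_div]
  refine mul_le_mul_of_nonneg_left ?_ (by positivity)
  set σ := 1 / u with hσ
  have s0 : 0 < σ := by positivity
  have s1 : σ < 1 := by rw [hσ, div_lt_one hu0]; exact hu
  have hs : 0 < √(1 - σ) := Real.sqrt_pos.2 (by linarith)
  rw [le_div_iff₀ hs, ← Real.sqrt_sq (show 0 ≤ 1 + σ / 2 by linarith),
    ← Real.sqrt_mul (sq_nonneg _)]
  refine Real.sqrt_le_one.2 ?_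
  nlinarith [sq_nonneg σ, mul_pos s0 (mul_pos s0 s0)]

lemma nb_psi (x y z : ℤ) : nb psi x y z ≤ 6 * psi (x ^ 2 + y ^ 2 + z ^ 2) := by
  unfold nb psi
  push_cast
  generalize (x : ℝ) = X
  generalize (y : ℝ) = Y
  generalize (z : ℝ) = W
  set u := X ^ 2 + Y ^ 2 + W ^ 2 + 16 with hu
  have u16 : 16 ≤ u := by nlinarith [sq_nonneg X, sq_nonneg Y, sq_nonneg W]
  have u0 : 0 < u := by linarith
  have hd : ∀ a : ℝ, a ^ 2 + 16 ≤ u → 16 * (2 * a) ^ 2 ≤ u ^ 2 := by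
    intro a ha
    nlinarith [sq_nonneg (a ^ 2 - 16), sq_nonneg a]
  have p1 := pair_psi u0 (hd X (by nlinarith [sq_nonneg Y, sq_nonneg W]))
  have p2 := pair_psi u0 (hd Y (by nlinarith [sq_nonneg X, sq_nonneg W]))
  have p3 := pair_psi u0 (hd W (by nlinarith [sq_nonneg X, sq_nonneg Y]))
  have p4 := inv_sqrt_ge (u := u) (by linarith)
  rw [show (X + 1) ^ 2 + Y ^ 2 + W ^ 2 + 15 = u + 2 * X by rw [hu]; ring,
    show (X - 1) ^ 2 + Y ^ 2 + W ^ 2 + 15 = u - 2 * X by rw [hu]; ring,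
    show X ^ 2 + (Y + 1) ^ 2 + W ^ 2 + 15 = u + 2 * Y by rw [hu]; ring,
    show X ^ 2 + (Y - 1) ^ 2 + W ^ 2 + 15 = u - 2 * Y by rw [hu]; ring,
    show X ^ 2 + Y ^ 2 + (W + 1) ^ 2 + 15 = u + 2 * W by rw [hu]; ring,
    show X ^ 2 + Y ^ 2 + (W - 1) ^ 2 + 15 = u - 2 * W by rw [hu]; ring,
    show X ^ 2 + Y ^ 2 + W ^ 2 + 15 = u - 1 by rw [hu]; ring]
  set w := 1 / u with hw
  have w0 : 0 < w := by positivity
  have w1 : w ≤ 1 / 16 := one_div_le_one_div_of_le (by norm_num) u16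
  set T1 := (2 * X / u) ^ 2 with h1
  set T2 := (2 * Y / u) ^ 2 with h2
  set T3 := (2 * W / u) ^ 2 with h3
  have hT : T1 + T2 + T3 = 4 * w - 64 * w ^ 2 := by
    rw [h1, h2, h3, hw]; field_simp; rw [hu]; ring
  have n1 : 0 ≤ T1 := sq_nonneg _
  have n2 : 0 ≤ T2 := sq_nonneg _
  have n3 : 0 ≤ T3 := sq_nonneg _
  have r0 : 0 ≤ w := w0.le
  clear_value T1 T2 T3 w
  clear h1 h2 h3 hw hd
  have q1 : T1 ^ 2 + T2 ^ 2 + T3 ^ 2 ≤ (4 * w - 64 * w ^ 2) ^ 2 := by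
    rw [← hT]; nlinarith [mul_nonneg n1 n2, mul_nonneg n1 n3, mul_nonneg n2 n3]
  have q2 : (4 * w - 64 * w ^ 2) ^ 2 ≤ 48 * w ^ 2 := by
    have : (4 * w - 64 * w ^ 2) ^ 2 = w ^ 2 * (4 - 64 * w) ^ 2 := by ring
    rw [this, mul_comm]
    exact mul_le_mul_of_nonneg_right (by nlinarith) (sq_nonneg _)
  have q3 : (2 + 3 / 4 * T1 + T1 ^ 2) + (2 + 3 / 4 * T2 + T2 ^ 2) + (2 + 3 / 4 * T3 + T3 ^ 2) ≤
      6 * (1 + w / 2) := by linarith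
  have r0 : 0 ≤ 1 / √u := by positivity
  linarith [mul_le_mul_of_nonneg_left q3 r0]

lemma nb_psi_zero : nb psi 0 0 0 + 6 / 125 ≤ 6 * psi 0 := by
  unfold nb psi
  have e1 : √(16 : ℝ) = 4 := by
    rw [show (16 : ℝ) = 4 ^ 2 by norm_num, Real.sqrt_sq (by norm_num)]
  have e2 : (258 / 1000 : ℝ) ≤ 1 / √15 := by
    rw [le_div_iff₀ (by positivity)]
    have : √(15 : ℝ) ≤ 1000 / 258 := Real.sqrt_le_iff.2 ⟨by norm_num, by norm_num⟩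
    linarith
  norm_num [e1]
  norm_num at e2
  linarith

lemma psi_nonneg (s : ℤ) : 0 ≤ psi s := by unfold psi; positivity

lemma psi_anti {s s' : ℤ} (h0 : 0 ≤ s) (h : s ≤ s') : psi s' ≤ psi s := by
  unfold psi
  have : (0 : ℝ) ≤ s := by exact_mod_cast h0
  have : (s : ℝ) ≤ s' := by exact_mod_cast h
  exact one_div_le_one_div_of_le (Real.sqrt_pos.2 (by linarith)) (Real.sqrt_le_sqrt (by linarith))

lemma psi_sq {s : ℤ} (h0 : 0 ≤ s) : psi s ^ 2 = 1 / ((s : ℝ) + 15) := by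
  unfold psi
  have : (0 : ℝ) ≤ s := by exact_mod_cast h0
  rw [div_pow, Real.sq_sqrt (by linarith), one_pow]

lemma psi_le {s : ℤ} {a : ℝ} (ha : 0 < a) (h : a ^ 2 ≤ (s : ℝ) + 15) : psi s ≤ 1 / a :=
  one_div_le_one_div_of_le ha (Real.le_sqrt_of_sq_le h)

lemma le_psi {s : ℤ} {a : ℝ} (h0 : 0 ≤ s) (ha : 0 < a) (h : (s : ℝ) + 15 ≤ a ^ 2) :
    1 / a ≤ psi s := by
  have : (0 : ℝ) ≤ s := by exact_mod_cast h0
  exact one_div_le_one_div_of_le (Real.sqrt_pos.2 (by linarith))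
    (Real.sqrt_le_iff.2 ⟨ha.le, h⟩)

lemma pair_inv {u d : ℝ} (hu : 0 < u) (h : d ^ 2 < u ^ 2) :
    2 / u * (1 + d ^ 2 / u ^ 2) ≤ 1 / (u + d) + 1 / (u - d) := by
  have h0 := abs_lt.1 (abs_lt_of_sq_lt_sq h hu.le)
  have a1 : 0 < u + d := by linarith
  have a2 : 0 < u - d := by linarith
  rw [div_add_div _ _ a1.ne' a2.ne', le_div_iff₀ (mul_pos a1 a2)]
  have : 2 / u * (1 + d ^ 2 / u ^ 2) * ((u + d) * (u - d)) = 2 * u - 2 * d ^ 4 / u ^ 3 := by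
    field_simp; ring
  rw [this]
  have : 0 ≤ 2 * d ^ 4 / u ^ 3 := by positivity
  linarith

lemma nb_inv1 {x y z : ℤ} (h : 7 ≤ x ^ 2 + y ^ 2 + z ^ 2) :
    6 * inv1 (x ^ 2 + y ^ 2 + z ^ 2) ≤ nb inv1 x y z := by
  unfold nb inv1
  have h' : (7 : ℝ) ≤ (x : ℝ) ^ 2 + (y : ℝ) ^ 2 + (z : ℝ) ^ 2 := by exact_mod_cast h
  push_cast
  generalize (x : ℝ) = X at *
  generalize (y : ℝ) = Y at *
  generalize (z : ℝ) = W at *
  set u := X ^ 2 + Y ^ 2 + W ^ 2 + 1 with hu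
  have u8 : 8 ≤ u := by linarith
  have u0 : 0 < u := by linarith
  have hd : ∀ a : ℝ, a ^ 2 + 1 ≤ u → (2 * a) ^ 2 < u ^ 2 := by
    intro a ha
    nlinarith
  have p1 := pair_inv u0 (hd X (by nlinarith [sq_nonneg Y, sq_nonneg W]))
  have p2 := pair_inv u0 (hd Y (by nlinarith [sq_nonneg X, sq_nonneg W]))
  have p3 := pair_inv u0 (hd W (by nlinarith [sq_nonneg X, sq_nonneg Y]))
  rw [show (X + 1) ^ 2 + Y ^ 2 + W ^ 2 = u + 2 * X by rw [hu]; ring,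
    show (X - 1) ^ 2 + Y ^ 2 + W ^ 2 = u - 2 * X by rw [hu]; ring,
    show X ^ 2 + (Y + 1) ^ 2 + W ^ 2 = u + 2 * Y by rw [hu]; ring,
    show X ^ 2 + (Y - 1) ^ 2 + W ^ 2 = u - 2 * Y by rw [hu]; ring,
    show X ^ 2 + Y ^ 2 + (W + 1) ^ 2 = u + 2 * W by rw [hu]; ring,
    show X ^ 2 + Y ^ 2 + (W - 1) ^ 2 = u - 2 * W by rw [hu]; ring,
    show X ^ 2 + Y ^ 2 + W ^ 2 = u - 1 by rw [hu]; ring]
  have e : 2 / u * (1 + (2 * X) ^ 2 / u ^ 2) + 2 / u * (1 + (2 * Y) ^ 2 / u ^ 2) +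
      2 / u * (1 + (2 * W) ^ 2 / u ^ 2) = (6 * u ^ 2 + 8 * (u - 1)) / u ^ 3 := by
    field_simp; rw [hu]; ring
  have f : 6 * (1 / (u - 1)) ≤ (6 * u ^ 2 + 8 * (u - 1)) / u ^ 3 := by
    rw [mul_one_div, div_le_div_iff₀ (by linarith) (by positivity)]
    nlinarith
  linarith

lemma inv1_nonneg {s : ℤ} (h : 0 ≤ s) : 0 ≤ inv1 s := by
  unfold inv1
  have : (0 : ℝ) ≤ s := by exact_mod_cast h
  positivity

lemma inv1_anti {s s' : ℤ} (h0 : 0 < s) (h : s ≤ s') : inv1 s' ≤ inv1 s :=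
  one_div_le_one_div_of_le (by exact_mod_cast h0) (by exact_mod_cast h)

end Pool.Agent.MP_3251d9_pr.H70
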