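import Pool.Agent.MP_3251d9_pr.H70.LPS
import Pool.Agent.MP_3251d9_pr.H70.Lattice

/-! The reflected walk on a box, coordinates, cubes and barriers. -/

set_option autoImplicit false

namespace Pool.Agent.MP_3251d9_pr.H70

open Finset Function

/-- a box -/
abbrev Bx (n1 n2 n3 : ℕ) := Fin n1 × Fin n2 × Fin n3

/-- one-dimensional kernel with loops at the ends -/
def k1 {n : ℕ} (a b : Fin n) : ℝ :=
  (if a.val + 1 = b.val then 1 else 0) + (if b.val + 1 = a.val then 1 else 0) +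
    (if a = b then (if a.val = 0 then 1 else 0) + (if a.val + 1 = n then 1 else 0) else 0)

lemma k1_nonneg {n : ℕ} (a b : Fin n) : 0 ≤ k1 a b := by
  unfold k1; split_ifs <;> norm_num

lemma k1_symm {n : ℕ} (a b : Fin n) : k1 a b = k1 b a := by
  unfold k1
  by_cases h : a = b
  · subst h; rfl
  · rw [if_neg h, if_neg (Ne.symm h)]; ring

lemma k1_of_ne {n : ℕ} {a b : Fin n} (h : a ≠ b) :
    k1 a b = if a.val + 1 = b.val ∨ b.val + 1 = a.val then 1 else 0 := by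
  unfold k1
  rw [if_neg h]
  split_ifs <;> first | omega | norm_num

lemma sum_k1 {n : ℕ} (a : Fin n) (g : ℤ → ℝ) :
    ∑ b : Fin n, k1 a b * g (b.val : ℤ) =
      g (if (a.val : ℤ) = n - 1 then a.val else a.val + 1) +
      g (if (a.val : ℤ) = 0 then a.val else a.val - 1) := by
  have ha := a.isLt
  simp only [k1, add_mul, sum_add_distrib, ite_mul, one_mul, zero_mul, sum_ite_eq, mem_univ,
    if_true]
  have e1 : ∑ b : Fin n, (if a.val + 1 = b.val then g (b.val : ℤ) else 0) =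
      if a.val + 1 = n then 0 else g (a.val + 1) := by
    split_ifs with h
    · exact sum_eq_zero fun b _ => if_neg (by have := b.isLt; omega)
    · rw [sum_eq_single ⟨a.val + 1, by omega⟩]
      · simp
      · intro b _ hb; exact if_neg fun h => hb (Fin.ext h.symm)
      · simp
  have e2 : ∑ b : Fin n, (if b.val + 1 = a.val then g (b.val : ℤ) else 0) =
      if a.val = 0 then 0 else g (a.val - 1) := by
    split_ifs with h
    · exact sum_eq_zero fun b _ => if_neg (by omega)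
    · rw [sum_eq_single ⟨a.val - 1, by omega⟩]
      · rw [if_pos (by simp only; omega)]; congr 1; simp only; omega
      · intro b _ hb; exact if_neg fun h => hb (Fin.ext (by simp only; omega))
      · simp
  rw [e1, e2]
  split_ifs <;> first | omega | ring

variable {n1 n2 n3 : ℕ}

/-- the lazy reflected walk on a box -/
noncomputable def pk (v w : Bx n1 n2 n3) : ℝ :=
  ((if v.2.1 = w.2.1 ∧ v.2.2 = w.2.2 then k1 v.1 w.1 else 0) +
   (if v.1 = w.1 ∧ v.2.2 = w.2.2 then k1 v.2.1 w.2.1 else 0) +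
   (if v.1 = w.1 ∧ v.2.1 = w.2.1 then k1 v.2.2 w.2.2 else 0)) / 6

/-- first coordinate -/
def cX (v : Bx n1 n2 n3) : ℤ := v.1.val
/-- second coordinate -/
def cY (v : Bx n1 n2 n3) : ℤ := v.2.1.val
/-- third coordinate -/
def cZ (v : Bx n1 n2 n3) : ℤ := v.2.2.val

lemma bnd (v : Bx n1 n2 n3) :
    (0 ≤ cX v ∧ cX v < n1) ∧ (0 ≤ cY v ∧ cY v < n2) ∧ (0 ≤ cZ v ∧ cZ v < n3) := by
  have := v.1.isLt
  have := v.2.1.isLt
  have := v.2.2.isLt
  unfold cX cY cZ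
  omega

lemma bx_ext {v w : Bx n1 n2 n3} (h1 : cX v = cX w) (h2 : cY v = cY w) (h3 : cZ v = cZ w) :
    v = w := by
  unfold cX cY cZ at *
  exact Prod.ext (Fin.ext (by omega)) (Prod.ext (Fin.ext (by omega)) (Fin.ext (by omega)))

lemma exists_pt {x y z : ℤ} (hx : 0 ≤ x ∧ x < n1) (hy : 0 ≤ y ∧ y < n2) (hz : 0 ≤ z ∧ z < n3) :
    ∃ v : Bx n1 n2 n3, cX v = x ∧ cY v = y ∧ cZ v = z :=
  ⟨(⟨x.toNat, by omega⟩, ⟨y.toNat, by omega⟩, ⟨z.toNat, by omega⟩),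
    by simp only [cX]; omega, by simp only [cY]; omega, by simp only [cZ]; omega⟩

lemma pk_nonneg (v w : Bx n1 n2 n3) : 0 ≤ pk v w := by
  unfold pk
  have := k1_nonneg v.1 w.1
  have := k1_nonneg v.2.1 w.2.1
  have := k1_nonneg v.2.2 w.2.2
  split_ifs <;> positivity

lemma pk_symm (v w : Bx n1 n2 n3) : pk v w = pk w v := by
  unfold pk
  simp only [k1_symm v.1, k1_symm v.2.1, k1_symm v.2.2, eq_comm (a := v.1), eq_comm (a := v.2.1),
    eq_comm (a := v.2.2)]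

/-- lattice adjacency -/
def Nbr (v w : Bx n1 n2 n3) : Prop :=
  ((cX v + 1 = cX w ∨ cX w + 1 = cX v) ∧ cY v = cY w ∧ cZ v = cZ w) ∨
  (cX v = cX w ∧ (cY v + 1 = cY w ∨ cY w + 1 = cY v) ∧ cZ v = cZ w) ∨
  (cX v = cX w ∧ cY v = cY w ∧ (cZ v + 1 = cZ w ∨ cZ w + 1 = cZ v))

instance (v w : Bx n1 n2 n3) : Decidable (Nbr v w) := by unfold Nbr; infer_instance

lemma pk_of_ne {v w : Bx n1 n2 n3} (h : v ≠ w) : pk v w = if Nbr v w then 1 / 6 else 0 := by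
  obtain ⟨a, b, c⟩ := v
  obtain ⟨a', b', c'⟩ := w
  unfold pk Nbr cX cY cZ
  simp only
  by_cases h1 : a = a' <;> by_cases h2 : b = b' <;> by_cases h3 : c = c'
  · exact absurd (by rw [h1, h2, h3]) h
  all_goals
    simp only [h1, h2, h3, k1_of_ne, ne_eq, not_false_eq_true, and_true, and_false, true_and,
      if_true, if_false]
    simp only [Fin.ext_iff] at h1 h2 h3
    split_ifs <;> first | omega | (norm_num; done) | (norm_num; omega)

lemma pk_of_nbr {v w : Bx n1 n2 n3} (h : Nbr v w) : pk v w = 1 / 6 := by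
  rw [pk_of_ne, if_pos h]
  rintro rfl
  unfold Nbr at h
  omega

lemma near_of_pk_pos {v w : Bx n1 n2 n3} (h : 0 < pk v w) :
    (cX v - 1 ≤ cX w ∧ cX w ≤ cX v + 1) ∧ (cY v - 1 ≤ cY w ∧ cY w ≤ cY v + 1) ∧
      (cZ v - 1 ≤ cZ w ∧ cZ w ≤ cZ v + 1) := by
  by_cases hvw : v = w
  · subst hvw; omega
  · rw [pk_of_ne hvw] at h
    split_ifs at h with h'
    · unfold Nbr at h'; omega
    · exact absurd h (lt_irrefl _)

lemma sum_pk (v : Bx n1 n2 n3) (G : ℤ → ℤ → ℤ → ℝ) :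
    ∑ w, pk v w * G (cX w) (cY w) (cZ w) =
      (G (if cX v = n1 - 1 then cX v else cX v + 1) (cY v) (cZ v) +
       G (if cX v = 0 then cX v else cX v - 1) (cY v) (cZ v) +
       G (cX v) (if cY v = n2 - 1 then cY v else cY v + 1) (cZ v) +
       G (cX v) (if cY v = 0 then cY v else cY v - 1) (cZ v) +
       G (cX v) (cY v) (if cZ v = n3 - 1 then cZ v else cZ v + 1) +
       G (cX v) (cY v) (if cZ v = 0 then cZ v else cZ v - 1)) / 6 := by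
  obtain ⟨a, b, c⟩ := v
  have s1 := sum_k1 a (fun x => G x b.val c.val)
  have s2 := sum_k1 b (fun y => G a.val y c.val)
  have s3 := sum_k1 c (fun z => G a.val b.val z)
  simp only [pk, cX, cY, cZ, div_mul_eq_mul_div, ← sum_div, add_mul, sum_add_distrib,
    Fintype.sum_prod_type, ite_and, ite_mul, zero_mul, sum_ite_irrel, sum_const_zero, sum_ite_eq,
    mem_univ, if_true]
  rw [s1, s2, s3]
  ring_nf

lemma pk_stoch (v : Bx n1 n2 n3) : ∑ w, pk v w = 1 := by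
  have := sum_pk v (fun _ _ _ => 1)
  simp only [mul_one] at this
  rw [this]; norm_num

/-- sum over the six lattice neighbours -/
def six (G : ℤ → ℤ → ℤ → ℝ) (x y z : ℤ) : ℝ :=
  G (x + 1) y z + G (x - 1) y z + G x (y + 1) z + G x (y - 1) z + G x y (z + 1) + G x y (z - 1)

lemma lap_ge (v : Bx n1 n2 n3) (G : ℤ → ℤ → ℤ → ℝ)
    (h1 : cX v = n1 - 1 → G (cX v) (cY v) (cZ v) ≤ G (cX v + 1) (cY v) (cZ v))
    (h2 : cX v = 0 → G (cX v) (cY v) (cZ v) ≤ G (cX v - 1) (cY v) (cZ v))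
    (h3 : cY v = n2 - 1 → G (cX v) (cY v) (cZ v) ≤ G (cX v) (cY v + 1) (cZ v))
    (h4 : cY v = 0 → G (cX v) (cY v) (cZ v) ≤ G (cX v) (cY v - 1) (cZ v))
    (h5 : cZ v = n3 - 1 → G (cX v) (cY v) (cZ v) ≤ G (cX v) (cY v) (cZ v + 1))
    (h6 : cZ v = 0 → G (cX v) (cY v) (cZ v) ≤ G (cX v) (cY v) (cZ v - 1)) :
    G (cX v) (cY v) (cZ v) - six G (cX v) (cY v) (cZ v) / 6 ≤
      lap pk (fun w => G (cX w) (cY w) (cZ w)) v := by
  rw [lap_stoch pk_stoch, sum_pk, six]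
  have a1 : G (if cX v = n1 - 1 then cX v else cX v + 1) (cY v) (cZ v) ≤
      G (cX v + 1) (cY v) (cZ v) := by split_ifs with h; exacts [h1 h, le_rfl]
  have a2 : G (if cX v = 0 then cX v else cX v - 1) (cY v) (cZ v) ≤
      G (cX v - 1) (cY v) (cZ v) := by split_ifs with h; exacts [h2 h, le_rfl]
  have a3 : G (cX v) (if cY v = n2 - 1 then cY v else cY v + 1) (cZ v) ≤
      G (cX v) (cY v + 1) (cZ v) := by split_ifs with h; exacts [h3 h, le_rfl]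
  have a4 : G (cX v) (if cY v = 0 then cY v else cY v - 1) (cZ v) ≤
      G (cX v) (cY v - 1) (cZ v) := by split_ifs with h; exacts [h4 h, le_rfl]
  have a5 : G (cX v) (cY v) (if cZ v = n3 - 1 then cZ v else cZ v + 1) ≤
      G (cX v) (cY v) (cZ v + 1) := by split_ifs with h; exacts [h5 h, le_rfl]
  have a6 : G (cX v) (cY v) (if cZ v = 0 then cZ v else cZ v - 1) ≤
      G (cX v) (cY v) (cZ v - 1) := by split_ifs with h; exacts [h6 h, le_rfl]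
  linarith

lemma lap_le (v : Bx n1 n2 n3) (G : ℤ → ℤ → ℤ → ℝ)
    (h1 : cX v = n1 - 1 → G (cX v + 1) (cY v) (cZ v) ≤ G (cX v) (cY v) (cZ v))
    (h2 : cX v = 0 → G (cX v - 1) (cY v) (cZ v) ≤ G (cX v) (cY v) (cZ v))
    (h3 : cY v = n2 - 1 → G (cX v) (cY v + 1) (cZ v) ≤ G (cX v) (cY v) (cZ v))
    (h4 : cY v = 0 → G (cX v) (cY v - 1) (cZ v) ≤ G (cX v) (cY v) (cZ v))
    (h5 : cZ v = n3 - 1 → G (cX v) (cY v) (cZ v + 1) ≤ G (cX v) (cY v) (cZ v))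
    (h6 : cZ v = 0 → G (cX v) (cY v) (cZ v - 1) ≤ G (cX v) (cY v) (cZ v)) :
    lap pk (fun w => G (cX w) (cY w) (cZ w)) v ≤
      G (cX v) (cY v) (cZ v) - six G (cX v) (cY v) (cZ v) / 6 := by
  have := lap_ge v (fun x y z => -1 * G x y z) (fun h => by linarith [h1 h])
    (fun h => by linarith [h2 h]) (fun h => by linarith [h3 h]) (fun h => by linarith [h4 h])
    (fun h => by linarith [h5 h]) (fun h => by linarith [h6 h])
  rw [lap_mul (c := pk) (-1) (fun w => G (cX w) (cY w) (cZ w))] at this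
  unfold six at *
  linarith

/-- squared distance -/
def sqd (v w : Bx n1 n2 n3) : ℤ := (cX v - cX w) ^ 2 + (cY v - cY w) ^ 2 + (cZ v - cZ w) ^ 2

lemma sqd_nonneg (v w : Bx n1 n2 n3) : 0 ≤ sqd v w := by unfold sqd; positivity

/-- cube -/
def cube (c : Bx n1 n2 n3) (ρ : ℤ) : Finset (Bx n1 n2 n3) :=
  univ.filter fun v => (cX c - ρ ≤ cX v ∧ cX v ≤ cX c + ρ) ∧ (cY c - ρ ≤ cY v ∧ cY v ≤ cY c + ρ) ∧
    (cZ c - ρ ≤ cZ v ∧ cZ v ≤ cZ c + ρ)

lemma mem_cube {c v : Bx n1 n2 n3} {ρ : ℤ} : v ∈ cube c ρ ↔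
    (cX c - ρ ≤ cX v ∧ cX v ≤ cX c + ρ) ∧ (cY c - ρ ≤ cY v ∧ cY v ≤ cY c + ρ) ∧
    (cZ c - ρ ≤ cZ v ∧ cZ v ≤ cZ c + ρ) := by simp [cube]

lemma cube_subset {c c' : Bx n1 n2 n3} {ρ ρ' σ : ℤ} (h : c' ∈ cube c σ) (h' : σ + ρ' ≤ ρ) :
    cube c' ρ' ⊆ cube c ρ := by
  intro v hv
  rw [mem_cube] at *
  omega

lemma cube_mono (c : Bx n1 n2 n3) {ρ ρ' : ℤ} (h' : ρ' ≤ ρ) : cube c ρ' ⊆ cube c ρ := by
  intro v hv
  rw [mem_cube] at *
  omega

lemma sqd_le_of_mem {c v : Bx n1 n2 n3} {ρ : ℤ} (h : v ∈ cube c ρ) : sqd v c ≤ 3 * ρ ^ 2 := by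
  rw [mem_cube] at h
  unfold sqd
  nlinarith [h.1.1, h.1.2, h.2.1.1, h.2.1.2, h.2.2.1, h.2.2.2]

lemma le_sqd_of_not_mem {c v : Bx n1 n2 n3} {ρ : ℤ} (h0 : -1 ≤ ρ) (h : v ∉ cube c ρ) :
    (ρ + 1) ^ 2 ≤ sqd v c := by
  rw [mem_cube] at h
  unfold sqd
  have a := sq_nonneg (cX v - cX c)
  have b := sq_nonneg (cY v - cY c)
  have d := sq_nonneg (cZ v - cZ c)
  have : ρ + 1 ≤ cX c - cX v ∨ ρ + 1 ≤ cX v - cX c ∨ ρ + 1 ≤ cY c - cY v ∨ ρ + 1 ≤ cY v - cY c ∨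
      ρ + 1 ≤ cZ c - cZ v ∨ ρ + 1 ≤ cZ v - cZ c := by omega
  rcases this with h | h | h | h | h | h <;> nlinarith

lemma card_cube_le (c : Bx n1 n2 n3) {ρ : ℤ} (h : 0 ≤ ρ) :
    ((cube c ρ).card : ℝ) ≤ (2 * ρ + 1) ^ 3 := by
  have : (cube c ρ).card ≤ (Icc (cX c - ρ) (cX c + ρ) ×ˢ Icc (cY c - ρ) (cY c + ρ) ×ˢ
      Icc (cZ c - ρ) (cZ c + ρ)).card := by
    refine card_le_card_of_injOn (fun v => (cX v, cY v, cZ v)) ?_ ?_
    · intro v hv
      simp only [mem_coe, mem_cube] at hv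
      simp only [mem_coe, mem_product, mem_Icc]
      exact hv
    · intro v _ w _ hvw
      simp only [Prod.mk.injEq] at hvw
      exact bx_ext hvw.1 hvw.2.1 hvw.2.2
  simp only [card_product, Int.card_Icc] at this
  have e : ∀ a : ℤ, ((a + ρ + 1 - (a - ρ)).toNat : ℝ) = 2 * ρ + 1 := by
    intro a
    have : ((a + ρ + 1 - (a - ρ)).toNat : ℤ) = 2 * ρ + 1 := by omega
    exact_mod_cast this
  have h2 : ((cube c ρ).card : ℝ) ≤ ((cX c + ρ + 1 - (cX c - ρ)).toNat : ℝ) *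
      (((cY c + ρ + 1 - (cY c - ρ)).toNat : ℝ) * ((cZ c + ρ + 1 - (cZ c - ρ)).toNat : ℝ)) := by
    exact_mod_cast this
  rw [e, e, e] at h2
  linarith

lemma sum_cube_aux (c : Bx n1 n2 n3) (ρ : ℕ) :
    ∑ w ∈ cube c ρ, (1 / ((sqd w c : ℝ) + 15) - 1 / ((ρ : ℝ) ^ 2 + 1)) ≤ 16 * (ρ : ℝ) := by
  induction ρ with
  | zero =>
    simp only [Nat.cast_zero, mul_zero]
    refine sum_nonpos fun w _ => ?_
    have : (0 : ℝ) ≤ sqd w c := by exact_mod_cast sqd_nonneg w c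
    have : 1 / ((sqd w c : ℝ) + 15) ≤ 1 / ((0 : ℝ) ^ 2 + 1) :=
      one_div_le_one_div_of_le (by norm_num) (by linarith)
    linarith
  | succ ρ ih =>
    have hsub : cube c ρ ⊆ cube c ((ρ + 1 : ℕ) : ℤ) := cube_mono c (by push_cast; omega)
    rw [← sum_sdiff hsub]
    have r0 : (0 : ℝ) ≤ ρ := Nat.cast_nonneg _
    have a1 : ∑ w ∈ cube c ((ρ + 1 : ℕ) : ℤ) \ cube c ρ,
        (1 / ((sqd w c : ℝ) + 15) - 1 / (((ρ + 1 : ℕ) : ℝ) ^ 2 + 1)) ≤ 0 := by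
      refine sum_nonpos fun w hw => ?_
      have h1 := le_sqd_of_not_mem (by omega) (mem_sdiff.1 hw).2
      have h2 : ((ρ : ℝ) + 1) ^ 2 ≤ sqd w c := by exact_mod_cast h1
      have : 1 / ((sqd w c : ℝ) + 15) ≤ 1 / (((ρ + 1 : ℕ) : ℝ) ^ 2 + 1) :=
        one_div_le_one_div_of_le (by positivity) (by push_cast; linarith)
      linarith
    have a2 : ∑ w ∈ cube c ρ, (1 / ((sqd w c : ℝ) + 15) - 1 / (((ρ + 1 : ℕ) : ℝ) ^ 2 + 1)) =
        ∑ w ∈ cube c ρ, (1 / ((sqd w c : ℝ) + 15) - 1 / ((ρ : ℝ) ^ 2 + 1)) +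
        (cube c ρ).card * ((2 * ρ + 1) / (((ρ : ℝ) ^ 2 + 1) * ((ρ + 1) ^ 2 + 1))) := by
      rw [← nsmul_eq_mul, ← sum_const, ← sum_add_distrib]
      refine sum_congr rfl fun w _ => ?_
      push_cast
      field_simp
      ring
    have a3 := card_cube_le c (ρ := ρ) (by omega)
    push_cast at a3
    have a4 : ((cube c ρ).card : ℝ) * ((2 * ρ + 1) / (((ρ : ℝ) ^ 2 + 1) * ((ρ + 1) ^ 2 + 1))) ≤ 16 := by
      refine (mul_le_mul_of_nonneg_right a3 (by positivity)).trans ?_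
      rw [← mul_div_assoc, div_le_iff₀ (by positivity)]
      nlinarith [mul_nonneg r0 r0, mul_nonneg r0 (mul_nonneg r0 r0)]
    push_cast at *
    linarith

lemma sum_cube_le (c : Bx n1 n2 n3) {ρ : ℤ} (h : 1 ≤ ρ) :
    ∑ w ∈ cube c ρ, 1 / ((sqd w c : ℝ) + 15) ≤ 43 * ρ := by
  obtain ⟨r, rfl⟩ := Int.eq_ofNat_of_zero_le (show 0 ≤ ρ by omega)
  have a1 := sum_cube_aux c r
  have a3 := card_cube_le c (ρ := r) (by omega)
  have r1 : (1 : ℝ) ≤ r := by exact_mod_cast h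
  rw [sum_sub_distrib, sum_const, nsmul_eq_mul] at a1
  push_cast at *
  have a4 : ((cube c r).card : ℝ) * (1 / ((r : ℝ) ^ 2 + 1)) ≤ 27 * r := by
    refine (mul_le_mul_of_nonneg_right a3 (by positivity)).trans ?_
    rw [mul_one_div, div_le_iff₀ (by positivity)]
    have : (2 * (r : ℝ) + 1) ^ 3 ≤ (3 * r) ^ 3 := by gcongr; linarith
    nlinarith
  linarith

/-- a choice of walls -/
structure Walls (n1 n2 n3 : ℕ) where
  k1 : ℤ
  k2 : ℤ
  k3 : ℤ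
  h1 : k1 = -1 ∨ k1 = 2 * n1 - 1
  h2 : k2 = -1 ∨ k2 = 2 * n2 - 1
  h3 : k3 = -1 ∨ k3 = 2 * n3 - 1

/-- the only walls touched by `v` are the chosen ones -/
def Walls.Adm (κ : Walls n1 n2 n3) (v : Bx n1 n2 n3) : Prop :=
  (cX v = 0 → κ.k1 = -1) ∧ (cX v = n1 - 1 → κ.k1 = 2 * n1 - 1) ∧
  (cY v = 0 → κ.k2 = -1) ∧ (cY v = n2 - 1 → κ.k2 = 2 * n2 - 1) ∧
  (cZ v = 0 → κ.k3 = -1) ∧ (cZ v = n3 - 1 → κ.k3 = 2 * n3 - 1)

lemma exists_walls (c : Bx n1 n2 n3) {ρ : ℤ} (h1 : 2 * ρ + 1 < n1) (h2 : 2 * ρ + 1 < n2)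
    (h3 : 2 * ρ + 1 < n3) : ∃ κ : Walls n1 n2 n3, ∀ v ∈ cube c ρ, κ.Adm v := by
  refine ⟨⟨if cX c ≤ ρ then -1 else 2 * n1 - 1, if cY c ≤ ρ then -1 else 2 * n2 - 1,
    if cZ c ≤ ρ then -1 else 2 * n3 - 1, by split_ifs <;> simp, by split_ifs <;> simp,
    by split_ifs <;> simp⟩, fun v hv => ?_⟩
  rw [mem_cube] at hv
  unfold Walls.Adm
  simp only
  refine ⟨fun h => if_pos (by omega), fun h => if_neg (by omega), fun h => if_pos (by omega),
    fun h => if_neg (by omega), fun h => if_pos (by omega), fun h => if_neg (by omega)⟩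

/-- a point or its mirror image -/
def mir (k a : ℤ) (i : Bool) : ℤ := if i then a else k - a

/-- sum of a radial function over the eight images of a centre -/
def imgG (φ : ℤ → ℝ) (κ : Walls n1 n2 n3) (c : Bx n1 n2 n3) (x y z : ℤ) : ℝ :=
  ∑ i : Bool, ∑ j : Bool, ∑ k : Bool, φ ((x - mir κ.k1 (cX c) i) ^ 2 +
    (y - mir κ.k2 (cY c) j) ^ 2 + (z - mir κ.k3 (cZ c) k) ^ 2)

/-- the image barrier -/
def img (φ : ℤ → ℝ) (κ : Walls n1 n2 n3) (c v : Bx n1 n2 n3) : ℝ := imgG φ κ c (cX v) (cY v) (cZ v)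

lemma sum_mir (k a x : ℤ) (h : ℤ → ℝ) :
    ∑ i : Bool, h ((k - x - mir k a i) ^ 2) = ∑ i : Bool, h ((x - mir k a i) ^ 2) := by
  simp only [Fintype.sum_bool, mir, if_true, Bool.false_eq_true, if_false]
  rw [show (k - x - a) ^ 2 = (x - (k - a)) ^ 2 by ring, show (k - x - (k - a)) ^ 2 = (x - a) ^ 2 by ring,
    add_comm]

lemma imgG_refl1 (φ : ℤ → ℝ) (κ : Walls n1 n2 n3) (c : Bx n1 n2 n3) (x y z : ℤ) :
    imgG φ κ c (κ.k1 - x) y z = imgG φ κ c x y z :=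
  sum_mir κ.k1 (cX c) x (fun s => ∑ j : Bool, ∑ k : Bool, φ (s +
    (y - mir κ.k2 (cY c) j) ^ 2 + (z - mir κ.k3 (cZ c) k) ^ 2))

lemma imgG_refl2 (φ : ℤ → ℝ) (κ : Walls n1 n2 n3) (c : Bx n1 n2 n3) (x y z : ℤ) :
    imgG φ κ c x (κ.k2 - y) z = imgG φ κ c x y z :=
  sum_congr rfl fun i _ => sum_mir κ.k2 (cY c) y (fun s => ∑ k : Bool,
    φ ((x - mir κ.k1 (cX c) i) ^ 2 + s + (z - mir κ.k3 (cZ c) k) ^ 2))

lemma imgG_refl3 (φ : ℤ → ℝ) (κ : Walls n1 n2 n3) (c : Bx n1 n2 n3) (x y z : ℤ) :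
    imgG φ κ c x y (κ.k3 - z) = imgG φ κ c x y z :=
  sum_congr rfl fun i _ => sum_congr rfl fun j _ => sum_mir κ.k3 (cZ c) z (fun s =>
    φ ((x - mir κ.k1 (cX c) i) ^ 2 + (y - mir κ.k2 (cY c) j) ^ 2 + s))

lemma lap_img (φ : ℤ → ℝ) (κ : Walls n1 n2 n3) (c : Bx n1 n2 n3) {v : Bx n1 n2 n3}
    (hv : κ.Adm v) :
    lap pk (img φ κ c) v = ∑ i : Bool, ∑ j : Bool, ∑ k : Bool,
      (φ ((cX v - mir κ.k1 (cX c) i) ^ 2 + (cY v - mir κ.k2 (cY c) j) ^ 2 +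
        (cZ v - mir κ.k3 (cZ c) k) ^ 2) -
      nb φ (cX v - mir κ.k1 (cX c) i) (cY v - mir κ.k2 (cY c) j) (cZ v - mir κ.k3 (cZ c) k) / 6) := by
  obtain ⟨a1, a2, a3, a4, a5, a6⟩ := hv
  have b1 : cX v = n1 - 1 → imgG φ κ c (cX v + 1) (cY v) (cZ v) = imgG φ κ c (cX v) (cY v) (cZ v) :=
    fun h => by rw [← imgG_refl1 φ κ c (cX v)]; congr 1; have := a2 h; omega
  have b2 : cX v = 0 → imgG φ κ c (cX v - 1) (cY v) (cZ v) = imgG φ κ c (cX v) (cY v) (cZ v) :=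
    fun h => by rw [← imgG_refl1 φ κ c (cX v)]; congr 1; have := a1 h; omega
  have b3 : cY v = n2 - 1 → imgG φ κ c (cX v) (cY v + 1) (cZ v) = imgG φ κ c (cX v) (cY v) (cZ v) :=
    fun h => by rw [← imgG_refl2 φ κ c (cX v) (cY v)]; congr 1; have := a4 h; omega
  have b4 : cY v = 0 → imgG φ κ c (cX v) (cY v - 1) (cZ v) = imgG φ κ c (cX v) (cY v) (cZ v) :=
    fun h => by rw [← imgG_refl2 φ κ c (cX v) (cY v)]; congr 1; have := a3 h; omega
  have b5 : cZ v = n3 - 1 → imgG φ κ c (cX v) (cY v) (cZ v + 1) = imgG φ κ c (cX v) (cY v) (cZ v) :=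
    fun h => by rw [← imgG_refl3 φ κ c (cX v) (cY v) (cZ v)]; congr 1; have := a6 h; omega
  have b6 : cZ v = 0 → imgG φ κ c (cX v) (cY v) (cZ v - 1) = imgG φ κ c (cX v) (cY v) (cZ v) :=
    fun h => by rw [← imgG_refl3 φ κ c (cX v) (cY v) (cZ v)]; congr 1; have := a5 h; omega
  have c1 := lap_ge v (imgG φ κ c) (fun h => (b1 h).ge) (fun h => (b2 h).ge) (fun h => (b3 h).ge)
    (fun h => (b4 h).ge) (fun h => (b5 h).ge) (fun h => (b6 h).ge)
  have c2 := lap_le v (imgG φ κ c) (fun h => (b1 h).le) (fun h => (b2 h).le) (fun h => (b3 h).le)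
    (fun h => (b4 h).le) (fun h => (b5 h).le) (fun h => (b6 h).le)
  refine (le_antisymm c2 c1).trans ?_
  simp only [six, imgG, nb, sum_sub_distrib, ← sum_div, sum_add_distrib, add_sub_right_comm,
    sub_right_comm _ (1 : ℤ)]

lemma mir_far {n : ℕ} {k a x : ℤ} (hk : k = -1 ∨ k = 2 * n - 1) (ha : 0 ≤ a ∧ a < n)
    (hx : 0 ≤ x ∧ x < n) (i : Bool) : (x - a) ^ 2 ≤ (x - mir k a i) ^ 2 := by
  cases i
  · simp only [mir, Bool.false_eq_true, if_false]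
    rcases hk with h | h
    · nlinarith [mul_nonneg (show 0 ≤ 2 * x - k by omega) (show 0 ≤ 2 * a - k by omega)]
    · nlinarith [mul_nonneg (show 0 ≤ k - 2 * x by omega) (show 0 ≤ k - 2 * a by omega)]
  · simp [mir]

lemma sqd_le_img (κ : Walls n1 n2 n3) (c v : Bx n1 n2 n3) (i j k : Bool) :
    sqd v c ≤ (cX v - mir κ.k1 (cX c) i) ^ 2 + (cY v - mir κ.k2 (cY c) j) ^ 2 +
      (cZ v - mir κ.k3 (cZ c) k) ^ 2 := by
  have := mir_far κ.h1 (bnd c).1 (bnd v).1 i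
  have := mir_far κ.h2 (bnd c).2.1 (bnd v).2.1 j
  have := mir_far κ.h3 (bnd c).2.2 (bnd v).2.2 k
  unfold sqd
  omega

lemma img_le {φ : ℤ → ℝ} (κ : Walls n1 n2 n3) (c v : Bx n1 n2 n3) {a : ℝ}
    (h : ∀ s, sqd v c ≤ s → φ s ≤ a) : img φ κ c v ≤ 8 * a := by
  unfold img imgG
  refine le_trans (sum_le_sum fun i _ => sum_le_sum fun j _ => sum_le_sum fun k _ =>
    h _ (sqd_le_img κ c v i j k)) (le_of_eq ?_)
  simp; ring

lemma le_img {φ : ℤ → ℝ} (κ : Walls n1 n2 n3) (c v : Bx n1 n2 n3)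
    (h : ∀ s, 0 ≤ s → 0 ≤ φ s) : φ (sqd v c) ≤ img φ κ c v := by
  have hn : ∀ i j k : Bool, 0 ≤ φ ((cX v - mir κ.k1 (cX c) i) ^ 2 +
      (cY v - mir κ.k2 (cY c) j) ^ 2 + (cZ v - mir κ.k3 (cZ c) k) ^ 2) :=
    fun i j k => h _ (by positivity)
  refine le_trans ?_ (single_le_sum (fun i _ => sum_nonneg fun j _ => sum_nonneg fun k _ =>
    hn i j k) (mem_univ true))
  refine le_trans ?_ (single_le_sum (fun j _ => sum_nonneg fun k _ => hn true j k) (mem_univ true))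
  exact le_trans (le_of_eq rfl) (single_le_sum (fun k _ => hn true true k) (mem_univ true))

lemma lap_img_psi (κ : Walls n1 n2 n3) (c : Bx n1 n2 n3) {v : Bx n1 n2 n3} (hv : κ.Adm v) :
    (if v = c then 1 / 125 else 0) ≤ lap pk (img psi κ c) v := by
  rw [lap_img psi κ c hv]
  have hn : ∀ i j k : Bool, 0 ≤ psi ((cX v - mir κ.k1 (cX c) i) ^ 2 +
      (cY v - mir κ.k2 (cY c) j) ^ 2 + (cZ v - mir κ.k3 (cZ c) k) ^ 2) -
      nb psi (cX v - mir κ.k1 (cX c) i) (cY v - mir κ.k2 (cY c) j) (cZ v - mir κ.k3 (cZ c) k) / 6 :=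
    fun i j k => by
      have := nb_psi (cX v - mir κ.k1 (cX c) i) (cY v - mir κ.k2 (cY c) j)
        (cZ v - mir κ.k3 (cZ c) k)
      linarith
  split_ifs with h
  · subst h
    refine le_trans ?_ (single_le_sum (fun i _ => sum_nonneg fun j _ => sum_nonneg fun k _ =>
      hn i j k) (mem_univ true))
    refine le_trans ?_ (single_le_sum (fun j _ => sum_nonneg fun k _ => hn true j k) (mem_univ true))
    refine le_trans ?_ (single_le_sum (fun k _ => hn true true k) (mem_univ true))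
    simp only [mir, if_true, sub_self]
    have := nb_psi_zero
    norm_num at *
    linarith
  · exact sum_nonneg fun i _ => sum_nonneg fun j _ => sum_nonneg fun k _ => hn i j k

lemma lap_img_inv1 (κ : Walls n1 n2 n3) (c : Bx n1 n2 n3) {v : Bx n1 n2 n3} (hv : κ.Adm v)
    (h7 : 7 ≤ sqd v c) : lap pk (img inv1 κ c) v ≤ 0 := by
  rw [lap_img inv1 κ c hv]
  refine sum_nonpos fun i _ => sum_nonpos fun j _ => sum_nonpos fun k _ => ?_
  linarith [nb_inv1 (h7.trans (sqd_le_img κ c v i j k))]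

end Pool.Agent.MP_3251d9_pr.H70
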