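import Pool.Agent.MP_3251d9_pr.H70.Sweep
import Pool.Agent.MP_3251d9_pr.H70.Glue

/-! The symmetric class of labellings of a half cube. -/

set_option autoImplicit false

namespace Pool.Agent.MP_3251d9_pr.H70

open Finset Function

variable {n1 n2 n3 : ℕ}

/-- central inversion -/
def inv (n1 n2 n3 : ℕ) : Equiv.Perm (Bx n1 n2 n3) :=
  Fin.revPerm.prodCongr (Fin.revPerm.prodCongr Fin.revPerm)

lemma c_inv (v : Bx n1 n2 n3) : cX (inv n1 n2 n3 v) = n1 - 1 - cX v ∧
    cY (inv n1 n2 n3 v) = n2 - 1 - cY v ∧ cZ (inv n1 n2 n3 v) = n3 - 1 - cZ v := by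
  obtain ⟨a, b, c⟩ := v
  have := a.isLt
  have := b.isLt
  have := c.isLt
  simp only [inv, cX, cY, cZ, Equiv.prodCongr_apply, Prod.map, Fin.revPerm_apply, Fin.val_rev]
  omega

lemma inv_inv (v : Bx n1 n2 n3) : inv n1 n2 n3 (inv n1 n2 n3 v) = v := by
  have h1 := c_inv v
  have h2 := c_inv (inv n1 n2 n3 v)
  exact bx_ext (by omega) (by omega) (by omega)

lemma k1_rev {n : ℕ} (a b : Fin n) : k1 a.rev b.rev = k1 a b := by
  have := a.isLt
  have := b.isLt
  unfold k1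
  simp only [Fin.val_rev, Fin.ext_iff]
  split_ifs <;> first | omega | norm_num

lemma pk_inv (v w : Bx n1 n2 n3) : pk (inv n1 n2 n3 v) (inv n1 n2 n3 w) = pk v w := by
  simp [pk, inv, k1_rev]

lemma mem_map_inv {A : Finset (Bx n1 n2 n3)} {v : Bx n1 n2 n3} :
    v ∈ A.map (inv n1 n2 n3).toEmbedding ↔ inv n1 n2 n3 v ∈ A := by
  rw [mem_map_equiv]
  have : (inv n1 n2 n3).symm v = inv n1 n2 n3 v := by
    rw [Equiv.symm_apply_eq, inv_inv]
  rw [this]

lemma Z_erase_pos (r : Bx n1 n2 n3) : 0 < Z pk (univ.erase r) := by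
  refine Z_pos_of_rank pk_nonneg
    (fun v => (cX v - cX r).natAbs + (cY v - cY r).natAbs + (cZ v - cZ r).natAbs) fun v hv => ?_
  have hv' : ¬ (cX v = cX r ∧ cY v = cY r ∧ cZ v = cZ r) :=
    fun h => ne_of_mem_erase hv (bx_ext h.1 h.2.1 h.2.2)
  have bv := bnd v
  have br := bnd r
  obtain ⟨w, e1, e2, e3⟩ := exists_pt (n1 := n1) (n2 := n2) (n3 := n3)
    (x := if cX v < cX r then cX v + 1 else if cX r < cX v then cX v - 1 else cX v)
    (y := if cX v ≠ cX r then cY v else if cY v < cY r then cY v + 1 else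
      if cY r < cY v then cY v - 1 else cY v)
    (z := if cX v ≠ cX r ∨ cY v ≠ cY r then cZ v else if cZ v < cZ r then cZ v + 1 else cZ v - 1)
    (by split_ifs <;> omega) (by split_ifs <;> omega) (by split_ifs <;> omega)
  refine ⟨w, ?_, by split_ifs at e1 e2 e3 <;> omega⟩
  rw [pk_of_nbr (by unfold Nbr; split_ifs at e1 e2 e3 <;> omega)]
  norm_num

lemma cone_aux {X Y W : ℤ} (hX : 0 < X) (hW : 0 < W) (h : X ^ 2 + Y ^ 2 ≤ 2 * W ^ 2) :
    2 * X ≤ 3 * W := by
  by_contra h'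
  nlinarith [sq_nonneg Y]

lemma disj_inv {n h : ℕ} (hn : n = h + h) (h2 : 2 ≤ h) {v : Bx n n h}
    (h3 : v ∈ Rb n n h ∪ Ch n n h) : inv n n h v ∉ Rb n n h ∪ Ch n n h := by
  intro h4
  have e := c_inv v
  have bv := bnd v
  simp only [mem_union, mem_Rb, mem_Ch, e.1, e.2.1, e.2.2, sub_sub_cancel] at h3 h4
  have a1 : ∀ {X Y W : ℤ}, 0 ≤ X → 0 ≤ Y → 0 ≤ W →
      (2 * X + 1) ^ 2 + (2 * Y + 1) ^ 2 ≤ 2 * (2 * W + 1) ^ 2 →
      2 * (2 * X + 1) ≤ 3 * (2 * W + 1) ∧ 2 * (2 * Y + 1) ≤ 3 * (2 * W + 1) :=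
    fun hX hY hW h => ⟨cone_aux (by omega) (by omega) h,
      cone_aux (by omega) (by omega) (by rwa [add_comm] at h)⟩
  rcases h3 with h3 | h3 <;> rcases h4 with h4 | h4
  · omega
  · have := a1 (by omega) (by omega) (by omega) h4; omega
  · have := a1 (by omega) (by omega) (by omega) h3; omega
  · have := a1 (by omega) (by omega) (by omega) h3
    have := a1 (by omega) (by omega) (by omega) h4
    omega

theorem half_bound : ∃ c : ℝ, 0 < c ∧ ∃ E : ℕ, ∀ (n h : ℕ), n = h + h → 2 ≤ h →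
    ∀ (r a : Bx n n h), (cX r = 1 ∧ cY r = 0 ∧ cZ r = 0) → (cX a = 0 ∧ cY a = 0 ∧ cZ a = 0) →
    ∃ J : Finset (Finset (Bx n n h)), (∀ A ∈ J, a ∉ A ∧ ∀ v, cZ v = 0 → v ≠ a → v ∈ A) ∧
      c / (n : ℝ) ^ E * Z pk (univ.erase r) ^ 2 ≤
      ∑ p ∈ (J ×ˢ J).filter (fun p => p.1.card + p.2.card = n * (n * h)),
        Z (cl pk p.1) ((univ.erase r).erase a) * Z (cl pk p.2) ((univ.erase r).erase a) := by
  obtain ⟨c, c0, E, hE⟩ := box_bound
  refine ⟨c ^ 4, by positivity, E * 4 + 3, fun n h hn h2 r a hr ha => ?_⟩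
  set σ := inv n n h with hσ
  set Ω := Rb n n h ∪ Ch n n h with hΩ
  set P := solid n n h (n - 1) ∪ {σ a} with hP
  have ea := c_inv a
  have er := c_inv r
  have rs : r ∈ solid n n h (n - 1) := by rw [mem_solid]; omega
  have rP : r ∈ P := mem_union_left _ rs
  have PΩ : P ⊆ Ω := by
    refine union_subset (fun v hv => mem_union_left _ ?_) (singleton_subset_iff.2
      (mem_union_right _ ?_))
    · have := bnd v
      rw [mem_solid] at hv; rw [mem_Rb]; omega
    · rw [mem_Ch, ea.1, ea.2.1, ea.2.2, ha.1, ha.2.1, ha.2.2]; norm_num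
  have r1Ω : σ r ∉ Ω := disj_inv hn h2 (PΩ rP)
  have rr1 : σ r ≠ r := fun e => r1Ω (e.symm ▸ PΩ rP)
  have hZ1 := Z_erase_pos (σ r)
  have hΩ1 : Ω ⊆ univ.erase (σ r) := fun v hv =>
    mem_erase.2 ⟨by rintro rfl; exact r1Ω hv, mem_univ _⟩
  have hq := hE n h hn r (σ a) hr (by rw [hσ]; omega) (Z_pos_of_subset pk_nonneg hZ1 hΩ1)
  set J : Finset (Finset (Bx n n h)) := univ.filter fun A => P ⊆ A ∧ ∀ v ∈ P, σ v ∉ A with hJ
  have mJ : ∀ A, A ∈ J ↔ P ⊆ A ∧ ∀ v ∈ P, σ v ∉ A := fun A => by simp [hJ]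
  have aJ : ∀ A ∈ J, a ∉ A := fun A hA => by
    have := ((mJ A).1 hA).2 (σ a) (mem_union_right _ (mem_singleton_self _))
    rwa [hσ, inv_inv] at this
  refine ⟨J, fun A hA => ⟨aJ A hA, fun v hv hva => ((mJ A).1 hA).1 (mem_union_left _ ?_)⟩, ?_⟩
  · have := bnd v
    have : ¬ (cX v = 0 ∧ cY v = 0) := fun h => hva (bx_ext (by omega) (by omega) (by omega))
    rw [mem_solid]; omega
  have two : q pk Ω {r} P * q pk Ω {r} P ≤ Psi pk (univ.erase (σ r)) {r} (fun A => ind (A ∈ J)) := by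
    refine K2 pk_nonneg hZ1 hΩ1 (fun _ => ind_nonneg _) fun Γ h1 h3 h4 => ?_
    have ΓΩ : Γ ⊆ Ω := h4.trans (union_subset (singleton_subset_iff.2 (PΩ rP)) Subset.rfl)
    rw [← q_perm σ pk_inv, map_singleton]
    have hZ2 : 0 < Z pk (univ \ Γ) := Z_pos_of_subset pk_nonneg (Z_erase_pos r) fun v hv =>
      mem_erase.2 ⟨by rintro rfl; exact (mem_sdiff.1 hv).2 (h1 (mem_singleton_self _)), mem_univ _⟩
    refine (q_dom_mono pk_nonneg hZ2 (fun v hv => mem_sdiff.2 ⟨mem_univ _, fun h => ?_⟩) _).trans ?_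
    · exact disj_inv hn h2 (ΓΩ h) (mem_map_inv.1 hv)
    · unfold q Psi
      have e : (univ \ Γ) \ {σ.toEmbedding r} = univ.erase (σ r) \ Γ := by
        ext v; simp [and_comm]
      rw [e]
      refine Pr_mono pk_nonneg fun ρ hρ _ => ind_mono fun h5 => (mJ _).2 ⟨fun v hv => ?_, ?_⟩
      · rw [mem_lab, hρ v (by simp [h3 hv])]; exact h3 hv
      · intro v hv h6
        have := h5 (mem_map_of_mem _ hv)
        rw [mem_lab, mem_singleton] at this
        rw [mem_lab] at h6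
        exact r1Ω (ΓΩ (this ▸ h6))
  set D' := (univ.erase r).erase (σ r) with hD'
  have eD : univ.erase (σ r) \ {r} = D' := by ext v; simp [hD', and_comm]
  have hZD : 0 < Z pk D' := Z_pos_of_subset pk_nonneg (Z_erase_pos r) (erase_subset _ _)
  have rJ : ∀ A ∈ J, r ∈ A := fun A hA => ((mJ A).1 hA).1 rP
  have r1J : ∀ A ∈ J, σ r ∉ A := fun A hA => ((mJ A).1 hA).2 r rP
  have zz : ∀ A ∈ J, Z (cl pk A) ((univ.erase r).erase a) = Z (cl pk A) D' := fun A hA =>
    reroot pk_nonneg pk_symm (rJ A hA) (aJ A hA) (r1J A hA)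
  have s1 : q pk Ω {r} P * q pk Ω {r} P * Z pk D' ≤
      ∑ A ∈ J, Z (cl pk A) ((univ.erase r).erase a) := by
    rw [sum_congr rfl zz]
    unfold Psi Pr at two
    rw [eD, le_div_iff₀ hZD] at two
    refine two.trans (S_le_sum_Z_cl pk_nonneg J fun A hA v hv => ?_)
    simp only [hD', mem_erase, mem_univ, and_true, ne_eq, not_and, not_not] at hv
    by_cases h : v = σ r
    · simp [h, r1J A hA, rr1]
    · simp [hv h, rJ A hA]
  have s2 : Z pk (univ.erase r) ≤ Z pk D' := by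
    have := Z_insert_le (D := D') pk_nonneg (notMem_erase (σ r) _)
    rwa [pk_stoch, one_mul, hD', insert_erase (mem_erase.2 ⟨rr1, mem_univ _⟩)] at this
  have τJ : ∀ A ∈ J, univ.filter (fun v => σ v ∉ A) ∈ J := by
    intro A hA
    obtain ⟨a1, a2⟩ := (mJ A).1 hA
    refine (mJ _).2 ⟨fun v hv => mem_filter.2 ⟨mem_univ _, a2 v hv⟩, fun v hv => ?_⟩
    simp [hσ, inv_inv, a1 hv]
  have cs := cs_sym J (fun A => Z (cl pk A) ((univ.erase r).erase a))
    (fun A => univ.filter fun v => σ v ∉ A) (n * (n * h)) τJ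
    (fun A _ => by ext v; simp [hσ, inv_inv])
    (fun A hA => by
      rw [zz _ (τJ A hA), zz A hA]
      have := Z_transport (c := cl pk (univ.filter fun v => σ v ∉ A)) (c' := cl pk A)
        (cl_nonneg pk_nonneg _) (cl_nonneg pk_nonneg _) σ.toEmbedding ∅ (by simp) D'
        (fun x _ y _ => by
          simp only [cl, Equiv.coe_toEmbedding, hσ, mem_filter, mem_univ, true_and, inv_inv,
            pk_inv, not_iff_not])
        (fun x _ u hu => absurd (inv_inv u) (hu (σ u)))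
      rw [Z_empty, one_mul, empty_union] at this
      rw [← this]
      congr 1
      ext v
      rw [mem_map_inv]
      simp only [hD', mem_erase, mem_univ, and_true, ne_eq, hσ, EmbeddingLike.apply_eq_iff_eq]
      have : inv n n h v = r ↔ v = inv n n h r := by
        constructor
        · rintro rfl; rw [inv_inv]
        · rintro rfl; rw [inv_inv]
      rw [this, and_comm])
    (fun A _ => by
      have : univ.filter (fun v => σ v ∉ A) = Aᶜ.map σ.toEmbedding := by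
        ext v; rw [mem_map_inv]; simp [hσ]
      rw [this, card_map, card_add_card_compl]
      simp)
  have n1 : (1 : ℝ) ≤ h := by exact_mod_cast (show 1 ≤ h by omega)
  have n3 : (n : ℝ) = h + h := by exact_mod_cast hn
  have n4 : ((n * (n * h) : ℕ) : ℝ) + 1 ≤ (n : ℝ) ^ 3 := by
    push_cast; rw [n3]; nlinarith [mul_pos (mul_pos (show (0:ℝ) < h by linarith)
      (show (0:ℝ) < h by linarith)) (show (0:ℝ) < h by linarith), one_le_pow₀ (n := 3) n1]
  have z0 := Z_erase_pos r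
  have p0 : 0 < c / (n : ℝ) ^ E := by rw [n3]; positivity
  have s3 : c / (n : ℝ) ^ E * (c / (n : ℝ) ^ E) * Z pk (univ.erase r) ≤
      ∑ A ∈ J, Z (cl pk A) ((univ.erase r).erase a) :=
    le_trans (mul_le_mul (mul_le_mul hq hq p0.le (q_nonneg pk_nonneg _)) s2 z0.le
      (mul_nonneg (q_nonneg pk_nonneg _) (q_nonneg pk_nonneg _))) s1
  have s4 := (pow_le_pow_left₀ (by positivity) s3 2).trans (cs.trans (mul_le_mul_of_nonneg_right n4
    (sum_nonneg fun p _ => mul_nonneg (Z_nonneg (cl_nonneg pk_nonneg _) _)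
      (Z_nonneg (cl_nonneg pk_nonneg _) _))))
  have n0 : (0 : ℝ) < n := by linarith
  refine le_of_mul_le_mul_left (le_trans (le_of_eq ?_) s4) (pow_pos n0 3)
  rw [pow_add, pow_mul]
  field_simp

end Pool.Agent.MP_3251d9_pr.H70
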