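import Pool.Agent.MP_3251d9_pr.H70.Forest

/-! Harmonicity, maximum principle, Green function, transport. -/

set_option autoImplicit false

namespace Pool.Agent.MP_3251d9_pr.H70

open Finset Function

variable {V : Type*} [Fintype V] [DecidableEq V] {c : V → V → ℝ} {D : Finset V}

/-- weighted Laplacian -/
def lap (c : V → V → ℝ) (f : V → ℝ) (x : V) : ℝ := ∑ y, c x y * (f x - f y)

omit [DecidableEq V] in
lemma lap_add (f g : V → ℝ) (x : V) : lap c (fun v => f v + g v) x = lap c f x + lap c g x := by
  unfold lap; rw [← sum_add_distrib]; exact sum_congr rfl fun _ _ => by ring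
omit [DecidableEq V] in
lemma lap_sub (f g : V → ℝ) (x : V) : lap c (fun v => f v - g v) x = lap c f x - lap c g x := by
  unfold lap; rw [← sum_sub_distrib]; exact sum_congr rfl fun _ _ => by ring
omit [DecidableEq V] in
lemma lap_mul (a : ℝ) (f : V → ℝ) (x : V) : lap c (fun v => a * f v) x = a * lap c f x := by
  unfold lap; rw [mul_sum]; exact sum_congr rfl fun _ _ => by ring
omit [DecidableEq V] in
lemma lap_div (a : ℝ) (f : V → ℝ) (x : V) : lap c (fun v => f v / a) x = lap c f x / a := by
  unfold lap; rw [sum_div]; exact sum_congr rfl fun _ _ => by ring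
omit [DecidableEq V] in
lemma lap_const (a : ℝ) (x : V) : lap c (fun _ => a) x = 0 := by simp [lap]
omit [DecidableEq V] in
lemma lap_sum {ι : Type*} (s : Finset ι) (f : ι → V → ℝ) (x : V) :
    lap c (fun v => ∑ i ∈ s, f i v) x = ∑ i ∈ s, lap c (f i) x := by
  unfold lap; rw [sum_comm]
  refine sum_congr rfl fun _ _ => ?_
  rw [← sum_sub_distrib, mul_sum]
omit [DecidableEq V] in
lemma lap_stoch (hs : ∀ x, ∑ y, c x y = 1) (f : V → ℝ) (x : V) :
    lap c f x = f x - ∑ y, c x y * f y := by
  unfold lap
  simp only [mul_sub, sum_sub_distrib, ← sum_mul, hs, one_mul]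

lemma S_eq_zero {Φ : (V → V) → ℝ} (h : ∀ F, IsForest D F → Φ F = 0) : S c D Φ = 0 := by
  rw [S_congr h, S_zero]

lemma S_insert_root {x : V} (hx : x ∉ D) (Φ : (V → V) → ℝ) :
    S c (insert x D) (fun F => Φ (root F)) = ∑ y, c x y * S c D (fun F =>
      if root F y = x then 0 else Φ (fun v => if root F v = x then root F y else root F v)) := by
  rw [S_insert hx]
  refine sum_congr rfl fun y _ => ?_
  congr 1
  refine S_congr fun F hF => ?_
  split_ifs with h
  · rfl
  · congr 1; funext v; exact root_update hx hF h v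

lemma Z_insert {x : V} (hx : x ∉ D) :
    Z c (insert x D) = ∑ y, c x y * S c D (fun F => if root F y = x then 0 else 1) :=
  S_insert hx _

/-- the root distribution is harmonic -/
lemma lap_S_root {x : V} (hx : x ∈ D) (φ : V → ℝ) :
    lap c (fun v => S c D (fun F => φ (root F v))) x = 0 := by
  obtain ⟨D0, hx0, rfl⟩ : ∃ D0, x ∉ D0 ∧ D = insert x D0 :=
    ⟨D.erase x, notMem_erase _ _, (insert_erase hx).symm⟩
  have h1 : ∀ w, S c (insert x D0) (fun F => φ (root F x)) - S c (insert x D0) (fun F => φ (root F w))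
      = ∑ y, c x y * S c D0 (fun F => if root F y = x then 0 else if root F w = x then 0 else
        φ (root F y) - φ (root F w)) := by
    intro w
    rw [S_insert_root hx0 (fun ρ => φ (ρ x)), S_insert_root hx0 (fun ρ => φ (ρ w)),
      ← sum_sub_distrib]
    refine sum_congr rfl fun y _ => ?_
    rw [← mul_sub, ← S_sub]
    congr 1
    refine S_congr fun F hF => ?_
    beta_reduce
    rw [hF.root_of_not_mem hx0]
    split_ifs <;> simp_all
  unfold lap
  simp only [h1, mul_sum]
  set T : V → V → ℝ := fun w y => c x w * (c x y * S c D0 (fun F => if root F y = x then 0 else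
    if root F w = x then 0 else φ (root F y) - φ (root F w))) with hT
  have anti : ∀ w y, T w y = - T y w := by
    intro w y
    simp only [hT]
    have : S c D0 (fun F => if root F y = x then 0 else
        if root F w = x then 0 else φ (root F y) - φ (root F w)) =
        -1 * S c D0 (fun F => if root F w = x then 0 else
        if root F y = x then 0 else φ (root F w) - φ (root F y)) := by
      rw [← S_mul]
      refine S_congr fun F _ => ?_
      split_ifs <;> ring
    rw [this]; ring
  have : ∑ w, ∑ y, T w y = - ∑ w, ∑ y, T w y := by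
    conv_rhs => rw [sum_comm]
    simp only [← sum_neg_distrib]
    exact sum_congr rfl fun w _ => sum_congr rfl fun y _ => anti w y
  change ∑ w, ∑ y, T w y = 0
  linarith

lemma exists_forest_of_Z_pos (hc : ∀ v w, 0 ≤ c v w) (hZ : 0 < Z c D) :
    ∃ F, IsForest D F ∧ ∀ v ∈ D, 0 < c v (F v) := by
  by_contra h
  push Not at h
  have : Z c D ≤ S c D (fun _ => 0) := by
    refine S_mono' hc fun F hF hw => ?_
    obtain ⟨v, hv, h0⟩ := h F hF
    have : wt c D F = 0 := prod_eq_zero hv (le_antisymm h0 (hc _ _))
    exact absurd hw (by rw [this]; exact lt_irrefl _)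
  rw [S_zero] at this
  linarith

lemma Z_pos_of_forest (hc : ∀ v w, 0 ≤ c v w) {F : V → V} (hF : IsForest D F)
    (h : ∀ v ∈ D, 0 < c v (F v)) : 0 < Z c D := by
  classical
  unfold Z S
  refine lt_of_lt_of_le ?_ (single_le_sum (f := fun F => if IsForest D F then wt c D F * 1 else 0)
    (fun G _ => ?_) (mem_univ F))
  · simp only [hF, if_true, mul_one]
    exact prod_pos h
  · split_ifs
    · rw [mul_one]; exact wt_nonneg hc _ _
    · exact le_rfl

lemma Z_pos_of_rank (hc : ∀ v w, 0 ≤ c v w) (rk : V → ℕ)
    (h : ∀ v ∈ D, ∃ y, 0 < c v y ∧ rk y < rk v) : 0 < Z c D := by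
  classical
  choose! f hf using h
  refine Z_pos_of_forest hc (F := fun v => if v ∈ D then f v else v) ⟨fun v hv => by simp [hv], ?_⟩
    (fun v hv => by simpa [hv] using (hf v hv).1)
  intro v
  induction hr : rk v using Nat.strong_induction_on generalizing v with
  | _ n ih =>
    by_cases hv : v ∈ D
    · obtain ⟨k, hk⟩ := ih (rk (f v)) (hr ▸ (hf v hv).2) (f v) rfl
      exact ⟨k + 1, by rw [Function.iterate_succ_apply]; simpa [hv] using hk⟩
    · exact ⟨0, hv⟩

/-- maximum principle -/
lemma max_principle (hc : ∀ v w, 0 ≤ c v w) (hZ : 0 < Z c D) {f : V → ℝ}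
    (hsub : ∀ x ∈ D, lap c f x ≤ 0) (hb : ∀ x ∈ D, ∀ y, y ∉ D → 0 < c x y → f y ≤ 0) :
    ∀ x ∈ D, f x ≤ 0 := by
  intro x0 hx0
  obtain ⟨F, hF, hpos⟩ := exists_forest_of_Z_pos hc hZ
  obtain ⟨m, hm, hmax⟩ := exists_max_image D f ⟨x0, hx0⟩
  by_contra hlt
  have hM : 0 < f m := lt_of_lt_of_le (not_le.1 hlt) (hmax x0 hx0)
  have key : ∀ v, v ∈ D → f v = f m → False := by
    intro v
    refine hF.induction (P := fun v => v ∈ D → f v = f m → False) (fun v hv h => absurd h hv) ?_ v
    intro v hv ih _ hfv
    have hnn : ∀ y ∈ (univ : Finset V), 0 ≤ c v y * (f v - f y) := by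
      intro y _
      rcases (hc v y).eq_or_lt with h0 | h0
      · rw [← h0]; simp
      · refine mul_nonneg h0.le ?_
        by_cases hy : y ∈ D
        · linarith [hmax y hy]
        · linarith [hb v hv y hy h0]
    have hz : lap c f v = 0 := le_antisymm (hsub v hv) (sum_nonneg hnn)
    have := (sum_eq_zero_iff_of_nonneg hnn).1 hz (F v) (mem_univ _)
    have h2 : f (F v) = f m := by
      rcases mul_eq_zero.1 this with h | h
      · exact absurd h (hpos v hv).ne'
      · linarith
    by_cases hy : F v ∈ D
    · exact ih hy h2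
    · linarith [hb v hv _ hy (hpos v hv)]
  exact key m hm rfl

/-- comparison form of the maximum principle -/
lemma compare_nbr (hc : ∀ v w, 0 ≤ c v w) (hZ : 0 < Z c D) {f g : V → ℝ}
    (hsub : ∀ x ∈ D, lap c f x ≤ lap c g x) (hb : ∀ x ∈ D, ∀ y, y ∉ D → 0 < c x y → f y ≤ g y) :
    ∀ x ∈ D, f x ≤ g x := by
  intro x hx
  have := max_principle hc hZ (f := fun v => f v - g v)
    (fun x hx => by rw [lap_sub]; linarith [hsub x hx])
    (fun x hx y hy h => by linarith [hb x hx y hy h]) x hx
  linarith

lemma compare_all (hc : ∀ v w, 0 ≤ c v w) (hZ : 0 < Z c D) {f g : V → ℝ}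
    (hsub : ∀ x ∈ D, lap c f x ≤ lap c g x) (hb : ∀ y, y ∉ D → f y ≤ g y) (x : V) :
    f x ≤ g x := by
  by_cases hx : x ∈ D
  · exact compare_nbr hc hZ hsub (fun _ _ y hy _ => hb y hy) x hx
  · exact hb x hx

lemma Z_insert_le (hc : ∀ v w, 0 ≤ c v w) {x : V} (hx : x ∉ D) :
    Z c (insert x D) ≤ (∑ y, c x y) * Z c D := by
  rw [Z_insert hx, sum_mul]
  refine sum_le_sum fun y _ => mul_le_mul_of_nonneg_left (S_mono hc fun F _ => ?_) (hc _ _)
  split_ifs <;> norm_num

lemma Z_insert_ge (hc : ∀ v w, 0 ≤ c v w) {x y : V} (hx : x ∉ D) (hy : y ∉ D) (hxy : y ≠ x) :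
    c x y * Z c D ≤ Z c (insert x D) := by
  rw [Z_insert hx]
  refine le_trans (le_of_eq ?_) (single_le_sum
    (f := fun y => c x y * S c D (fun F => if root F y = x then 0 else 1))
    (fun y _ => mul_nonneg (hc _ _) (S_nonneg hc fun F _ => by split_ifs <;> norm_num)) (mem_univ y))
  congr 1
  refine S_congr fun F hF => ?_
  rw [hF.root_of_not_mem hy, if_neg hxy]

lemma Z_pos_of_subset (hc : ∀ v w, 0 ≤ c v w) (hZ : 0 < Z c D) {D' : Finset V} (h : D' ⊆ D) :
    0 < Z c D' := by
  obtain ⟨F, hF, hpos⟩ := exists_forest_of_Z_pos hc hZ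
  refine Z_pos_of_forest hc (F := fun v => if v ∈ D' then F v else v)
    ⟨fun v hv => by simp [hv], fun v => ?_⟩ (fun v hv => by simpa [hv] using hpos v (h hv))
  refine hF.induction (P := fun v => ∃ k, (fun v => if v ∈ D' then F v else v)^[k] v ∉ D') ?_ ?_ v
  · intro v hv; exact ⟨0, fun h' => hv (h h')⟩
  · intro v _ ⟨k, hk⟩
    by_cases hv : v ∈ D'
    · exact ⟨k + 1, by rw [Function.iterate_succ_apply]; simpa [hv] using hk⟩
    · exact ⟨0, hv⟩

/-- adjugate entry -/
noncomputable def adj (c : V → V → ℝ) (D : Finset V) (v u : V) : ℝ :=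
  S c (D.erase u) fun F => if root F v = u then 1 else 0

/-- Green function -/
noncomputable def green (c : V → V → ℝ) (D : Finset V) (v u : V) : ℝ :=
  if u ∈ D then adj c D v u / Z c D else 0

lemma adj_self (u : V) : adj c D u u = Z c (D.erase u) :=
  S_congr fun F hF => by rw [hF.root_of_not_mem (notMem_erase _ _), if_pos rfl]

lemma adj_nonneg (hc : ∀ v w, 0 ≤ c v w) (v u : V) : 0 ≤ adj c D v u :=
  S_nonneg hc fun F _ => by split_ifs <;> norm_num

lemma adj_of_not_mem {v u : V} (hv : v ∉ D) (hu : u ∈ D) : adj c D v u = 0 := by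
  refine S_eq_zero fun F hF => ?_
  rw [hF.root_of_not_mem (fun h => hv (mem_of_mem_erase h)), if_neg]
  rintro rfl; exact hv hu

lemma lap_adj {x u : V} (hx : x ∈ D) (hu : u ∈ D) :
    lap c (fun v => adj c D v u) x = if x = u then Z c D else 0 := by
  split_ifs with h
  · subst h
    conv_rhs => rw [← insert_erase hx, Z_insert (notMem_erase _ _)]
    refine sum_congr rfl fun y _ => ?_
    congr 1
    beta_reduce
    rw [adj_self, adj, Z, ← S_sub]
    refine S_congr fun F _ => ?_
    split_ifs <;> norm_num
  · exact lap_S_root (mem_erase.2 ⟨h, hx⟩) (fun r => if r = u then 1 else 0)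

lemma adj_symm (hc : ∀ v w, 0 ≤ c v w) (hs : ∀ v w, c v w = c w v) {u v : V} (hu : u ∈ D)
    (hv : v ∈ D) : adj c D v u = adj c D u v := by
  by_cases huv : u = v
  · rw [huv]
  set D' := (D.erase u).erase v with hD'
  have hvD : v ∉ D' := notMem_erase _ _
  have huD : u ∉ D' := fun h => notMem_erase u D (mem_of_mem_erase h)
  have e1 : D.erase u = insert v D' := (insert_erase (mem_erase.2 ⟨Ne.symm huv, hv⟩)).symm
  have e2 : D.erase v = insert u D' := by
    rw [hD', erase_right_comm]; exact (insert_erase (mem_erase.2 ⟨huv, hu⟩)).symm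
  set H : V → V → ℝ := fun r w => S c D' fun F => if root F w = r then 1 else 0 with hH
  have a1 : ∀ {u v : V}, u ≠ v → v ∉ D' → D.erase u = insert v D' →
      adj c D v u = ∑ w, c v w * H u w := by
    intro u v huv hvD e1
    rw [adj, e1, S_insert_root hvD (fun ρ => if ρ v = u then 1 else 0)]
    refine sum_congr rfl fun w _ => ?_
    congr 1
    refine S_congr fun F hF => ?_
    beta_reduce
    rw [hF.root_of_not_mem hvD]
    split_ifs <;> simp_all
  rw [a1 huv hvD e1, a1 (Ne.symm huv) huD e2]
  have Hb : ∀ r w, w ∉ D' → H r w = if w = r then Z c D' else 0 := by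
    intro r w hw
    simp only [hH]
    split_ifs with h
    · exact S_congr fun F hF => by rw [hF.root_of_not_mem hw, if_pos h]
    · exact S_eq_zero fun F hF => by rw [hF.root_of_not_mem hw, if_neg h]
  have Hle : ∀ r w, H r w ≤ Z c D' := fun r w => S_mono hc fun F _ => by split_ifs <;> norm_num
  have Hnn : ∀ r w, 0 ≤ H r w := fun r w => S_nonneg hc fun F _ => by split_ifs <;> norm_num
  rcases (Z_nonneg hc D').eq_or_lt with h0 | h0
  · have : ∀ r w, H r w = 0 := fun r w => le_antisymm (h0 ▸ Hle r w) (Hnn r w)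
    simp [this]
  have tot : ∑ x, ∑ w, c x w * (H u w * H v x - H u x * H v w) = 0 := by
    simp only [mul_sub, sum_sub_distrib]
    rw [sum_comm, sub_eq_zero]
    exact sum_congr rfl fun x _ => sum_congr rfl fun w _ => by rw [hs]
  have pt : ∀ x, ∑ w, c x w * (H u w * H v x - H u x * H v w) =
      (if x = v then Z c D' * ∑ w, c v w * H u w else 0) -
      (if x = u then Z c D' * ∑ w, c u w * H v w else 0) := by
    intro x
    by_cases hx : x ∈ D'
    · have h1 := lap_S_root (c := c) hx (fun r => if r = u then 1 else 0)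
      have h2 := lap_S_root (c := c) hx (fun r => if r = v then 1 else 0)
      have : ∑ w, c x w * (H u w * H v x - H u x * H v w) =
          H u x * lap c (H v) x - H v x * lap c (H u) x := by
        unfold lap
        rw [mul_sum, mul_sum, ← sum_sub_distrib]
        exact sum_congr rfl fun w _ => by ring
      rw [this]
      change lap c (H u) x = 0 at h1
      change lap c (H v) x = 0 at h2
      rw [h1, h2, if_neg (by rintro rfl; exact hvD hx), if_neg (by rintro rfl; exact huD hx)]
      simp
    · rw [Hb u x hx, Hb v x hx]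
      by_cases h1 : x = v
      · subst h1
        simp only [if_true, if_neg (Ne.symm huv), mul_sum]
        rw [sub_zero]; exact sum_congr rfl fun w _ => by ring
      · by_cases h2 : x = u
        · subst h2
          simp only [if_true, if_neg h1, mul_sum]
          rw [zero_sub, ← sum_neg_distrib]; exact sum_congr rfl fun w _ => by ring
        · simp [h1, h2]
  simp only [pt, sum_sub_distrib, sum_ite_eq', mem_univ, if_true] at tot
  rw [sub_eq_zero] at tot
  exact mul_left_cancel₀ h0.ne' tot

lemma green_nonneg (hc : ∀ v w, 0 ≤ c v w) (v u : V) : 0 ≤ green c D v u := by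
  unfold green; split_ifs
  · exact div_nonneg (adj_nonneg hc _ _) (Z_nonneg hc _)
  · exact le_rfl

lemma green_of_not_mem {v : V} (hv : v ∉ D) (u : V) : green c D v u = 0 := by
  unfold green; split_ifs with h
  · rw [adj_of_not_mem hv h]; simp
  · rfl

lemma lap_green (hZ : 0 < Z c D) {x : V} (hx : x ∈ D) (u : V) :
    lap c (fun v => green c D v u) x = if x = u then 1 else 0 := by
  unfold green
  by_cases hu : u ∈ D
  · simp only [hu, if_true]
    rw [lap_div, lap_adj hx hu]
    split_ifs
    · exact div_self hZ.ne'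
    · simp
  · simp only [hu, if_false]
    rw [lap_const, if_neg]; rintro rfl; exact hu hx

lemma green_symm (hc : ∀ v w, 0 ≤ c v w) (hs : ∀ v w, c v w = c w v) (u v : V) :
    green c D v u = green c D u v := by
  by_cases hu : u ∈ D
  · by_cases hv : v ∈ D
    · simp only [green, hu, hv, if_true, adj_symm hc hs hu hv]
    · rw [green_of_not_mem hv]; simp [green, hv]
  · rw [green_of_not_mem hu]; simp [green, hu]

lemma green_self {u : V} (hu : u ∈ D) : green c D u u = Z c (D.erase u) / Z c D := by
  rw [green, if_pos hu, adj_self]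

lemma green_mono (hc : ∀ v w, 0 ≤ c v w) (hZ : 0 < Z c D) {D' : Finset V} (h : D' ⊆ D)
    (v u : V) : green c D' v u ≤ green c D v u := by
  have hZ' := Z_pos_of_subset hc hZ h
  refine compare_all hc hZ' (f := fun v => green c D' v u) (g := fun v => green c D v u) ?_ ?_ v
  · intro x hx; rw [lap_green hZ' hx, lap_green hZ (h hx)]
  · intro y hy; rw [green_of_not_mem hy]; exact green_nonneg hc _ _

/-- comparison of a Green potential with a supersolution -/
lemma green_sum_le (hc : ∀ v w, 0 ≤ c v w) (hZ : 0 < Z c D) {a b : V → ℝ}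
    (hb : ∀ x ∈ D, a x ≤ lap c b x) (h0 : ∀ x ∈ D, ∀ y, y ∉ D → 0 < c x y → 0 ≤ b y) :
    ∀ x ∈ D, ∑ w ∈ D, green c D x w * a w ≤ b x := by
  refine compare_nbr hc hZ (f := fun v => ∑ w ∈ D, green c D v w * a w) ?_ ?_
  · intro x hx
    rw [lap_sum]
    have : ∀ w ∈ D, lap c (fun v => green c D v w * a w) x = if x = w then a w else 0 := by
      intro w _
      have := lap_mul (c := c) (a w) (fun v => green c D v w) x
      simp only [mul_comm (a w)] at this
      rw [this, lap_green hZ hx]; split_ifs <;> simp
    rw [sum_congr rfl this, sum_ite_eq, if_pos hx]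
    exact hb x hx
  · intro x hx y hy h
    simp only [green_of_not_mem hy, zero_mul, sum_const_zero]
    exact h0 x hx y hy h

/-- transport of the partition function along an injection -/
lemma Z_transport {W : Type*} [Fintype W] [DecidableEq W] {c' : W → W → ℝ}
    (hc : ∀ v w, 0 ≤ c v w) (hc' : ∀ v w, 0 ≤ c' v w) (ι : W ↪ V) (D0 : Finset V)
    (h0 : ∀ w, ι w ∉ D0) (E : Finset W) (h1 : ∀ x ∈ E, ∀ y, y ≠ x → c (ι x) (ι y) = c' x y)
    (h2 : ∀ x ∈ E, ∀ u, (∀ w, ι w ≠ u) → c (ι x) u = 0) :
    Z c (D0 ∪ E.map ι) = Z c D0 * Z c' E := by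
  induction E using Finset.induction_on with
  | empty => simp [Z_empty]
  | insert x E hx ih =>
    have ih := ih (fun y hy => h1 y (mem_insert_of_mem hy)) (fun y hy => h2 y (mem_insert_of_mem hy))
    have hmem : ∀ w, ι w ∈ D0 ∪ E.map ι ↔ w ∈ E := by
      intro w; simp [h0 w]
    have hx' : ι x ∉ D0 ∪ E.map ι := by rw [hmem]; exact hx
    have hsum : ∀ z ∈ insert x E, ∀ g : V → ℝ, g (ι z) = 0 →
        ∑ u, c (ι z) u * g u = ∑ w, c' z w * g (ι w) := by
      intro z hz g hg
      rw [← sum_subset (subset_univ (univ.map ι)), sum_map]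
      · refine sum_congr rfl fun w _ => ?_
        by_cases hw : w = z
        · rw [hw, hg]; simp
        · rw [h1 z hz w hw]
      · intro u _ hu
        rw [h2 z hz u (by simpa using hu)]; simp
    rw [map_insert, union_insert, Z_insert hx', Z_insert hx, mul_sum]
    set a : V → ℝ := fun u => S c (D0 ∪ E.map ι) fun F => if root F u = ι x then 0 else 1 with ha
    set b : W → ℝ := fun w => S c' E fun F => if root F w = x then 0 else 1 with hb
    have hax : a (ι x) = 0 := by
      exact S_eq_zero fun F hF => by rw [hF.root_of_not_mem hx', if_pos rfl]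
    rw [hsum x (mem_insert_self _ _) a hax]
    have hab : ∀ w, a (ι w) = Z c D0 * b w := by
      rcases (Z_nonneg hc' E).eq_or_lt with hz | hz
      · intro w
        have e1 : a (ι w) = 0 := by
          refine le_antisymm ?_ (S_nonneg hc fun F _ => by split_ifs <;> norm_num)
          rw [← hz, mul_zero] at ih
          rw [← ih]; exact S_mono hc fun F _ => by split_ifs <;> norm_num
        have e2 : b w = 0 := by
          refine le_antisymm ?_ (S_nonneg hc' fun F _ => by split_ifs <;> norm_num)
          rw [hz]; exact S_mono hc' fun F _ => by split_ifs <;> norm_num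
        rw [e1, e2, mul_zero]
      · have l1 : ∀ z ∈ E, lap c' (fun w => a (ι w)) z = 0 := by
          intro z hz
          have := lap_S_root (c := c) ((hmem z).2 hz) (fun r => if r = ι x then 0 else 1)
          change lap c a (ι z) = 0 at this
          rw [← this, lap, lap, hsum z (mem_insert_of_mem hz) (fun u => a (ι z) - a u) (by simp)]
        have l2 : ∀ z ∈ E, lap c' (fun w => Z c D0 * b w) z = 0 := by
          intro z hz
          have := lap_S_root (c := c') hz (fun r => if r = x then 0 else 1)
          change lap c' b z = 0 at this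
          rw [lap_mul, this, mul_zero]
        have bd : ∀ w, w ∉ E → a (ι w) = Z c D0 * b w := by
          intro w hw
          have e1 : a (ι w) = (if w = x then 0 else 1) * Z c (D0 ∪ E.map ι) := by
            rw [← S_const]
            refine S_congr fun F hF => ?_
            rw [hF.root_of_not_mem (by rw [hmem]; exact hw)]
            simp
          have e2 : b w = (if w = x then 0 else 1) * Z c' E := by
            rw [← S_const]
            exact S_congr fun F hF => by rw [hF.root_of_not_mem hw]
          rw [e1, e2, ih]; ring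
        intro w
        refine le_antisymm ?_ ?_
        · exact compare_all hc' hz (f := fun w => a (ι w)) (g := fun w => Z c D0 * b w)
            (fun z hz => by rw [l1 z hz, l2 z hz]) (fun y hy => (bd y hy).le) w
        · exact compare_all hc' hz (g := fun w => a (ι w)) (f := fun w => Z c D0 * b w)
            (fun z hz => by rw [l1 z hz, l2 z hz]) (fun y hy => (bd y hy).ge) w
    refine sum_congr rfl fun w _ => ?_
    rw [hab]; ring

/-- equivariance under a permutation preserving the weights -/
lemma S_perm (σ : Equiv.Perm V) (hσ : ∀ v w, c (σ v) (σ w) = c v w) (Φ : (V → V) → ℝ) :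
    S c (D.map σ.toEmbedding) (fun F => Φ (root F)) =
      S c D (fun F => Φ (fun v => σ (root F (σ.symm v)))) := by
  classical
  unfold S
  symm
  refine Fintype.sum_equiv (σ.arrowCongr σ) _ _ fun F => ?_
  have hit : ∀ k v, ((σ.arrowCongr σ) F)^[k] (σ v) = σ (F^[k] v) := by
    intro k
    induction k with
    | zero => intro v; rfl
    | succ k ih => intro v; simp [Function.iterate_succ_apply, ← ih]
  have hiff : IsForest (D.map σ.toEmbedding) ((σ.arrowCongr σ) F) ↔ IsForest D F := by
    constructor
    · rintro ⟨h1, h2⟩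
      refine ⟨fun v hv => ?_, fun v => ?_⟩
      · simpa using h1 (σ v) (by simpa using hv)
      · obtain ⟨k, hk⟩ := h2 (σ v)
        exact ⟨k, by simpa [hit] using hk⟩
    · rintro ⟨h1, h2⟩
      refine ⟨fun v hv => ?_, fun v => ?_⟩
      · have := h1 (σ.symm v) (by simpa using hv)
        simp [this]
      · obtain ⟨k, hk⟩ := h2 (σ.symm v)
        refine ⟨k, ?_⟩
        have := hit k (σ.symm v)
        rw [Equiv.apply_symm_apply] at this
        rw [this]; simpa using hk
  by_cases hF : IsForest D F
  · rw [if_pos hF, if_pos (hiff.2 hF)]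
    congr 1
    · unfold wt; rw [prod_map]
      exact prod_congr rfl fun v _ => by simp [hσ]
    · refine congrArg Φ (funext fun v => ?_)
      symm
      refine (hiff.2 hF).root_unique (ρ := fun v => σ (root F (σ.symm v))) ?_ ?_ v
      · intro v hv
        rw [hF.root_of_not_mem (by simpa using hv)]; simp
      · intro v _
        simp [hF.root_step]
  · rw [if_neg hF, if_neg (fun h => hF (hiff.1 h))]

end Pool.Agent.MP_3251d9_pr.H70
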