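import Pool.Agent.MP_3251d9_pr.H70.Walk

/-! Second moment bound for the intersection of a loop-erased walk with an independent walk. -/

set_option autoImplicit false

namespace Pool.Agent.MP_3251d9_pr.H70

open Finset Function
open scoped ENNReal

variable {V : Type*} [Fintype V] [DecidableEq V] {p : V → V → ℝ} {Ω Γ Bin Bout : Finset V}

lemma Wf_surv (hp : ∀ v w, 0 ≤ p v w) (hs : ∀ x, ∑ y, p x y = 1) (hZ : 0 < Z p Bout) (z : V) :
    ENNReal.ofReal (surv p Bout Γ z) ≤ Wf p (Bout \ Γ) z (fun _ e => eind (e ∉ Γ)) := by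
  refine le_Wf_exit hp hs (Z_pos_of_subset hp hZ sdiff_subset) (φ := fun e => ind (e ∉ Γ))
    (fun _ => ind_nonneg _) (fun _ => ind_le_one _) (fun x hx => (lap_surv hx).le) ?_ z
  intro x _
  by_cases h : x ∈ Γ
  · rw [surv_of_mem h]; exact ind_nonneg _
  · rw [ind_of h]; exact surv_le_one hp hZ _

lemma Wf_noreturn (hp : ∀ v w, 0 ≤ p v w) (hs : ∀ x, ∑ y, p x y = 1) (hZ : 0 < Z p Ω)
    {b : V → ℝ} (hb0 : ∀ v, 0 ≤ b v) (hb1 : ∀ v ∈ Bin, 1 ≤ b v)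
    (hb2 : ∀ v ∈ Ω, v ∉ Bin → 0 ≤ lap p b v) {e : V} (he : b e ≤ 1 / 2) :
    ENNReal.ofReal (1 / 2) ≤ Wf p (Ω \ Γ) e (fun s _ => if ∃ v ∈ s, v ∈ Bin then 0 else 1) := by
  have h1 := Wf_hit_le (D := Ω \ Γ) hp hs Bin (φ := fun _ => 1) (u0 := fun _ => 1) (u := b)
    (fun _ => zero_le_one) (fun x _ => (lap_const 1 x).ge) (fun _ _ => le_rfl) hb0
    (fun x hx hx' => hb2 x (mem_sdiff.1 hx).1 hx') (fun x _ hx => hb1 x hx) e
  have h2 := le_Wf_exit (D := Ω \ Γ) hp hs (Z_pos_of_subset hp hZ sdiff_subset) (φ := fun _ => 1)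
    (u := fun _ => 1) (fun _ => zero_le_one) (fun _ => le_rfl) (fun x _ => (lap_const 1 x).le)
    (fun _ _ => le_rfl) e
  have h3 : Wf p (Ω \ Γ) e (fun _ _ => ENNReal.ofReal 1) =
      Wf p (Ω \ Γ) e (fun s _ => if ∃ v ∈ s, v ∈ Bin then 0 else 1) +
      Wf p (Ω \ Γ) e (fun s _ => if ∃ v ∈ s, v ∈ Bin then ENNReal.ofReal 1 else 0) := by
    rw [← Wf_add]
    congr 1
    funext l e
    split_ifs <;> simp
  have h4 : ENNReal.ofReal (1 / 2) + ENNReal.ofReal (1 / 2) ≤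
      Wf p (Ω \ Γ) e (fun s _ => if ∃ v ∈ s, v ∈ Bin then 0 else 1) + ENNReal.ofReal (1 / 2) := by
    rw [← ENNReal.ofReal_add (by norm_num) (by norm_num), show (1 / 2 : ℝ) + 1 / 2 = 1 by norm_num]
    refine h2.trans ?_
    rw [h3]
    exact add_le_add le_rfl (h1.trans (ENNReal.ofReal_le_ofReal he))
  exact (ENNReal.add_le_add_iff_right ENNReal.ofReal_ne_top).1 h4

lemma lps_core (hp : ∀ v w, 0 ≤ p v w) (hs : ∀ x, ∑ y, p x y = 1) (hZ : 0 < Z p Ω)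
    (h2 : Bout ⊆ Ω) {b : V → ℝ} (hb0 : ∀ v, 0 ≤ b v) (hb1 : ∀ v ∈ Bin, 1 ≤ b v)
    (hb2 : ∀ v ∈ Ω, v ∉ Bin → 0 ≤ lap p b v) (hb3 : ∀ v, v ∉ Bout → b v ≤ 1 / 2)
    (L : List V) (hL : ∀ v ∈ L, v ∈ Bin) (z : V) :
    ENNReal.ofReal (surv p Bout Γ z ^ 2 / 4) ≤
      Wf p (Ω \ Γ) z (fun s _ => Wf p (Bout \ Γ) z (fun s' e' => eind (e' ∉ Γ ∧ bef s s' L))) := by
  have hZo := Z_pos_of_subset hp hZ h2
  set T : List V → ℝ≥0∞ := fun s =>
    Wf p (Bout \ Γ) z (fun s' e' => eind (e' ∉ Γ ∧ bef s s' L)) with hT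
  set U : ℝ≥0∞ := Wf p (Bout \ Γ) z (fun s e => Wf p (Bout \ Γ) z
    (fun s' e' => eind (e ∉ Γ) * eind (e' ∉ Γ ∧ bef s s' L))) with hU
  have a1 : ENNReal.ofReal (1 / 2) * U ≤ Wf p (Ω \ Γ) z (fun s _ => T s) := by
    refine le_trans ?_ (Wf_markov (sdiff_subset_sdiff h2 Subset.rfl) z _)
    rw [hU, ← Wf_mul]
    refine Wf_mono z fun s e _ he _ => ?_
    rw [Wf_mul]
    by_cases heΓ : e ∈ Γ
    · simp [eind_of_not (not_not.2 heΓ)]
    have heB : e ∉ Bout := fun h => he (mem_sdiff.2 ⟨h, heΓ⟩)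
    rw [eind_of heΓ, one_mul]
    refine (mul_le_mul_left (Wf_noreturn (Γ := Γ) hp hs hZ hb0 hb1 hb2 (hb3 e heB)) _).trans ?_
    rw [mul_comm, ← Wf_mul]
    refine Wf_mono' e fun s2 _ => ?_
    split_ifs with h
    · simp
    · rw [mul_one]
      refine Wf_mono' z fun s' e' => eind_mono fun h' => ⟨h'.1, bef_append s2 ?_ h'.2⟩
      intro v hv hv2
      exact h ⟨v, hv2, hL v hv⟩
  have a2 : ENNReal.ofReal (surv p Bout Γ z) * ENNReal.ofReal (surv p Bout Γ z) ≤ U + U := by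
    have b1 : Wf p (Bout \ Γ) z (fun s e => Wf p (Bout \ Γ) z
        (fun s' e' => eind (e' ∉ Γ) * eind (e ∉ Γ ∧ bef s' s L))) ≤ U := Wf_swap_le _ _ _
    refine le_trans ?_ (add_le_add le_rfl b1)
    rw [hU, ← Wf_add]
    refine (mul_le_mul' (Wf_surv hp hs hZo z) (Wf_surv hp hs hZo z)).trans ?_
    rw [← Wf_mul]
    refine Wf_mono' z fun s e => ?_
    rw [← Wf_add, mul_comm, ← Wf_mul]
    refine Wf_mono' z fun s' e' => ?_
    simp only [← eind_and]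
    rcases bef_total s s' L with h | h
    · exact le_add_right (eind_mono fun h' => ⟨h'.1, h'.2, h⟩)
    · exact le_add_left (eind_mono fun h' => ⟨h'.2, h'.1, h⟩)
  refine le_trans ?_ a1
  have e1 : ENNReal.ofReal (surv p Bout Γ z ^ 2 / 4) = ENNReal.ofReal (1 / 4) *
      (ENNReal.ofReal (surv p Bout Γ z) * ENNReal.ofReal (surv p Bout Γ z)) := by
    rw [← ENNReal.ofReal_mul (surv_nonneg hp _), ← ENNReal.ofReal_mul (by norm_num)]
    congr 1; ring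
  rw [e1]
  refine (mul_le_mul_right a2 _).trans (le_of_eq ?_)
  rw [mul_add, ← add_mul, ← ENNReal.ofReal_add (by norm_num) (by norm_num)]
  norm_num

lemma Wf_hit_point (hp : ∀ v w, 0 ≤ p v w) (hs : ∀ x, ∑ y, p x y = 1) {B : Finset V}
    (hZ : 0 < Z p B) {z : V} (hz : z ∈ B) (x : V) :
    ENNReal.ofReal (green p B x z / green p B z z) ≤
      Wf p (B.erase z) x (fun _ e => eind (e = z)) := by
  have h1 := one_le_green hp hs hZ hz
  refine le_Wf_exit hp hs (Z_pos_of_subset hp hZ (erase_subset _ _)) (φ := fun e => ind (e = z))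
    (u := fun x => green p B x z / green p B z z)
    (fun _ => ind_nonneg _) (fun _ => ind_le_one _) (fun x hx => ?_) ?_ x
  · rw [lap_div, lap_green hZ (mem_of_mem_erase hx), if_neg (ne_of_mem_erase hx)]; simp
  · intro x hx
    by_cases h : x = z
    · rw [ind_of h, h, div_self (by linarith)]
    · rw [green_of_not_mem (fun h' => hx (mem_erase.2 ⟨h, h'⟩)), zero_div]; exact ind_nonneg _

lemma lps_first (hp : ∀ v w, 0 ≤ p v w) (hs : ∀ x, ∑ y, p x y = 1) (hZ : 0 < Z p Ω)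
    (h1 : Bin ⊆ Bout) (h2 : Bout ⊆ Ω) {b : V → ℝ} (hb0 : ∀ v, 0 ≤ b v) (hb1 : ∀ v ∈ Bin, 1 ≤ b v)
    (hb2 : ∀ v ∈ Ω, v ∉ Bin → 0 ≤ lap p b v) (hb3 : ∀ v, v ∉ Bout → b v ≤ 1 / 2)
    {z : V} (hz : z ∈ Bin \ Γ) (x y : V) :
    ENNReal.ofReal (green p (Bin \ Γ) x z / green p (Bin \ Γ) z z *
        (green p (Bin \ Γ) y z / green p (Bin \ Γ) z z * (surv p Bout Γ z ^ 2 / 4))) ≤
      Wf p (Ω \ Γ) x (fun l _ => Wf p (Bout \ Γ) y (fun l' e' =>
        eind ((vis (Bin \ Γ) z l ∧ vis (Bin \ Γ) z l') ∧ e' ∉ Γ ∧ ∃ v ∈ l', v ∈ LE l))) := by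
  have hZi : 0 < Z p (Bin \ Γ) := Z_pos_of_subset hp hZ (sdiff_subset.trans (h1.trans h2))
  have s1 : Bin \ Γ ⊆ Bout \ Γ := sdiff_subset_sdiff h1 Subset.rfl
  have s2 : Bout \ Γ ⊆ Ω \ Γ := sdiff_subset_sdiff h2 Subset.rfl
  have gn : ∀ x, 0 ≤ green p (Bin \ Γ) x z / green p (Bin \ Γ) z z :=
    fun x => div_nonneg (green_nonneg hp _ _) (green_nonneg hp _ _)
  rw [ENNReal.ofReal_mul (gn x), ENNReal.ofReal_mul (gn y)]
  refine le_trans ?_ (Wf_markov ((erase_subset z _).trans (s1.trans s2)) x _)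
  refine (mul_le_mul_left (Wf_hit_point hp hs hZi hz x) _).trans ?_
  rw [mul_comm, ← Wf_mul]
  refine Wf_mono x fun l e hl _ _ => ?_
  by_cases he : e = z
  swap
  · simp [eind_of_not he]
  subst he
  have hl' : ∀ v ∈ l, v ∈ Bin \ Γ := fun v hv => mem_of_mem_erase (hl v hv)
  rw [eind_of rfl, mul_one]
  refine (mul_le_mul_right (lps_core (Γ := Γ) hp hs hZ h2 hb0 hb1 hb2 hb3 (LE l)
    (fun v hv => (mem_sdiff.1 (hl' v (LE_subset l v hv))).1) e) _).trans ?_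
  rw [← Wf_mul]
  refine Wf_mono e fun s _ _ _ hs' => ?_
  obtain ⟨s0, rfl⟩ := hs' (s2 (s1 hz))
  refine le_trans ?_ (Wf_markov ((erase_subset e _).trans s1) y _)
  refine (mul_le_mul_left (Wf_hit_point hp hs hZi hz y) _).trans ?_
  rw [mul_comm, ← Wf_mul]
  refine Wf_mono y fun l' e' hl2 _ _ => ?_
  by_cases he : e' = e
  swap
  · simp [eind_of_not he]
  subst he
  rw [eind_of rfl, mul_one]
  refine Wf_mono e' fun s' e'' _ _ hs' => ?_
  obtain ⟨s1', rfl⟩ := hs' (s1 hz)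
  refine eind_mono fun h => ⟨⟨vis_append hz hl' _, vis_append hz
    (fun v hv => mem_of_mem_erase (hl2 v hv)) _⟩, h.1, ?_⟩
  obtain ⟨v, hv, hv'⟩ := exists_mem_LE_of_bef (List.mem_cons_self) l h.2
  exact ⟨v, List.mem_append_right _ hv, hv'⟩

lemma amgm_ind {ι : Type*} (M : Finset ι) (A B : ι → Prop) (J : Prop) {t : ℝ} (ht : 0 ≤ t) :
    ENNReal.ofReal (2 * t) * ∑ z ∈ M, eind ((A z ∧ B z) ∧ J) ≤
      eind J + ENNReal.ofReal (t ^ 2) *
        ∑ z ∈ M, ∑ w ∈ M, eind (A z ∧ A w) * eind (B z ∧ B w) := by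
  by_cases hJ : J
  · have e1 : ∑ z ∈ M, eind ((A z ∧ B z) ∧ J) = ENNReal.ofReal (∑ z ∈ M, ind (A z ∧ B z)) := by
      rw [ENNReal.ofReal_sum_of_nonneg fun _ _ => ind_nonneg _]
      exact sum_congr rfl fun z _ => by simp [eind, hJ]
    have e2 : ∑ z ∈ M, ∑ w ∈ M, eind (A z ∧ A w) * eind (B z ∧ B w) =
        ENNReal.ofReal ((∑ z ∈ M, ind (A z ∧ B z)) ^ 2) := by
      rw [sq, sum_mul_sum, ENNReal.ofReal_sum_of_nonneg fun _ _ =>
        sum_nonneg fun _ _ => mul_nonneg (ind_nonneg _) (ind_nonneg _)]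
      refine sum_congr rfl fun z _ => ?_
      rw [ENNReal.ofReal_sum_of_nonneg fun _ _ => mul_nonneg (ind_nonneg _) (ind_nonneg _)]
      refine sum_congr rfl fun w _ => ?_
      rw [← eind_and, ← ind_and, eind]
      congr 1
      exact ind_congr (by tauto)
    rw [e1, e2, eind_of hJ, ← ENNReal.ofReal_mul (by linarith), ← ENNReal.ofReal_mul (sq_nonneg _),
      ← ENNReal.ofReal_one, ← ENNReal.ofReal_add zero_le_one (by positivity)]
    exact ENNReal.ofReal_le_ofReal (by nlinarith [sq_nonneg (t * ∑ z ∈ M, ind (A z ∧ B z) - 1)])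
  · simp [eind_of_not, hJ]

lemma lps_point (hp : ∀ v w, 0 ≤ p v w) (hs : ∀ x, ∑ y, p x y = 1) (hZ : 0 < Z p Ω)
    (h1 : Bin ⊆ Bout) (h2 : Bout ⊆ Ω) {b : V → ℝ} (hb0 : ∀ v, 0 ≤ b v) (hb1 : ∀ v ∈ Bin, 1 ≤ b v)
    (hb2 : ∀ v ∈ Ω, v ∉ Bin → 0 ≤ lap p b v) (hb3 : ∀ v, v ∉ Bout → b v ≤ 1 / 2)
    {M : Finset V} (hM : M ⊆ Bin \ Γ) {t : ℝ} (ht : 0 ≤ t) (x : V) :
    ∑ y ∈ Bin \ Γ, 2 * t * ∑ z ∈ M, green p (Bin \ Γ) x z / green p (Bin \ Γ) z z *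
        (green p (Bin \ Γ) y z / green p (Bin \ Γ) z z * (surv p Bout Γ z ^ 2 / 4)) ≤
      Ex p (Ω \ Γ) x (fun L _ => ∑ y ∈ Bin, (surv p Bout Γ y - surv p Bout (Γ ∪ L) y)) +
      ∑ y ∈ Bin \ Γ, t ^ 2 * ∑ z ∈ M, ∑ w ∈ M,
        (green p (Bin \ Γ) x z * green p (Bin \ Γ) z w +
          green p (Bin \ Γ) x w * green p (Bin \ Γ) w z) *
        (green p (Bin \ Γ) y z * green p (Bin \ Γ) z w +
          green p (Bin \ Γ) y w * green p (Bin \ Γ) w z) := by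
  have hZo := Z_pos_of_subset hp hZ h2
  have hZi : 0 < Z p (Bin \ Γ) := Z_pos_of_subset hp hZ (sdiff_subset.trans (h1.trans h2))
  set g := green p (Bin \ Γ) with hg
  have gn : ∀ a b, 0 ≤ g a b := fun a b => green_nonneg hp a b
  have Gn : ∀ x z w, 0 ≤ g x z * g z w + g x w * g w z := fun x z w =>
    add_nonneg (mul_nonneg (gn _ _) (gn _ _)) (mul_nonneg (gn _ _) (gn _ _))
  have dn : ∀ (L : Finset V) y, 0 ≤ surv p Bout Γ y - surv p Bout (Γ ∪ L) y := fun L y =>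
    sub_nonneg.2 (surv_anti hp hZo subset_union_left y)
  have Fn : ∀ y z, 0 ≤ g x z / g z z * (g y z / g z z * (surv p Bout Γ z ^ 2 / 4)) := fun y z =>
    mul_nonneg (div_nonneg (gn _ _) (gn _ _)) (mul_nonneg (div_nonneg (gn _ _) (gn _ _))
      (by positivity))
  have En : 0 ≤ Ex p (Ω \ Γ) x
      (fun L _ => ∑ y ∈ Bin, (surv p Bout Γ y - surv p Bout (Γ ∪ L) y)) :=
    Ex_nonneg hp fun L _ => sum_nonneg fun y _ => dn L y
  have Sn : ∀ y, 0 ≤ ∑ z ∈ M, ∑ w ∈ M, (g x z * g z w + g x w * g w z) *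
      (g y z * g z w + g y w * g w z) := fun y =>
    sum_nonneg fun z _ => sum_nonneg fun w _ => mul_nonneg (Gn _ _ _) (Gn _ _ _)
  have A : ∑ y ∈ Bin \ Γ, Wf p (Ω \ Γ) x (fun l _ => Wf p (Bout \ Γ) y
      (fun l' e' => eind (e' ∉ Γ ∧ ∃ v ∈ l', v ∈ LE l))) ≤ ENNReal.ofReal (Ex p (Ω \ Γ) x
        (fun L _ => ∑ y ∈ Bin, (surv p Bout Γ y - surv p Bout (Γ ∪ L) y))) := by
    refine le_trans ?_ (Wf_LE_le hp hs (Z_pos_of_subset hp hZ sdiff_subset) x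
      fun L _ => sum_nonneg fun y _ => dn L y)
    rw [← Wf_sum]
    refine Wf_mono' x fun l _ => ?_
    rw [ENNReal.ofReal_sum_of_nonneg fun y _ => dn _ y]
    refine le_trans (sum_le_sum fun y _ => ?_) (sum_le_sum_of_subset (sdiff_subset (t := Γ)))
    refine le_trans (Wf_mono' y fun l' e' => ?_) (Wf_hit_le (D := Bout \ Γ) hp hs (LE l).toFinset
      (φ := fun e => ind (e ∉ Γ)) (u0 := surv p Bout Γ)
      (u := fun y => surv p Bout Γ y - surv p Bout (Γ ∪ (LE l).toFinset) y) (surv_nonneg hp)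
      (fun x hx => (lap_surv hx).ge) ?_ (dn _) ?_ ?_ y)
    · split_ifs with h
      · exact eind_mono And.left
      · rw [eind_of_not]
        rintro ⟨_, v, hv, hv'⟩
        exact h ⟨v, hv, List.mem_toFinset.2 hv'⟩
    · intro x hx
      by_cases h : x ∈ Γ
      · rw [ind_of_not (not_not.2 h)]; exact surv_nonneg hp _
      · rw [ind_of h, surv_of_not_mem hp hZo (fun h' => hx (mem_sdiff.2 ⟨h', h⟩)) h]
    · intro x hx hx'
      rw [lap_sub, lap_surv hx, lap_surv, sub_zero]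
      simp only [mem_sdiff, mem_union] at hx ⊢
      tauto
    · intro x _ hx'
      rw [surv_of_mem (Γ := Γ ∪ _) (mem_union_right _ hx'), sub_zero]
  have B : ∀ y, ENNReal.ofReal (2 * t * ∑ z ∈ M, g x z / g z z *
        (g y z / g z z * (surv p Bout Γ z ^ 2 / 4))) ≤
      Wf p (Ω \ Γ) x (fun l _ => Wf p (Bout \ Γ) y
        (fun l' e' => eind (e' ∉ Γ ∧ ∃ v ∈ l', v ∈ LE l))) +
      ENNReal.ofReal (t ^ 2 * ∑ z ∈ M, ∑ w ∈ M, (g x z * g z w + g x w * g w z) *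
        (g y z * g z w + g y w * g w z)) := by
    intro y
    rw [ENNReal.ofReal_mul (by linarith), ENNReal.ofReal_sum_of_nonneg fun z _ => Fn y z]
    refine (mul_le_mul_right (sum_le_sum fun z hz =>
      lps_first hp hs hZ h1 h2 hb0 hb1 hb2 hb3 (hM hz) x y) _).trans ?_
    simp only [← Wf_sum, ← Wf_mul]
    refine (Wf_mono' x fun l _ => Wf_mono' y fun l' e' =>
      amgm_ind M (fun z => vis (Bin \ Γ) z l) (fun z => vis (Bin \ Γ) z l') _ ht).trans ?_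
    simp only [Wf_add, Wf_mul, Wf_sum]
    refine add_le_add le_rfl ?_
    rw [ENNReal.ofReal_mul (sq_nonneg _), ENNReal.ofReal_sum_of_nonneg fun z _ =>
      sum_nonneg fun w _ => mul_nonneg (Gn _ _ _) (Gn _ _ _)]
    refine mul_le_mul_right (sum_le_sum fun z _ => ?_) _
    rw [ENNReal.ofReal_sum_of_nonneg fun w _ => mul_nonneg (Gn _ _ _) (Gn _ _ _)]
    refine sum_le_sum fun w _ => ?_
    simp only [mul_comm _ (Wf p (Bout \ Γ) y _)]
    rw [Wf_mul, ENNReal.ofReal_mul (Gn _ _ _), mul_comm]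
    exact mul_le_mul' (Wf_vis2_le hp hs hZi z w x) (Wf_vis2_le hp hs hZi z w y)
  rw [← ENNReal.ofReal_le_ofReal_iff (add_nonneg En (sum_nonneg fun y _ =>
    mul_nonneg (sq_nonneg _) (Sn y))), ENNReal.ofReal_add En (sum_nonneg fun y _ =>
    mul_nonneg (sq_nonneg _) (Sn y)), ENNReal.ofReal_sum_of_nonneg fun y _ =>
    mul_nonneg (by linarith) (sum_nonneg fun z _ => Fn y z),
    ENNReal.ofReal_sum_of_nonneg fun y _ => mul_nonneg (sq_nonneg _) (Sn y)]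
  refine (sum_le_sum fun y _ => B y).trans ?_
  rw [sum_add_distrib]
  exact add_le_add A le_rfl

/-- the abstract second moment estimate -/
theorem lps (hp : ∀ v w, 0 ≤ p v w) (hs : ∀ x, ∑ y, p x y = 1) (hsym : ∀ v w, p v w = p w v)
    (hZ : 0 < Z p Ω)
    (h1 : Bin ⊆ Bout) (h2 : Bout ⊆ Ω) {b : V → ℝ} (hb0 : ∀ v, 0 ≤ b v) (hb1 : ∀ v ∈ Bin, 1 ≤ b v)
    (hb2 : ∀ v ∈ Ω, v ∉ Bin → 0 ≤ lap p b v) (hb3 : ∀ v, v ∉ Bout → b v ≤ 1 / 2)
    {M : Finset V} (hM : M ⊆ Bin \ Γ) {θ m0 m1 g0 K : ℝ} (hθ0 : 0 ≤ θ) (hm00 : 0 ≤ m0)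
    (hθ : ∀ z ∈ M, θ ≤ surv p Bout Γ z)
    (hm0 : ∀ z ∈ M, m0 ≤ ∑ x ∈ Bin \ Γ, green p (Bin \ Γ) z x)
    (hm1 : ∀ z ∈ M, ∑ x ∈ Bin \ Γ, green p (Bin \ Γ) z x ≤ m1)
    (hg0 : ∀ z ∈ M, green p (Bin \ Γ) z z ≤ g0)
    (hK : ∀ z ∈ M, ∑ w ∈ M, green p (Bin \ Γ) z w ^ 2 ≤ K) {t : ℝ} (ht : 0 ≤ t) :
    M.card * (t * (m0 / g0) ^ 2 * θ ^ 2 / 2 - t ^ 2 * (4 * m1 ^ 2 * K)) ≤
      ∑ x ∈ Bin \ Γ,
        Ex p (Ω \ Γ) x (fun L _ => ∑ y ∈ Bin, (surv p Bout Γ y - surv p Bout (Γ ∪ L) y)) := by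
  have hZi : 0 < Z p (Bin \ Γ) := Z_pos_of_subset hp hZ (sdiff_subset.trans (h1.trans h2))
  have key := sum_le_sum fun x (_ : x ∈ Bin \ Γ) =>
    lps_point hp hs hZ h1 h2 hb0 hb1 hb2 hb3 hM ht x
  set g := green p (Bin \ Γ) with hg
  have gn : ∀ a b, 0 ≤ g a b := fun a b => green_nonneg hp a b
  have gs : ∀ a b, g a b = g b a := fun a b => green_symm hp hsym b a
  set m : V → ℝ := fun z => ∑ x ∈ Bin \ Γ, g z x with hm
  have mn : ∀ z, 0 ≤ m z := fun z => sum_nonneg fun _ _ => gn _ _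
  have e1 : ∑ x ∈ Bin \ Γ, ∑ y ∈ Bin \ Γ, 2 * t * ∑ z ∈ M, g x z / g z z *
      (g y z / g z z * (surv p Bout Γ z ^ 2 / 4)) =
      ∑ z ∈ M, t * (m z / g z z) ^ 2 * surv p Bout Γ z ^ 2 / 2 := by
    simp only [mul_sum]
    rw [sum_congr rfl fun x _ => sum_comm, sum_comm]
    refine sum_congr rfl fun z _ => ?_
    have : t * (m z / g z z) ^ 2 * surv p Bout Γ z ^ 2 / 2 =
        (t * surv p Bout Γ z ^ 2 / 2 / g z z ^ 2) * (m z * m z) := by ring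
    rw [this]
    simp only [hm, mul_sum, sum_mul]
    refine sum_congr rfl fun x _ => sum_congr rfl fun y _ => ?_
    rw [gs z x, gs z y]; ring
  have e2 : ∑ x ∈ Bin \ Γ, ∑ y ∈ Bin \ Γ, t ^ 2 * ∑ z ∈ M, ∑ w ∈ M,
      (g x z * g z w + g x w * g w z) * (g y z * g z w + g y w * g w z) =
      ∑ z ∈ M, t ^ 2 * ∑ w ∈ M, (m z + m w) ^ 2 * g z w ^ 2 := by
    simp only [mul_sum]
    rw [sum_congr rfl fun x _ => sum_comm, sum_comm]
    refine sum_congr rfl fun z _ => ?_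
    rw [sum_congr rfl fun x _ => sum_comm, sum_comm]
    refine sum_congr rfl fun w _ => ?_
    simp only [hm, ← sum_add_distrib, sq (∑ _ ∈ _, _), mul_sum, sum_mul]
    refine sum_congr rfl fun x _ => sum_congr rfl fun y _ => ?_
    rw [gs z x, gs z y, gs w x, gs w y, gs w z]; ring
  rw [sum_add_distrib, e1, e2] at key
  have l1 : ∑ z ∈ M, t * (m0 / g0) ^ 2 * θ ^ 2 / 2 ≤
      ∑ z ∈ M, t * (m z / g z z) ^ 2 * surv p Bout Γ z ^ 2 / 2 := by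
    refine sum_le_sum fun z hz => ?_
    have h1 := one_le_green hp hs hZi (hM hz)
    have h2 := hg0 z hz
    have h3 : m0 / g0 ≤ m z / g z z :=
      div_le_div₀ (mn z) (hm0 z hz) (by linarith) h2
    have h4 : 0 ≤ m0 / g0 := div_nonneg hm00 (by linarith)
    have h5 := hθ z hz
    gcongr
  have l2 : ∑ z ∈ M, t ^ 2 * ∑ w ∈ M, (m z + m w) ^ 2 * g z w ^ 2 ≤
      ∑ z ∈ M, t ^ 2 * (4 * m1 ^ 2 * K) := by
    refine sum_le_sum fun z hz => mul_le_mul_of_nonneg_left ?_ (sq_nonneg _)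
    refine le_trans (sum_le_sum fun w hw => mul_le_mul_of_nonneg_right
      (show (m z + m w) ^ 2 ≤ 4 * m1 ^ 2 by
        have := hm1 z hz
        have := hm1 w hw
        have := mn z
        have := mn w
        change m z ≤ m1 at *
        change m w ≤ m1 at *
        nlinarith) (sq_nonneg _)) ?_
    rw [← mul_sum]
    exact mul_le_mul_of_nonneg_left (hK z hz) (by positivity)
  simp only [sum_const, nsmul_eq_mul] at l1 l2
  rw [mul_sub]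
  linarith

end Pool.Agent.MP_3251d9_pr.H70
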