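import Pool.Agent.MP_3251d9_pr.H70.Grid

/-! Local estimates near the bottom face. -/

set_option autoImplicit false

namespace Pool.Agent.MP_3251d9_pr.H70

open Finset Function

lemma lap_green_sum {V : Type*} [Fintype V] [DecidableEq V] {c : V → V → ℝ} {D : Finset V}
    (hZ : 0 < Z c D) (a : V → ℝ) {x : V} (hx : x ∈ D) :
    lap c (fun v => ∑ w ∈ D, green c D v w * a w) x = a x := by
  rw [lap_sum]
  have : ∀ w ∈ D, lap c (fun v => green c D v w * a w) x = if x = w then a w else 0 := by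
    intro w _
    have := lap_mul (c := c) (a w) (fun v => green c D v w) x
    simp only [mul_comm (a w)] at this
    rw [this, lap_green hZ hx]; split_ifs <;> simp
  rw [sum_congr rfl this, sum_ite_eq, if_pos hx]

variable {n1 n2 n3 : ℕ}

lemma green_le_psi {B : Finset (Bx n1 n2 n3)} (hZ : 0 < Z pk B) (κ : Walls n1 n2 n3)
    (hκ : ∀ v ∈ B, κ.Adm v) (v w : Bx n1 n2 n3) : green pk B v w ≤ 1000 * psi (sqd v w) := by
  have h1 := compare_all pk_nonneg hZ (f := fun v => green pk B v w)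
    (g := fun v => 125 * img psi κ w v) (fun x hx => by
      rw [lap_green hZ hx, lap_mul]
      have := lap_img_psi κ w (hκ x hx)
      split_ifs at this ⊢ <;> linarith) (fun y hy => by
      rw [green_of_not_mem hy]
      linarith [le_img κ w y (fun s _ => psi_nonneg s), psi_nonneg (sqd y w)]) v
  have h2 := img_le κ w v (fun s hs => psi_anti (sqd_nonneg v w) hs)
  linarith

lemma green_sq_sum_le {B : Finset (Bx n1 n2 n3)} (hZ : 0 < Z pk B) (κ : Walls n1 n2 n3)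
    (hκ : ∀ v ∈ B, κ.Adm v) (z : Bx n1 n2 n3) {M : Finset (Bx n1 n2 n3)} {ρ : ℤ} (hρ : 1 ≤ ρ)
    (hM : M ⊆ cube z ρ) : ∑ w ∈ M, green pk B z w ^ 2 ≤ 43000000 * (ρ : ℝ) := by
  have h1 : ∀ w, green pk B z w ^ 2 ≤ 1000000 * (1 / ((sqd w z : ℝ) + 15)) := by
    intro w
    rw [green_symm pk_nonneg pk_symm, ← psi_sq (sqd_nonneg _ _)]
    have := green_le_psi hZ κ hκ w z
    have := green_nonneg (D := B) pk_nonneg w z
    nlinarith
  refine (sum_le_sum fun w _ => h1 w).trans ?_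
  rw [← mul_sum]
  have := sum_cube_le z hρ
  have h2 : ∑ w ∈ M, 1 / ((sqd w z : ℝ) + 15) ≤ ∑ w ∈ cube z ρ, 1 / ((sqd w z : ℝ) + 15) :=
    sum_le_sum_of_subset_of_nonneg hM fun w _ _ => by
      have : (0 : ℝ) ≤ sqd w z := by exact_mod_cast sqd_nonneg w z
      positivity
  linarith

lemma exit_time_le {B : Finset (Bx n1 n2 n3)} (hZ : 0 < Z pk B) {t : ℤ} (ht : 1 ≤ t)
    (hB : ∀ v ∈ B, cZ v ≤ 4 * t ∧ cZ v ≠ n3 - 1) {z : Bx n1 n2 n3} (hz : z ∈ B) :
    ∑ x ∈ B, green pk B z x ≤ 90 * (t : ℝ) ^ 2 := by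
  have h1 := green_sum_le pk_nonneg hZ (a := fun _ => 1)
    (b := fun v => (3 * ((4 * t + 1) * (4 * t + 2) - cZ v * (cZ v + 1)) : ℤ)) (fun x hx => by
      refine le_trans (le_of_eq ?_) (lap_ge x
        (fun _ _ z => (3 * ((4 * t + 1) * (4 * t + 2) - z * (z + 1)) : ℤ)) (fun _ => le_rfl)
        (fun _ => le_rfl) (fun _ => le_rfl) (fun _ => le_rfl) (fun h => absurd h (hB x hx).2)
        (fun h => by rw [h]; norm_num))
      simp only [six]; push_cast; ring) (fun x hx y _ hxy => by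
      have h1 := (near_of_pk_pos hxy).2.2
      have h2 := (hB x hx).1
      have h3 := (bnd y).2.2
      have : (0 : ℤ) ≤ 3 * ((4 * t + 1) * (4 * t + 2) - cZ y * (cZ y + 1)) := by nlinarith
      exact_mod_cast this) z hz
  simp only [mul_one] at h1
  refine h1.trans ?_
  have h3 := (bnd z).2.2
  have : 3 * ((4 * t + 1) * (4 * t + 2) - cZ z * (cZ z + 1)) ≤ 90 * t ^ 2 := by nlinarith
  exact_mod_cast this

lemma lap_sqd (v x : Bx n1 n2 n3) : -1 ≤ lap pk (fun w => (sqd w v : ℝ)) x := by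
  have b1 := bnd v
  have b2 := bnd x
  refine le_trans (le_of_eq ?_) (lap_ge x
    (fun a b c => (((a - cX v) ^ 2 + (b - cY v) ^ 2 + (c - cZ v) ^ 2 : ℤ) : ℝ))
    (fun h => ?_) (fun h => ?_) (fun h => ?_) (fun h => ?_) (fun h => ?_) (fun h => ?_))
  · simp only [six]; push_cast; ring
  all_goals
    refine Int.cast_le.2 ?_
    nlinarith [b1.1.1, b1.1.2, b1.2.1.1, b1.2.1.2, b1.2.2.1, b1.2.2.2]

lemma massive {Bin Bout Γ : Finset (Bx n1 n2 n3)} (hZ : 0 < Z pk Bout) (h1 : Bin ⊆ Bout)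
    (v : Bx n1 n2 n3) {r : ℤ} (hr : 1 ≤ r) (hv : cube v r ⊆ Bin) {η : ℝ} (hη : 0 < η) :
    (surv pk Bout Γ v - η) * (η * r ^ 2) ≤
      ∑ w ∈ Bin \ Γ, green pk (Bin \ Γ) v w * (if w ∈ cube v r then surv pk Bout Γ w else 0) := by
  have hZi : 0 < Z pk (Bin \ Γ) := Z_pos_of_subset pk_nonneg hZ (sdiff_subset.trans h1)
  have r1 : (1 : ℝ) ≤ r := by exact_mod_cast hr
  set G : Bx n1 n2 n3 → ℝ := fun x =>
    ∑ w ∈ Bin \ Γ, green pk (Bin \ Γ) x w * (if w ∈ cube v r then surv pk Bout Γ w else 0) with hG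
  have Gn : ∀ x, 0 ≤ G x := fun x => sum_nonneg fun w _ => mul_nonneg (green_nonneg pk_nonneg _ _)
    (by split_ifs; exacts [surv_nonneg pk_nonneg _, le_rfl])
  have key := compare_all pk_nonneg (D := (Bin \ Γ).filter fun x => x ∈ cube v r ∧ η ≤ surv pk Bout Γ x)
    (Z_pos_of_subset pk_nonneg hZi (filter_subset _ _))
    (f := fun x => η * r ^ 2 * surv pk Bout Γ x - G x)
    (g := fun x => η * r ^ 2 * η + η * (sqd x v : ℝ)) (fun x hx => by
      obtain ⟨hx1, hx2, hx3⟩ := mem_filter.1 hx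
      rw [lap_sub, lap_add, lap_mul, lap_mul, lap_const, lap_mul, lap_green_sum hZi _ hx1,
        lap_surv (sdiff_subset_sdiff h1 Subset.rfl hx1), if_pos hx2]
      nlinarith [lap_sqd v x]) (fun y hy => by
      have s0 : (0 : ℝ) ≤ sqd y v := by exact_mod_cast sqd_nonneg y v
      have s1 := surv_le_one (Γ := Γ) pk_nonneg hZ y
      have s2 := Gn y
      have s3 : 0 < η * r ^ 2 := by positivity
      by_cases hc : y ∈ cube v r
      · by_cases hΓ : y ∈ Γ
        · rw [surv_of_mem hΓ]; nlinarith [mul_nonneg hη.le s0, mul_pos s3 hη]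
        · have : surv pk Bout Γ y < η := by
            by_contra h
            exact hy (mem_filter.2 ⟨mem_sdiff.2 ⟨hv hc, hΓ⟩, hc, not_lt.1 h⟩)
          nlinarith [mul_nonneg hη.le s0]
      · have h2 := le_sqd_of_not_mem (by omega) hc
        have h3 : ((r : ℝ) + 1) ^ 2 ≤ sqd y v := by exact_mod_cast h2
        have h4 : η * r ^ 2 ≤ η * (sqd y v : ℝ) := mul_le_mul_of_nonneg_left (by nlinarith) hη.le
        nlinarith [mul_pos s3 hη]) v
  have : sqd v v = 0 := by simp [sqd]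
  rw [this] at key
  simp only [Int.cast_zero, mul_zero, add_zero] at key
  change _ ≤ G v
  linarith

theorem lps_geo {ε : ℝ} (hε : 0 < ε) : ∃ δ : ℝ, 0 < δ ∧ ∀ (n1 n2 n3 : ℕ)
    (Ω Γ : Finset (Bx n1 n2 n3)) (κ : Walls n1 n2 n3) (c : Bx n1 n2 n3) (t : ℤ), 0 < Z pk Ω →
    (∀ v ∈ Ω, κ.Adm v) → cZ c = 0 → 1 ≤ t → cube c (128 * t) ⊆ Ω →
    (∃ v ∈ cube c (2 * t), ε ≤ surv pk (cube c (128 * t)) Γ v) →
    ∃ x ∈ cube c (4 * t) \ Γ, δ * (t : ℝ) ^ 3 ≤ Ex pk (Ω \ Γ) x (fun L _ => ∑ y ∈ cube c (4 * t),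
      (surv pk (cube c (128 * t)) Γ y - surv pk (cube c (128 * t)) (Γ ∪ L) y)) := by
  set θ := ε ^ 2 / 720 with hθ
  set K0 : ℝ := 344000000 with hK0
  set a0 := (θ ^ 2 / 4 / 1000) ^ 2 * θ ^ 2 / 2 with ha0
  set b0 := 4 * 90 ^ 2 * K0 with hb0
  have θ0 : 0 < θ := by positivity
  have a00 : 0 < a0 := by positivity
  have b00 : 0 < b0 := by positivity
  refine ⟨ε ^ 4 / (64 * K0) * (a0 ^ 2 / (4 * b0)) / 729, by positivity, ?_⟩
  rintro n1 n2 n3 Ω Γ κ c t hZ hκ hc ht hΩ ⟨v0, hv0, hv0'⟩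
  have t1 : (1 : ℝ) ≤ t := by exact_mod_cast ht
  set Bin := cube c (4 * t) with hBin
  set Bout := cube c (128 * t) with hBout
  have h1 : Bin ⊆ Bout := cube_mono c (by omega)
  have hZo := Z_pos_of_subset pk_nonneg hZ hΩ
  have hDi : Bin \ Γ ⊆ Ω := sdiff_subset.trans (h1.trans hΩ)
  have hZi : 0 < Z pk (Bin \ Γ) := Z_pos_of_subset pk_nonneg hZ hDi
  have hκi : ∀ v ∈ Bin \ Γ, κ.Adm v := fun v hv => hκ v (hDi hv)
  have hcΩ : c ∈ Ω := hΩ (by rw [mem_cube]; omega)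
  have k3 : κ.k3 = -1 := (hκ c hcΩ).2.2.2.2.1 hc
  set h := surv pk Bout Γ with hh
  set g := green pk (Bin \ Γ) with hg
  have gn : ∀ a b, 0 ≤ g a b := fun a b => green_nonneg pk_nonneg a b
  have m1 : ∀ z ∈ Bin \ Γ, ∑ x ∈ Bin \ Γ, g z x ≤ 90 * (t : ℝ) ^ 2 := by
    intro z hz
    refine exit_time_le hZi ht (fun v hv => ⟨?_, fun h => ?_⟩) hz
    · have := (mem_sdiff.1 hv).1
      rw [mem_cube] at this; omega
    · have := (hκi v hv).2.2.2.2.2 h
      have := (bnd v).2.2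
      omega
  set M := (cube c (3 * t) \ Γ).filter fun z => θ ≤ h z with hM
  have hMi : M ⊆ Bin \ Γ :=
    (filter_subset _ _).trans (sdiff_subset_sdiff (cube_mono c (by omega)) Subset.rfl)
  have hK : ∀ z ∈ Bin, ∑ w ∈ M, g z w ^ 2 ≤ K0 * t := by
    intro z hz
    have := green_sq_sum_le hZi κ hκi z (M := M) (ρ := 8 * t) (by omega) (fun w hw => by
      have := (mem_sdiff.1 (hMi hw)).1
      rw [mem_cube] at *; omega)
    push_cast at this
    linarith
  have hv0i : v0 ∈ Bin \ Γ := by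
    refine mem_sdiff.2 ⟨cube_mono c (by omega) hv0, fun h' => ?_⟩
    rw [hh, surv_of_mem h'] at hv0'
    linarith
  have cardM : ε ^ 4 / (64 * K0) * (t : ℝ) ^ 3 ≤ M.card := by
    have q1 := massive (Γ := Γ) hZo h1 v0 ht (cube_subset hv0 (by omega)) (half_pos hε)
    have q2 : ∑ w ∈ Bin \ Γ, g v0 w * (if w ∈ cube v0 t then h w else 0) ≤
        ∑ w ∈ Bin \ Γ, (θ * g v0 w + if w ∈ M then g v0 w else 0) := by
      refine sum_le_sum fun w hw => ?_
      have := gn v0 w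
      have s1 : h w ≤ 1 := surv_le_one pk_nonneg hZo w
      by_cases hwM : w ∈ M
      · rw [if_pos hwM]
        split_ifs <;> nlinarith
      · rw [if_neg hwM]
        split_ifs with hw2
        · have : h w < θ := by
            by_contra h'
            exact hwM (mem_filter.2 ⟨mem_sdiff.2 ⟨cube_subset hv0 (by omega) hw2,
              (mem_sdiff.1 hw).2⟩, not_lt.1 h'⟩)
          nlinarith
        · nlinarith
    rw [sum_add_distrib, ← mul_sum, ← sum_filter, filter_mem_eq_inter, inter_eq_right.2 hMi] at q2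
    have q3 := m1 v0 hv0i
    have q4 : ε ^ 2 * t ^ 2 / 8 ≤ ∑ w ∈ M, g v0 w := by
      have e1 : ε / 2 * (ε / 2 * (t : ℝ) ^ 2) ≤ (h v0 - ε / 2) * (ε / 2 * (t : ℝ) ^ 2) :=
        mul_le_mul_of_nonneg_right (by linarith) (by positivity)
      have e2 : θ * ∑ w ∈ Bin \ Γ, g v0 w ≤ θ * (90 * (t : ℝ) ^ 2) :=
        mul_le_mul_of_nonneg_left q3 θ0.le
      have e3 : θ * (90 * (t : ℝ) ^ 2) = ε ^ 2 * t ^ 2 / 8 := by rw [hθ]; ring
      nlinarith
    have q5 := sq_sum_le_card_mul_sum_sq (s := M) (f := fun w => g v0 w)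
    have q6 := hK v0 (mem_sdiff.1 hv0i).1
    have q7 : (ε ^ 2 * t ^ 2 / 8) ^ 2 ≤ M.card * (K0 * t) :=
      le_trans (pow_le_pow_left₀ (by positivity) q4 2)
        (q5.trans (mul_le_mul_of_nonneg_left q6 (Nat.cast_nonneg _)))
    rw [div_mul_eq_mul_div, div_le_iff₀ (by positivity)]
    have : ε ^ 4 * (t : ℝ) ^ 3 * t ≤ M.card * (64 * K0) * t := by nlinarith
    exact le_of_mul_le_mul_right this (by linarith)
  have key := lps pk_nonneg pk_stoch pk_symm hZ h1 hΩ (Γ := Γ)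
    (b := fun v => 8 * (t : ℝ) * img psi κ c v)
    (fun v => mul_nonneg (by positivity) ((psi_nonneg _).trans (le_img κ c v fun s _ => psi_nonneg s)))
    (fun v hv => by
      have e1 := le_img κ c v fun s _ => psi_nonneg s
      have e2 : (sqd v c : ℝ) ≤ 3 * (4 * t) ^ 2 := by exact_mod_cast sqd_le_of_mem hv
      have e3 := le_psi (a := 8 * t) (sqd_nonneg v c) (by linarith) (by nlinarith)
      rw [div_le_iff₀ (by linarith)] at e3
      nlinarith)
    (fun v hv _ => by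
      rw [lap_mul]
      refine mul_nonneg (by positivity) (le_trans ?_ (lap_img_psi κ c (hκ v hv)))
      split_ifs <;> norm_num)
    (fun v hv => by
      have e2 : ((128 * t + 1) ^ 2 : ℝ) ≤ sqd v c := by
        exact_mod_cast le_sqd_of_not_mem (by omega) hv
      have e1 := img_le κ c v (φ := psi) (a := 1 / (128 * t)) fun s hs => by
        have : (sqd v c : ℝ) ≤ s := by exact_mod_cast hs
        exact psi_le (by linarith) (by nlinarith)
      have e3 : 8 * (t : ℝ) * (8 * (1 / (128 * t))) = 1 / 2 := by field_simp; norm_num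
      rw [← e3]
      exact mul_le_mul_of_nonneg_left e1 (by positivity))
    hMi (θ := θ) (m0 := θ ^ 2 / 4 * t ^ 2) (m1 := 90 * t ^ 2) (g0 := 1000) (K := K0 * t) θ0.le
    (by positivity) (fun z hz => (mem_filter.1 hz).2)
    (fun z hz => by
      have hz3 := (mem_sdiff.1 (mem_filter.1 hz).1).1
      have q1 := massive (Γ := Γ) hZo h1 z ht (cube_subset hz3 (by omega)) (half_pos θ0)
      have q2 : ∑ w ∈ Bin \ Γ, g z w * (if w ∈ cube z t then h w else 0) ≤
          ∑ w ∈ Bin \ Γ, g z w := by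
        refine sum_le_sum fun w _ => ?_
        have := gn z w
        have s1 : h w ≤ 1 := surv_le_one pk_nonneg hZo w
        split_ifs <;> nlinarith
      have q3 : θ ≤ h z := (mem_filter.1 hz).2
      have e1 : θ / 2 * (θ / 2 * (t : ℝ) ^ 2) ≤ (h z - θ / 2) * (θ / 2 * (t : ℝ) ^ 2) :=
        mul_le_mul_of_nonneg_right (by linarith) (by positivity)
      linarith)
    (fun z hz => m1 z (hMi hz))
    (fun z _ => by
      have e1 := green_le_psi hZi κ hκi z z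
      have e2 := psi_le (s := sqd z z) (a := 1) one_pos (by simp [sqd])
      linarith)
    (fun z hz => hK z (mem_sdiff.1 (hMi hz)).1) (t := a0 / (2 * b0) / t) (by positivity)
  have e1 : a0 / (2 * b0) / t * (θ ^ 2 / 4 * t ^ 2 / 1000) ^ 2 * θ ^ 2 / 2 -
      (a0 / (2 * b0) / t) ^ 2 * (4 * (90 * t ^ 2) ^ 2 * (K0 * t)) = a0 ^ 2 / (4 * b0) * t ^ 3 := by
    have f1 : (θ ^ 2 / 4 * t ^ 2 / 1000) ^ 2 * θ ^ 2 / 2 = a0 * t ^ 4 := by rw [ha0]; ring
    have f2 : 4 * (90 * (t : ℝ) ^ 2) ^ 2 * (K0 * t) = b0 * t ^ 5 := by rw [hb0]; ring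
    rw [mul_assoc (a0 / (2 * b0) / t), mul_div_assoc (a0 / (2 * b0) / t), f1, f2]
    field_simp
    ring
  rw [e1] at key
  refine exists_le_of_sum_le ⟨v0, hv0i⟩ (le_trans ?_ key)
  rw [sum_const, nsmul_eq_mul]
  have c1 : ((Bin \ Γ).card : ℝ) ≤ 729 * t ^ 3 := by
    have d1 : ((Bin \ Γ).card : ℝ) ≤ Bin.card := by exact_mod_cast card_le_card sdiff_subset
    have d2 := card_cube_le c (ρ := 4 * t) (by omega)
    push_cast at d2
    have d3 : (2 * (4 * (t : ℝ)) + 1) ^ 3 ≤ (9 * t) ^ 3 := by gcongr; linarith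
    nlinarith
  calc ((Bin \ Γ).card : ℝ) * (ε ^ 4 / (64 * K0) * (a0 ^ 2 / (4 * b0)) / 729 * t ^ 3)
      ≤ 729 * t ^ 3 * (ε ^ 4 / (64 * K0) * (a0 ^ 2 / (4 * b0)) / 729 * t ^ 3) := by gcongr
    _ = ε ^ 4 / (64 * K0) * t ^ 3 * (a0 ^ 2 / (4 * b0) * t ^ 3) := by ring
    _ ≤ _ := by gcongr

end Pool.Agent.MP_3251d9_pr.H70
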