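import Pool.Agent.MP_3251d9_pr.H70.Danger

/-! The whole bottom face and the opposite corner are joined to the root with polynomial
probability. -/

set_option autoImplicit false

namespace Pool.Agent.MP_3251d9_pr.H70

open Finset Function

variable {n1 n2 n3 : ℕ}

/-- the region near the bottom face -/
def Rb (n1 n2 n3 : ℕ) : Finset (Bx n1 n2 n3) :=
  univ.filter fun v => 8 * cZ v < cX v ∨ 8 * cZ v < cY v

lemma mem_Rb {v : Bx n1 n2 n3} : v ∈ Rb n1 n2 n3 ↔ 8 * cZ v < cX v ∨ 8 * cZ v < cY v := by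
  simp [Rb]

/-- the cone from the top corner -/
def Ch (n1 n2 n3 : ℕ) : Finset (Bx n1 n2 n3) :=
  univ.filter fun v => (2 * (n1 - 1 - cX v) + 1) ^ 2 + (2 * (n2 - 1 - cY v) + 1) ^ 2 ≤
    2 * (2 * (n3 - 1 - cZ v) + 1) ^ 2

lemma mem_Ch {v : Bx n1 n2 n3} : v ∈ Ch n1 n2 n3 ↔
    (2 * (n1 - 1 - cX v) + 1) ^ 2 + (2 * (n2 - 1 - cY v) + 1) ^ 2 ≤
      2 * (2 * (n3 - 1 - cZ v) + 1) ^ 2 := by simp [Ch]

lemma step_lower {Ω Γ : Finset (Bx n1 n2 n3)} {v w : Bx n1 n2 n3} (hZ : 0 < Z pk Ω) (hv : v ∈ Ω)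
    (h : Nbr v w) : 1 / 6 * (1 - surv pk Ω Γ w) ≤ 1 - surv pk Ω Γ v := by
  by_cases hΓ : v ∈ Γ
  · rw [surv_of_mem hΓ]; linarith [surv_nonneg (Ω := Ω) (Γ := Γ) pk_nonneg w]
  have h1 := lap_surv (c := pk) (mem_sdiff.2 ⟨hv, hΓ⟩)
  rw [lap_stoch pk_stoch] at h1
  have h2 : 1 - surv pk Ω Γ v = ∑ y, pk v y * (1 - surv pk Ω Γ y) := by
    simp only [mul_sub, sum_sub_distrib, mul_one, pk_stoch]; linarith
  rw [h2, ← pk_of_nbr h]
  exact single_le_sum (f := fun y => pk v y * (1 - surv pk Ω Γ y)) (fun y _ =>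
    mul_nonneg (pk_nonneg _ _) (sub_nonneg.2 (surv_le_one pk_nonneg hZ y))) (mem_univ w)

lemma face_lower {Ω Γ : Finset (Bx n1 n2 n3)} (hZ : 0 < Z pk Ω) (hΩ : Rb n1 n2 n3 ⊆ Ω)
    {r : Bx n1 n2 n3} (hr : cX r = 1 ∧ cY r = 0 ∧ cZ r = 0) (hΓ : r ∈ Γ) (k : ℕ) :
    ∀ v, cZ v = 0 → ¬ (cX v = 0 ∧ cY v = 0) →
      (if cX v = 0 then cY v + 1 else cX v - 1 + cY v) ≤ k → (1 / 6) ^ k ≤ 1 - surv pk Ω Γ v := by
  have br := bnd r
  induction k with
  | zero =>
    intro v h1 h2 h3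
    have bv := bnd v
    have : v = r := bx_ext (by split_ifs at h3 <;> omega) (by split_ifs at h3 <;> omega) (by omega)
    rw [this, surv_of_mem hΓ]; simp
  | succ k ih =>
    intro v h1 h2 h3
    have bv := bnd v
    by_cases hv : v = r
    · rw [hv, surv_of_mem hΓ, sub_zero]; exact pow_le_one₀ (by norm_num) (by norm_num)
    have hv' : ¬ (cX v = 1 ∧ cY v = 0) := fun h => hv (bx_ext (by omega) (by omega) (by omega))
    obtain ⟨w, e1, e2, e3⟩ := exists_pt (n1 := n1) (n2 := n2) (n3 := n3)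
      (x := if cX v = 0 then 1 else if cY v = 0 then cX v - 1 else cX v)
      (y := if cX v = 0 then cY v else if cY v = 0 then 0 else cY v - 1) (z := 0)
      (by split_ifs <;> omega) (by split_ifs <;> omega) (by omega)
    have := ih w e3 (by split_ifs at e1 e2 <;> omega) (by split_ifs at e1 e2 h3 ⊢ <;> omega)
    refine le_trans ?_ (step_lower (w := w) hZ (hΩ (by rw [mem_Rb]; omega))
      (by unfold Nbr; split_ifs at e1 e2 <;> omega))
    rw [pow_succ']
    exact mul_le_mul_of_nonneg_left this (by norm_num)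

lemma small_solid {Ω : Finset (Bx n1 n2 n3)} (hZ : 0 < Z pk Ω) (hΩ : Rb n1 n2 n3 ⊆ Ω)
    {r : Bx n1 n2 n3} (hr : cX r = 1 ∧ cY r = 0 ∧ cZ r = 0) (s0 : ℕ) {s : ℤ} (hs : s ≤ s0) :
    ((1 / 6) ^ (2 * s0 + 1)) ^ ((2 * (s0 + 1) + 1) ^ 3) ≤ q pk Ω {r} (solid n1 n2 n3 s) := by
  have h1 := q_prod (Γ := {r}) pk_nonneg hZ (solid n1 n2 n3 s) (fun v => {v})
    (m := (1 / 6) ^ (2 * s0 + 1)) (by positivity) (fun Γ' hΓ v hv => by
      rw [q_singleton pk_nonneg hZ]
      rw [mem_solid] at hv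
      have := bnd v
      exact face_lower hZ hΩ hr (hΓ (mem_singleton_self r)) _ v hv.1 hv.2.2.2
        (by split_ifs <;> omega))
  rw [biUnion_singleton_eq_self] at h1
  refine le_trans (pow_le_pow_of_le_one (by positivity) (pow_le_one₀ (by norm_num) (by norm_num))
    ?_) h1
  have d1 : (solid n1 n2 n3 s).card ≤ (cube r (s0 + 1)).card := card_le_card fun v hv => by
    rw [mem_solid] at hv
    have := bnd v
    rw [mem_cube]; omega
  have d2 := card_cube_le r (ρ := s0 + 1) (by omega)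
  have : ((cube r (s0 + 1)).card : ℝ) ≤ ((2 * (s0 + 1) + 1) ^ 3 : ℕ) := by
    push_cast at d2 ⊢; exact d2
  exact d1.trans (by exact_mod_cast this)

theorem sweep : ∃ c : ℝ, 0 < c ∧ ∃ E : ℕ, ∀ (n1 n2 n3 : ℕ) (Ω : Finset (Bx n1 n2 n3))
    (r : Bx n1 n2 n3), 0 < Z pk Ω → Rb n1 n2 n3 ⊆ Ω → (cX r = 1 ∧ cY r = 0 ∧ cZ r = 0) →
    ∀ s : ℕ, 1 ≤ s → (s : ℤ) ≤ n1 - 1 → (s : ℤ) ≤ n2 - 1 → (s : ℤ) ≤ 2 * n3 - 1 →
    c / (s : ℝ) ^ E ≤ q pk Ω {r} (solid n1 n2 n3 s) := by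
  obtain ⟨C0, hC0, hcell⟩ := cell
  obtain ⟨C, rfl⟩ := Int.eq_ofNat_of_zero_le (show 0 ≤ C0 by omega)
  set K : ℕ := 64 * C with hK
  set c : ℝ := ((1 / 6) ^ (2 * (32 * C) + 1)) ^ ((2 * (32 * C + 1) + 1) ^ 3) with hc
  have c0 : 0 < c := by positivity
  refine ⟨c, c0, K * (K * K), fun n1 n2 n3 Ω r hZ hΩ hr s => ?_⟩
  induction s using Nat.strong_induction_on with
  | _ s' ih =>
  intro h1 h2 h3 h4
  have s1 : (1 : ℝ) ≤ s' := by exact_mod_cast h1
  by_cases hs : s' ≤ 32 * C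
  · refine le_trans ?_ (small_solid hZ hΩ hr (32 * C) (by exact_mod_cast hs))
    exact div_le_self c0.le (one_le_pow₀ s1)
  set d : ℕ := s' / (32 * C) with hd
  have C1 : 1 ≤ C := by omega
  have d1 : 32 * C * d ≤ s' := Nat.mul_div_le _ _
  have d2 : s' < 32 * C * (d + 1) := Nat.lt_mul_div_succ _ (by omega)
  have d3 : 1 ≤ d := Nat.div_pos (by omega) (by omega)
  have d4 : d ≤ C * d := Nat.le_mul_of_pos_left _ C1
  have d5 : C ≤ C * d := Nat.le_mul_of_pos_right _ d3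
  have d6 : 32 * (C * d) ≤ s' := by rw [← mul_assoc]; exact d1
  have d7 : s' < 64 * (C * d) := by rw [mul_add, mul_assoc] at d2; omega
  have d0 : (0 : ℤ) < d := by omega
  obtain ⟨s, hs'⟩ : ∃ s, s' = s + d := ⟨s' - d, by omega⟩
  have hCd : (C : ℤ) * d = ((C * d : ℕ) : ℤ) := by push_cast; rfl
  have IH := ih s (by omega) (by omega) (by omega) (by omega) (by omega)
  have key := K3 (Γ := {r}) pk_nonneg hZ (P := solid n1 n2 n3 s)
    (P' := (Ico (0 : ℤ) K ×ˢ Ico (0 : ℤ) K).biUnion fun i =>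
      (solid n1 n2 n3 s' \ solid n1 n2 n3 s).filter fun v => (cX v / d, cY v / d) = i)
    (m := (1 / 2) ^ (K * K)) (fun Γ' _ hΓ => by
      have := q_prod (Γ := Γ') pk_nonneg hZ (Ico (0 : ℤ) K ×ˢ Ico (0 : ℤ) K) (fun i =>
        (solid n1 n2 n3 s' \ solid n1 n2 n3 s).filter fun v => (cX v / d, cY v / d) = i)
        (m := 1 / 2) (by norm_num) (fun Γ'' hΓ' i _ => by
          rcases eq_empty_or_nonempty ((solid n1 n2 n3 s' \ solid n1 n2 n3 s).filter
            fun v => (cX v / d, cY v / d) = i) with h | ⟨c0, hc0⟩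
          · rw [h, q_of_subset pk_nonneg hZ (empty_subset _)]; norm_num
          obtain ⟨g1, g2⟩ := mem_filter.1 hc0
          simp only [mem_sdiff, mem_solid] at g1
          have sub : cube c0 (C * d) ⊆ Ω := fun v hv => hΩ (by
            rw [mem_cube, hCd] at hv
            rw [mem_Rb]; omega)
          refine (hcell n1 n2 n3 c0 s d Γ'' (by omega) (by rw [hCd]; omega) (by omega) (by omega)
            (by omega) g1.1.1 (by omega) (by omega) (by omega) (hΓ.trans hΓ')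
            (Z_pos_of_subset pk_nonneg hZ sub)).trans
            ((q_dom_mono pk_nonneg hZ sub _).trans (q_anti pk_nonneg fun v hv => ?_))
          obtain ⟨hv1, hv2⟩ := mem_filter.1 hv
          rw [← g2, Prod.mk.injEq] at hv2
          have e1 := close_of_ediv_eq d0 hv2.1
          have e2 := close_of_ediv_eq d0 hv2.2
          simp only [mem_sdiff, mem_solid] at hv1
          rw [mem_fc, mem_cube]
          omega)
      simpa only [card_product, Int.card_Ico, sub_zero, Int.toNat_natCast] using this)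
  refine le_trans ?_ (key.trans (q_anti pk_nonneg fun v hv => ?_))
  · refine le_trans ?_ (mul_le_mul_of_nonneg_left IH (by positivity))
    have t1 : (1 : ℝ) ≤ s := by exact_mod_cast (show 1 ≤ s by omega)
    have K1 : (1 : ℝ) ≤ K := by exact_mod_cast (show 1 ≤ K by omega)
    have g1 : (1 + 1 / (K : ℝ)) * s ≤ s' := by
      have : (s : ℝ) ≤ K * d := by
        have : s ≤ K * d := by rw [hK, mul_assoc]; omega
        exact_mod_cast this
      rw [hs', add_mul, one_mul, Nat.cast_add, one_div, inv_mul_eq_div]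
      have : (s : ℝ) / K ≤ d := by rw [div_le_iff₀ (by linarith)]; linarith
      linarith
    have g2 : (2 : ℝ) ≤ (1 + 1 / (K : ℝ)) ^ K := by
      have := one_add_mul_le_pow (a := 1 / (K : ℝ)) (by
        have : (0 : ℝ) ≤ 1 / K := by positivity
        linarith) K
      rw [mul_one_div_cancel (by linarith)] at this
      linarith
    have g3 : (2 : ℝ) ^ (K * K) * (s : ℝ) ^ (K * (K * K)) ≤ (s' : ℝ) ^ (K * (K * K)) := by
      refine le_trans ?_ (pow_le_pow_left₀ (by positivity) g1 _)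
      rw [mul_pow, pow_mul (1 + 1 / (K : ℝ))]
      exact mul_le_mul_of_nonneg_right (pow_le_pow_left₀ (by norm_num) g2 _) (by positivity)
    rw [one_div_pow, div_mul_div_comm, one_mul]
    exact div_le_div_of_nonneg_left c0.le (by positivity) g3
  · by_cases h : v ∈ solid n1 n2 n3 s
    · exact mem_union_left _ h
    · refine mem_union_right _ (mem_biUnion.2 ⟨_, ?_, mem_filter.2 ⟨mem_sdiff.2 ⟨hv, h⟩, rfl⟩⟩)
      rw [mem_solid] at hv
      have := bnd v
      have hKd : (K : ℤ) * d = 64 * ((C * d : ℕ) : ℤ) := by rw [hK]; push_cast; ring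
      simp only [mem_product, mem_Ico]
      exact ⟨⟨Int.ediv_nonneg (by omega) d0.le, Int.ediv_lt_of_lt_mul d0 (by omega)⟩,
        ⟨Int.ediv_nonneg (by omega) d0.le, Int.ediv_lt_of_lt_mul d0 (by omega)⟩⟩

lemma arm {n h : ℕ} (hn : n = h + h) {Ω Γ : Finset (Bx n n h)} (hZ : 0 < Z pk Ω)
    (hΩ : Ch n n h ⊆ Ω) (hΓ : solid n n h (n - 1) ⊆ Γ) {a : Bx n n h}
    (ha : cX a = n - 1 ∧ cY a = n - 1 ∧ cZ a = h - 1) :
    1 / (8 * (h : ℝ) ^ 2) ≤ 1 - surv pk Ω Γ a := by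
  set b : ℤ → ℤ → ℤ → ℤ := fun x y z =>
    2 * (2 * (h - 1 - z) + 1) ^ 2 - (2 * (n - 1 - x) + 1) ^ 2 - (2 * (n - 1 - y) + 1) ^ 2 + 1 with hb
  have ba := bnd a
  have h0 : (0 : ℝ) < 8 * (h : ℝ) ^ 2 := by
    have : (0 : ℝ) < h := by exact_mod_cast (show 0 < h by omega)
    positivity
  have key := compare_all pk_nonneg (D := Ch n n h \ Γ)
    (Z_pos_of_subset pk_nonneg hZ (sdiff_subset.trans hΩ))
    (f := fun v => (b (cX v) (cY v) (cZ v) : ℝ) / (8 * (h : ℝ) ^ 2))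
    (g := fun v => 1 - surv pk Ω Γ v) (fun x hx => by
      obtain ⟨hx1, hx2⟩ := mem_sdiff.1 hx
      rw [lap_div, lap_sub, lap_const, lap_surv (mem_sdiff.2 ⟨hΩ hx1, hx2⟩), sub_zero]
      rw [mem_Ch] at hx1
      have bx := bnd x
      have z1 : (2 * ((h : ℤ) - 1 - cZ x) + 1) ^ 2 ≤ (2 * h - 1) ^ 2 := by
        nlinarith [bx.2.2.1, bx.2.2.2]
      have x0 : cX x ≠ 0 := by
        intro h'
        rw [h'] at hx1
        nlinarith [sq_nonneg (2 * ((n : ℤ) - 1 - cY x) + 1), bx.2.2.1, bx.2.2.2]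
      have y0 : cY x ≠ 0 := by
        intro h'
        rw [h'] at hx1
        nlinarith [sq_nonneg (2 * ((n : ℤ) - 1 - cX x) + 1), bx.2.2.1, bx.2.2.2]
      have z0 : cZ x ≠ 0 := fun h' => hx2 (hΓ (by rw [mem_solid]; omega))
      have l2 := lap_le x (fun x y z => (b x y z : ℝ))
        (fun h' => by simp only [hb, h']; push_cast; exact le_of_eq (by ring))
        (fun h' => absurd h' x0)
        (fun h' => by simp only [hb, h']; push_cast; exact le_of_eq (by ring))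
        (fun h' => absurd h' y0)
        (fun h' => by simp only [hb, h']; push_cast; exact le_of_eq (by ring))
        (fun h' => absurd h' z0)
      have l3 : (b (cX x) (cY x) (cZ x) : ℝ) -
          six (fun x y z => (b x y z : ℝ)) (cX x) (cY x) (cZ x) / 6 = 0 := by
        simp only [six, hb]; push_cast; ring
      rw [l3] at l2
      exact div_nonpos_of_nonpos_of_nonneg l2 h0.le) (fun y hy => by
      have by0 := bnd y
      by_cases h1 : y ∈ Γ
      · rw [surv_of_mem h1, sub_zero, div_le_one h0]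
        have : b (cX y) (cY y) (cZ y) ≤ 8 * h ^ 2 := by
          simp only [hb]
          nlinarith [by0.2.2.1, by0.2.2.2, sq_nonneg (2 * ((n : ℤ) - 1 - cX y) + 1),
            sq_nonneg (2 * ((n : ℤ) - 1 - cY y) + 1)]
        exact_mod_cast this
      · have h2 : y ∉ Ch n n h := fun h2 => hy (mem_sdiff.2 ⟨h2, h1⟩)
        rw [mem_Ch] at h2
        have : b (cX y) (cY y) (cZ y) ≤ 0 := by simp only [hb]; omega
        have : (b (cX y) (cY y) (cZ y) : ℝ) ≤ 0 := by exact_mod_cast this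
        linarith [div_nonpos_of_nonpos_of_nonneg this h0.le,
          surv_le_one (Γ := Γ) pk_nonneg hZ y]) a
  simp only [hb, ha.1, ha.2.1, ha.2.2] at key
  simpa using key

theorem box_bound : ∃ c : ℝ, 0 < c ∧ ∃ E : ℕ, ∀ (n h : ℕ), n = h + h → ∀ (r a : Bx n n h),
    (cX r = 1 ∧ cY r = 0 ∧ cZ r = 0) → (cX a = n - 1 ∧ cY a = n - 1 ∧ cZ a = h - 1) →
    0 < Z pk (Rb n n h ∪ Ch n n h) →
    c / (n : ℝ) ^ E ≤ q pk (Rb n n h ∪ Ch n n h) {r} (solid n n h (n - 1) ∪ {a}) := by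
  obtain ⟨c, c0, E, hE⟩ := sweep
  refine ⟨c / 2, by positivity, E + 2, fun n h hn r a hr ha hZ => ?_⟩
  have br := bnd r
  have h1 := hE n n h _ r hZ subset_union_left hr (n - 1) (by omega) (by omega) (by omega) (by omega)
  have e : ((n - 1 : ℕ) : ℤ) = n - 1 := by omega
  rw [e] at h1
  refine le_trans ?_ (K3 pk_nonneg hZ (m := 1 / (8 * (h : ℝ) ^ 2)) fun Γ' _ hΓ => by
    rw [q_singleton pk_nonneg hZ]; exact arm hn hZ subset_union_right hΓ ha)
  have h0 : (0 : ℝ) < h := by exact_mod_cast (show 0 < h by omega)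
  refine le_trans ?_ (mul_le_mul_of_nonneg_left h1 (by positivity))
  have n1 : (0 : ℝ) < (n - 1 : ℕ) := by exact_mod_cast (show 0 < n - 1 by omega)
  have n2 : ((n - 1 : ℕ) : ℝ) ≤ n := by exact_mod_cast Nat.sub_le n 1
  have n3 : (n : ℝ) = h + h := by exact_mod_cast hn
  rw [div_div, div_mul_div_comm, one_mul]
  refine div_le_div_of_nonneg_left c0.le (by positivity) ?_
  calc 8 * (h : ℝ) ^ 2 * ((n - 1 : ℕ) : ℝ) ^ E ≤ 8 * (h : ℝ) ^ 2 * (n : ℝ) ^ E := by gcongr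
    _ = 2 * (n : ℝ) ^ (E + 2) := by rw [pow_add, n3]; ring

end Pool.Agent.MP_3251d9_pr.H70
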