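import Pool.Agent.MP_3251d9_pr.H70.Explore

/-! Killed random walks as functionals on paths, and the loop erasure. -/

set_option autoImplicit false

namespace Pool.Agent.MP_3251d9_pr.H70

open Finset Function
open scoped ENNReal

variable {V : Type*} [Fintype V] [DecidableEq V] {p : V → V → ℝ} {D : Finset V}

/-- truncated walk functional -/
noncomputable def Wk (p : V → V → ℝ) (D : Finset V) : ℕ → V → (List V → V → ℝ≥0∞) → ℝ≥0∞
  | 0, _, _ => 0
  | k + 1, x, Θ => if x ∈ D then
      ∑ y, ENNReal.ofReal (p x y) * Wk p D k y (fun l e => Θ (x :: l) e) else Θ [] x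

/-- expectation of a function of the walk from `x` stopped on leaving `D`: the list of the
vertices visited in `D` and the exit point -/
noncomputable def Wf (p : V → V → ℝ) (D : Finset V) (x : V) (Θ : List V → V → ℝ≥0∞) : ℝ≥0∞ :=
  ⨆ k, Wk p D k x Θ

lemma Wk_mono (k : ℕ) (x : V) {Θ Θ' : List V → V → ℝ≥0∞}
    (h : ∀ l e, (∀ v ∈ l, v ∈ D) → e ∉ D → (x ∈ D → ∃ l', l = x :: l') → Θ l e ≤ Θ' l e) :
    Wk p D k x Θ ≤ Wk p D k x Θ' := by
  induction k generalizing x Θ Θ' with
  | zero => exact le_rfl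
  | succ k ih =>
    simp only [Wk]
    split_ifs with hx
    · refine sum_le_sum fun y _ => mul_le_mul_right (ih y fun l e h1 h2 _ => ?_) _
      exact h _ _ (by simpa [hx] using h1) h2 (fun _ => ⟨l, rfl⟩)
    · exact h _ _ (by simp) hx (fun h => absurd h hx)

lemma Wk_le_succ (k : ℕ) (x : V) (Θ : List V → V → ℝ≥0∞) :
    Wk p D k x Θ ≤ Wk p D (k + 1) x Θ := by
  induction k generalizing x Θ with
  | zero => exact zero_le
  | succ k ih =>
    rw [Wk, Wk]
    split_ifs with hx
    · exact sum_le_sum fun y _ => mul_le_mul_right (ih y _) _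
    · exact le_rfl

lemma Wk_monotone (x : V) (Θ : List V → V → ℝ≥0∞) : Monotone fun k => Wk p D k x Θ :=
  monotone_nat_of_le_succ fun k => Wk_le_succ k x Θ

lemma Wk_le_Wf (k : ℕ) (x : V) (Θ : List V → V → ℝ≥0∞) : Wk p D k x Θ ≤ Wf p D x Θ :=
  le_iSup (fun k => Wk p D k x Θ) k

lemma Wf_mono (x : V) {Θ Θ' : List V → V → ℝ≥0∞}
    (h : ∀ l e, (∀ v ∈ l, v ∈ D) → e ∉ D → (x ∈ D → ∃ l', l = x :: l') → Θ l e ≤ Θ' l e) :
    Wf p D x Θ ≤ Wf p D x Θ' :=
  iSup_mono fun k => Wk_mono k x h

lemma Wf_mono' (x : V) {Θ Θ' : List V → V → ℝ≥0∞} (h : ∀ l e, Θ l e ≤ Θ' l e) :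
    Wf p D x Θ ≤ Wf p D x Θ' :=
  Wf_mono x fun l e _ _ _ => h l e

lemma Wf_eq_iSup_succ (x : V) (Θ : List V → V → ℝ≥0∞) :
    Wf p D x Θ = ⨆ k, Wk p D (k + 1) x Θ :=
  le_antisymm (iSup_mono fun k => Wk_le_succ k x Θ) (iSup_le fun k => Wk_le_Wf (k + 1) x Θ)

lemma Wf_of_not_mem {x : V} (hx : x ∉ D) (Θ : List V → V → ℝ≥0∞) : Wf p D x Θ = Θ [] x := by
  simp [Wf_eq_iSup_succ, Wk, hx]

lemma Wf_rec {x : V} (hx : x ∈ D) (Θ : List V → V → ℝ≥0∞) :
    Wf p D x Θ = ∑ y, ENNReal.ofReal (p x y) * Wf p D y (fun l e => Θ (x :: l) e) := by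
  rw [Wf_eq_iSup_succ]
  simp only [Wk, hx, if_true, Wf, ENNReal.mul_iSup]
  rw [ENNReal.finsetSum_iSup_of_monotone]
  intro y a b hab
  exact mul_le_mul_right (Wk_monotone y _ hab) _

lemma Wk_add (k : ℕ) (x : V) (Θ Θ' : List V → V → ℝ≥0∞) :
    Wk p D k x (fun l e => Θ l e + Θ' l e) = Wk p D k x Θ + Wk p D k x Θ' := by
  induction k generalizing x Θ Θ' with
  | zero => simp [Wk]
  | succ k ih =>
    simp only [Wk]
    split_ifs with hx
    · rw [← sum_add_distrib]
      exact sum_congr rfl fun y _ => by rw [ih, mul_add]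
    · rfl

lemma Wk_mul (k : ℕ) (x : V) (a : ℝ≥0∞) (Θ : List V → V → ℝ≥0∞) :
    Wk p D k x (fun l e => a * Θ l e) = a * Wk p D k x Θ := by
  induction k generalizing x Θ with
  | zero => simp [Wk]
  | succ k ih =>
    simp only [Wk]
    split_ifs with hx
    · rw [mul_sum]
      exact sum_congr rfl fun y _ => by rw [ih, mul_left_comm]
    · rfl

lemma Wf_add (x : V) (Θ Θ' : List V → V → ℝ≥0∞) :
    Wf p D x (fun l e => Θ l e + Θ' l e) = Wf p D x Θ + Wf p D x Θ' := by
  simp only [Wf, Wk_add]
  rw [ENNReal.iSup_add_iSup_of_monotone (Wk_monotone x Θ) (Wk_monotone x Θ')]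

lemma Wf_mul (x : V) (a : ℝ≥0∞) (Θ : List V → V → ℝ≥0∞) :
    Wf p D x (fun l e => a * Θ l e) = a * Wf p D x Θ := by
  simp only [Wf, Wk_mul, ENNReal.mul_iSup]

lemma Wf_zero (x : V) : Wf p D x (fun _ _ => 0) = 0 := by
  have := Wf_mul (p := p) (D := D) x 0 (fun _ _ => 0)
  simpa using this

lemma Wf_sum {ι : Type*} (s : Finset ι) (x : V) (Θ : ι → List V → V → ℝ≥0∞) :
    Wf p D x (fun l e => ∑ i ∈ s, Θ i l e) = ∑ i ∈ s, Wf p D x (Θ i) := by
  classical
  induction s using Finset.induction_on with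
  | empty => simp [Wf_zero]
  | insert i s hi ih => simp only [sum_insert hi]; rw [Wf_add, ih]

lemma Wf_swap_le {D' : Finset V} (x y : V) (Θ : List V → V → List V → V → ℝ≥0∞) :
    Wf p D x (fun l e => Wf p D' y (fun l' e' => Θ l e l' e')) ≤
      Wf p D' y (fun l' e' => Wf p D x (fun l e => Θ l e l' e')) := by
  have key : ∀ k x (Θ : List V → V → List V → V → ℝ≥0∞),
      Wk p D k x (fun l e => Wf p D' y (fun l' e' => Θ l e l' e')) =
      Wf p D' y (fun l' e' => Wk p D k x (fun l e => Θ l e l' e')) := by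
    intro k
    induction k with
    | zero => intro x Θ; simp [Wk, Wf_zero]
    | succ k ih =>
      intro x Θ
      simp only [Wk]
      split_ifs with hx
      · rw [Wf_sum]
        refine sum_congr rfl fun z _ => ?_
        rw [Wf_mul, ih z (fun l e => Θ (x :: l) e)]
      · rfl
  refine iSup_le fun k => ?_
  rw [key]
  exact Wf_mono' _ fun l' e' => Wk_le_Wf _ _ _

/-- strong Markov property at the exit of a subdomain -/
lemma Wf_markov {D' : Finset V} (h : D' ⊆ D) (x : V) (Θ : List V → V → ℝ≥0∞) :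
    Wf p D' x (fun l e => Wf p D e (fun s e' => Θ (l ++ s) e')) ≤ Wf p D x Θ := by
  refine iSup_le fun k => ?_
  induction k generalizing x Θ with
  | zero => exact zero_le
  | succ k ih =>
    simp only [Wk]
    split_ifs with hx
    · rw [Wf_rec (h hx)]
      exact sum_le_sum fun y _ => mul_le_mul_right (ih y (fun l e => Θ (x :: l) e)) _
    · exact le_rfl

omit [DecidableEq V] in
lemma sum_ofReal (hp : ∀ v w, 0 ≤ p v w) {u : V → ℝ} (hu : ∀ v, 0 ≤ u v) (x : V) :
    ∑ y, ENNReal.ofReal (p x y) * ENNReal.ofReal (u y) = ENNReal.ofReal (∑ y, p x y * u y) := by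
  rw [ENNReal.ofReal_sum_of_nonneg fun y _ => mul_nonneg (hp _ _) (hu _)]
  exact sum_congr rfl fun y _ => (ENNReal.ofReal_mul (hp _ _)).symm

omit [DecidableEq V] in
lemma sum_ofReal_le (hp : ∀ v w, 0 ≤ p v w) (hs : ∀ x, ∑ y, p x y = 1) {u : V → ℝ}
    (hu : ∀ v, 0 ≤ u v) {x : V} (h : 0 ≤ lap p u x) {a : V → ℝ≥0∞}
    (ha : ∀ y, a y ≤ ENNReal.ofReal (u y)) :
    ∑ y, ENNReal.ofReal (p x y) * a y ≤ ENNReal.ofReal (u x) := by
  refine le_trans (sum_le_sum fun y _ => mul_le_mul_right (ha y) _) ?_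
  rw [sum_ofReal hp hu]
  rw [lap_stoch hs] at h
  exact ENNReal.ofReal_le_ofReal (by linarith)

lemma Wf_exit_le (hp : ∀ v w, 0 ≤ p v w) (hs : ∀ x, ∑ y, p x y = 1) {φ u : V → ℝ}
    (hu : ∀ v, 0 ≤ u v) (h1 : ∀ x ∈ D, 0 ≤ lap p u x) (h2 : ∀ x, x ∉ D → φ x ≤ u x) (x : V) :
    Wf p D x (fun _ e => ENNReal.ofReal (φ e)) ≤ ENNReal.ofReal (u x) := by
  refine iSup_le fun k => ?_
  induction k generalizing x with
  | zero => exact zero_le
  | succ k ih =>
    simp only [Wk]
    split_ifs with hx
    · exact sum_ofReal_le hp hs hu (h1 x hx) ih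
    · exact ENNReal.ofReal_le_ofReal (h2 x hx)

lemma Wf_le_one (hp : ∀ v w, 0 ≤ p v w) (hs : ∀ x, ∑ y, p x y = 1) (x : V)
    {Θ : List V → V → ℝ≥0∞} (h : ∀ l e, Θ l e ≤ 1) : Wf p D x Θ ≤ 1 := by
  refine (Wf_mono' x h).trans ?_
  have := Wf_exit_le (D := D) hp hs (φ := fun _ => 1) (u := fun _ => 1) (fun _ => zero_le_one)
    (fun x _ => (lap_const 1 x).ge) (fun _ _ => le_rfl) x
  simpa using this

lemma le_Wf_exit (hp : ∀ v w, 0 ≤ p v w) (hs : ∀ x, ∑ y, p x y = 1) (hZ : 0 < Z p D)
    {φ u : V → ℝ} (hφ0 : ∀ v, 0 ≤ φ v) (hφ1 : ∀ v, φ v ≤ 1) (h1 : ∀ x ∈ D, lap p u x ≤ 0)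
    (h2 : ∀ x, x ∉ D → u x ≤ φ x) (x : V) :
    ENNReal.ofReal (u x) ≤ Wf p D x (fun _ e => ENNReal.ofReal (φ e)) := by
  set w : V → ℝ≥0∞ := fun x => Wf p D x (fun _ e => ENNReal.ofReal (φ e)) with hw
  have hfin : ∀ x, w x ≠ ⊤ := fun x => ne_top_of_le_ne_top ENNReal.one_ne_top
    (Wf_le_one hp hs x fun _ e => by simpa using hφ1 e)
  have : u x ≤ (w x).toReal := by
    refine compare_all hp hZ (g := fun x => (w x).toReal) ?_ ?_ x
    · intro x hx
      refine (h1 x hx).trans (le_of_eq ?_)
      rw [lap_stoch hs]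
      have : w x = ∑ y, ENNReal.ofReal (p x y) * w y := Wf_rec hx _
      rw [this, ENNReal.toReal_sum fun y _ => ENNReal.mul_ne_top ENNReal.ofReal_ne_top (hfin y)]
      simp [ENNReal.toReal_ofReal (hp _ _)]
    · intro y hy
      have : w y = ENNReal.ofReal (φ y) := Wf_of_not_mem hy _
      rw [this, ENNReal.toReal_ofReal (hφ0 _)]
      exact h2 y hy
  exact (ENNReal.ofReal_le_ofReal this).trans (ENNReal.ofReal_toReal (hfin x)).le

lemma Wf_hit_le (hp : ∀ v w, 0 ≤ p v w) (hs : ∀ x, ∑ y, p x y = 1) (B : Finset V)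
    {φ u0 u : V → ℝ} (hu0 : ∀ v, 0 ≤ u0 v) (h01 : ∀ x ∈ D, 0 ≤ lap p u0 x)
    (h02 : ∀ x, x ∉ D → φ x ≤ u0 x) (hu : ∀ v, 0 ≤ u v) (h1 : ∀ x ∈ D, x ∉ B → 0 ≤ lap p u x)
    (h2 : ∀ x ∈ D, x ∈ B → u0 x ≤ u x) (x : V) :
    Wf p D x (fun l e => if ∃ v ∈ l, v ∈ B then ENNReal.ofReal (φ e) else 0) ≤
      ENNReal.ofReal (u x) := by
  refine iSup_le fun k => ?_
  induction k generalizing x with
  | zero => exact zero_le
  | succ k ih =>
    by_cases hx : x ∈ D
    · by_cases hB : x ∈ B
      · refine (Wk_le_Wf _ _ _).trans ((Wf_mono' x fun l e => ?_).trans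
          ((Wf_exit_le hp hs hu0 h01 h02 x).trans (ENNReal.ofReal_le_ofReal (h2 x hx hB))))
        split_ifs
        · exact le_rfl
        · exact zero_le
      · simp only [Wk, hx, if_true]
        refine sum_ofReal_le hp hs hu (h1 x hx hB) fun y => le_trans (le_of_eq ?_) (ih y)
        congr 1
        funext l e
        simp [hB]
    · simp [Wk, hx]

/-- the walk visits `w` before leaving `B` -/
def vis (B : Finset V) (w : V) : List V → Prop
  | [] => False
  | v :: l => v ∈ B ∧ (v = w ∨ vis B w l)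

/-- indicator with values in the extended reals -/
noncomputable def eind (P : Prop) : ℝ≥0∞ := ENNReal.ofReal (ind P)

lemma eind_of {P : Prop} (h : P) : eind P = 1 := by simp [eind, ind_of h]
lemma eind_of_not {P : Prop} (h : ¬ P) : eind P = 0 := by simp [eind, ind_of_not h]
lemma eind_le_one (P : Prop) : eind P ≤ 1 := by simpa [eind] using ind_le_one P
lemma eind_mono {P Q : Prop} (h : P → Q) : eind P ≤ eind Q :=
  ENNReal.ofReal_le_ofReal (ind_mono h)
lemma eind_and (P Q : Prop) : eind (P ∧ Q) = eind P * eind Q := by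
  simp only [eind, ind_and, ENNReal.ofReal_mul (ind_nonneg _)]

lemma one_le_green (hp : ∀ v w, 0 ≤ p v w) (hs : ∀ x, ∑ y, p x y = 1) {B : Finset V}
    (hZ : 0 < Z p B) {w : V} (hw : w ∈ B) : 1 ≤ green p B w w := by
  have := lap_green hZ hw w
  rw [if_pos rfl, lap_stoch hs] at this
  have h2 : 0 ≤ ∑ y, p w y * green p B y w :=
    sum_nonneg fun y _ => mul_nonneg (hp _ _) (green_nonneg hp _ _)
  linarith

lemma Wf_vis_le (hp : ∀ v w, 0 ≤ p v w) (hs : ∀ x, ∑ y, p x y = 1) {B : Finset V}
    (hZ : 0 < Z p B) (w x : V) :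
    Wf p D x (fun l _ => eind (vis B w l)) ≤ ENNReal.ofReal (green p B x w) := by
  refine iSup_le fun k => ?_
  induction k generalizing x with
  | zero => exact zero_le
  | succ k ih =>
    by_cases hx : x ∈ D
    · by_cases hB : x ∈ B
      · by_cases hw : x = w
        · subst hw
          refine (Wk_le_Wf _ _ _).trans ((Wf_le_one hp hs x fun l e => eind_le_one _).trans ?_)
          simpa using one_le_green hp hs hZ hB
        · simp only [Wk, hx, if_true]
          refine sum_ofReal_le hp hs (u := fun x => green p B x w) (fun _ => green_nonneg hp _ _)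
            (by rw [lap_green hZ hB, if_neg hw]) fun y => le_trans (le_of_eq ?_) (ih y)
          simp [vis, hB, hw]
      · refine (Wk_le_Wf _ _ _).trans ((Wf_mono x (Θ' := fun _ _ => 0) ?_).trans ?_)
        · intro l e _ _ h
          obtain ⟨l', rfl⟩ := h hx
          rw [eind_of_not (by simp [vis, hB])]
        · simp [Wf_zero]
    · simp [Wk, hx, vis, eind_of_not]

lemma Wf_vis2_le (hp : ∀ v w, 0 ≤ p v w) (hs : ∀ x, ∑ y, p x y = 1) {B : Finset V}
    (hZ : 0 < Z p B) (z w x : V) :
    Wf p D x (fun l _ => eind (vis B z l ∧ vis B w l)) ≤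
      ENNReal.ofReal (green p B x z * green p B z w + green p B x w * green p B w z) := by
  have gn := fun a b => green_nonneg (D := B) hp a b
  refine iSup_le fun k => ?_
  induction k generalizing x with
  | zero => exact zero_le
  | succ k ih =>
    by_cases hx : x ∈ D
    · by_cases hB : x ∈ B
      · by_cases hz : x = z
        · subst hz
          refine (Wk_le_Wf _ _ _).trans ((Wf_mono' x fun l e => eind_mono And.right).trans
            ((Wf_vis_le hp hs hZ w x).trans (ENNReal.ofReal_le_ofReal ?_)))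
          nlinarith [one_le_green hp hs hZ hB, gn x w, gn w x, mul_nonneg (gn x w) (gn w x)]
        by_cases hw : x = w
        · subst hw
          refine (Wk_le_Wf _ _ _).trans ((Wf_mono' x fun l e => eind_mono And.left).trans
            ((Wf_vis_le hp hs hZ z x).trans (ENNReal.ofReal_le_ofReal ?_)))
          nlinarith [one_le_green hp hs hZ hB, gn x z, gn z x, mul_nonneg (gn x z) (gn z x)]
        · simp only [Wk, hx, if_true]
          refine sum_ofReal_le hp hs
            (u := fun x => green p B x z * green p B z w + green p B x w * green p B w z)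
            (fun _ => add_nonneg (mul_nonneg (gn _ _) (gn _ _)) (mul_nonneg (gn _ _) (gn _ _)))
            ?_ fun y => le_trans (le_of_eq ?_) (ih y)
          · simp only [mul_comm _ (green p B z w), mul_comm _ (green p B w z)]
            rw [lap_add, lap_mul, lap_mul, lap_green hZ hB, lap_green hZ hB, if_neg hz, if_neg hw]
            simp
          · simp [vis, hB, hw, hz]
      · refine (Wk_le_Wf _ _ _).trans ((Wf_mono x (Θ' := fun _ _ => 0) ?_).trans ?_)
        · intro l e _ _ h
          obtain ⟨l', rfl⟩ := h hx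
          rw [eind_of_not (by simp [vis, hB])]
        · simp [Wf_zero]
    · simp [Wk, hx, vis, eind_of_not]

/-- the part of a list after the last occurrence of `x` -/
def aft (x : V) : List V → List V
  | [] => []
  | v :: l => if x ∈ l then aft x l else if v = x then l else v :: l

omit [Fintype V] in
lemma aft_of_not_mem {x : V} {l : List V} (h : x ∉ l) : aft x l = l := by
  cases l with
  | nil => rfl
  | cons v l =>
    simp only [List.mem_cons, not_or] at h
    simp [aft, h.2, Ne.symm h.1]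

omit [Fintype V] in
lemma aft_length (x : V) (l : List V) : (aft x l).length ≤ l.length := by
  induction l with
  | nil => simp [aft]
  | cons v l ih => simp only [aft]; split_ifs <;> simp; omega

omit [Fintype V] in
lemma aft_subset (x : V) (l : List V) : ∀ v ∈ aft x l, v ∈ l := by
  induction l with
  | nil => simp [aft]
  | cons w l ih =>
    intro v hv
    simp only [aft] at hv
    split_ifs at hv
    · exact List.mem_cons_of_mem _ (ih v hv)
    · exact List.mem_cons_of_mem _ hv
    · exact hv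

omit [Fintype V] in
lemma aft_append {x : V} (l : List V) {s : List V} (h : x ∉ s) : aft x (l ++ s) = aft x l ++ s := by
  induction l with
  | nil => simp [aft, aft_of_not_mem h]
  | cons v l ih =>
    simp only [List.cons_append, aft, List.mem_append, h, or_false]
    split_ifs <;> simp [ih]

/-- loop erasure -/
def LE : List V → List V
  | [] => []
  | v :: l => v :: LE (aft v l)
termination_by l => l.length
decreasing_by simp only [List.length_cons]; exact Nat.lt_succ_of_le (aft_length _ _)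

omit [Fintype V] in
lemma LE_subset (l : List V) : ∀ v ∈ LE l, v ∈ l := by
  induction hn : l.length using Nat.strong_induction_on generalizing l with
  | _ n ih =>
  cases l with
  | nil => simp [LE]
  | cons w l =>
    intro v hv
    rw [LE, List.mem_cons] at hv
    rcases hv with rfl | hv
    · simp
    · exact List.mem_cons_of_mem _ (aft_subset w l v (ih _
        (by rw [← hn]; exact Nat.lt_succ_of_le (aft_length _ _)) _ rfl v hv))

/-- last exit decomposition -/
lemma Wf_last_exit (hp : ∀ v w, 0 ≤ p v w) (hs : ∀ x, ∑ y, p x y = 1) (hZ : 0 < Z p D) {x : V}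
    (hx : x ∈ D) (Ψ Ξ : List V → V → ℝ≥0∞) (v : V) :
    Wf p D v (fun l e => if x ∈ l then Ψ (aft x l) e else Ξ l e) ≤
      ENNReal.ofReal (green p D v x) * (∑ y, ENNReal.ofReal (p x y) *
        Wf p (D.erase x) y (fun l e => if e = x then 0 else Ψ l e)) +
      Wf p (D.erase x) v (fun l e => if e = x then 0 else Ξ l e) := by
  set A := ∑ y, ENNReal.ofReal (p x y) *
        Wf p (D.erase x) y (fun l e => if e = x then 0 else Ψ l e) with hA
  refine iSup_le fun k => ?_
  induction k generalizing v Ξ with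
  | zero => exact zero_le
  | succ k ih =>
    by_cases hv : v ∈ D
    · simp only [Wk, hv, if_true]
      have hg : ∑ y, ENNReal.ofReal (p v y) * ENNReal.ofReal (green p D y x) =
          ENNReal.ofReal (green p D v x - if v = x then 1 else 0) := by
        rw [sum_ofReal hp (u := fun y => green p D y x) (fun _ => green_nonneg hp _ _),
          ← lap_green hZ hv x, lap_stoch hs]
        simp
      by_cases hvx : v = x
      · subst hvx
        refine le_trans (sum_le_sum fun y _ => mul_le_mul_right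
          (le_trans (le_of_eq ?_) (ih Ψ y)) _) ?_
        · congr 1
          funext l e
          by_cases h : v ∈ l <;> simp [aft, h]
        · simp only [mul_add, sum_add_distrib, ← mul_assoc]
          rw [← sum_mul, hg, ← hA, if_pos rfl]
          refine le_trans (le_of_eq ?_) le_self_add
          have h1 := one_le_green hp hs hZ hv
          conv_rhs => rw [show green p D v v = (green p D v v - 1) + 1 by ring,
            ENNReal.ofReal_add (by linarith) zero_le_one, add_mul]
          simp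
      · refine le_trans (sum_le_sum fun y _ => mul_le_mul_right
          (le_trans (le_of_eq ?_) (ih (fun l e => Ξ (v :: l) e) y)) _) ?_
        · congr 1
          funext l e
          by_cases h : x ∈ l <;> simp [aft, h, Ne.symm hvx]
        · simp only [mul_add, sum_add_distrib, ← mul_assoc]
          rw [← sum_mul, hg, if_neg hvx, sub_zero, Wf_rec (mem_erase.2 ⟨hvx, hv⟩)]
    · have hvx : v ≠ x := by rintro rfl; exact hv hx
      simp only [Wk, hv, if_false]
      rw [Wf_of_not_mem (fun h => hv (mem_of_mem_erase h))]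
      simp [hvx]

/-- the loop erasure of the walk is dominated by the branch of the random forest -/
lemma Wf_LE_le (hp : ∀ v w, 0 ≤ p v w) (hs : ∀ x, ∑ y, p x y = 1) (hZ : 0 < Z p D) (x : V)
    {Θ : Finset V → V → ℝ} (hΘ : ∀ L e, 0 ≤ Θ L e) :
    Wf p D x (fun l e => ENNReal.ofReal (Θ (LE l).toFinset e)) ≤ ENNReal.ofReal (Ex p D x Θ) := by
  induction hn : D.card using Nat.strong_induction_on generalizing D x Θ with
  | _ n ih =>
  by_cases hx : x ∈ D
  · have hZ' := Z_pos_of_subset hp hZ (erase_subset x D)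
    refine le_trans (Wf_mono x ?_) ((Wf_last_exit hp hs hZ hx
      (fun l e => ENNReal.ofReal (Θ (insert x (LE l).toFinset) e)) (fun _ _ => 0) x).trans ?_)
    · intro l e _ _ h
      obtain ⟨l', rfl⟩ := h hx
      rw [if_pos (by simp), LE, List.toFinset_cons]
      by_cases h : x ∈ l' <;> simp [aft, h, aft_of_not_mem]
    · rw [Wf_of_not_mem (notMem_erase _ _), if_pos rfl, add_zero, Ex_rec hp hZ hx,
        ENNReal.ofReal_mul (green_nonneg hp _ _)]
      refine mul_le_mul_right ?_ _
      have hnn : ∀ (L : Finset V) (e : V), 0 ≤ (if e = x then 0 else Θ (insert x L) e) :=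
        fun L e => by split_ifs <;> simp [hΘ]
      rw [← sum_ofReal hp (fun y => Ex_nonneg hp hnn)]
      refine sum_le_sum fun y _ => mul_le_mul_right (le_trans (le_of_eq ?_)
        (ih _ (by rw [← hn]; exact card_erase_lt_of_mem hx) hZ' y hnn rfl)) _
      congr 1
      funext l e
      split_ifs <;> simp
  · rw [Wf_of_not_mem hx, Ex_of_not_mem hZ hx]
    simp [LE]

/-- `s'` meets the list `L` no later than `s` does -/
def bef (s s' : List V) : List V → Prop
  | [] => True
  | v :: L => v ∈ s' ∨ (v ∉ s ∧ bef s s' L)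

omit [Fintype V] [DecidableEq V] in
lemma bef_total (s s' L : List V) : bef s s' L ∨ bef s' s L := by
  induction L with
  | nil => simp [bef]
  | cons v L ih => simp only [bef]; tauto

omit [Fintype V] [DecidableEq V] in
lemma bef_append {s s' L : List V} (s2 : List V) (h2 : ∀ v ∈ L, v ∉ s2) (h : bef s s' L) :
    bef (s ++ s2) s' L := by
  induction L with
  | nil => simp [bef]
  | cons v L ih =>
    simp only [bef, List.mem_append, List.mem_cons, forall_eq_or_imp] at *
    tauto

omit [Fintype V] in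
lemma exists_mem_LE_of_bef {z : V} {s s' : List V} (hz : z ∈ s') (l : List V)
    (h : bef (z :: s) s' (LE l)) : ∃ v ∈ s', v ∈ LE (l ++ z :: s) := by
  induction hn : l.length using Nat.strong_induction_on generalizing l with
  | _ n ih =>
  cases l with
  | nil => exact ⟨z, hz, by simp [LE]⟩
  | cons w l =>
    rw [LE, bef] at h
    rw [List.cons_append, LE]
    rcases h with h | ⟨h1, h2⟩
    · exact ⟨w, h, by simp⟩
    · rw [aft_append l h1]
      obtain ⟨v, hv, hv'⟩ := ih _ (by rw [← hn]; exact Nat.lt_succ_of_le (aft_length _ _)) _ h2 rfl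
      exact ⟨v, hv, List.mem_cons_of_mem _ hv'⟩

omit [Fintype V] [DecidableEq V] in
lemma vis_append {B : Finset V} {z : V} (hz : z ∈ B) {l : List V} (hl : ∀ v ∈ l, v ∈ B)
    (s : List V) : vis B z (l ++ z :: s) := by
  induction l with
  | nil => simp [vis, hz]
  | cons v l ih =>
    simp only [List.mem_cons, forall_eq_or_imp] at hl
    exact ⟨hl.1, Or.inr (ih hl.2)⟩

end Pool.Agent.MP_3251d9_pr.H70
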